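import Pool.Agent.MRX.Defs

set_option autoImplicit false

open scoped Classical

noncomputable section

namespace MRX

/-!
# Module Ari (2)

Arithmetic of the sequence `Pv`, and growth.
-/

private theorem Ari_up (m : ℕ → ℝ) (J : ℕ) (h1 : ∀ j ≤ J, 1 ≤ m j)
    (h2 : ∀ j, j + 2 ≤ J → 3 * m (j + 1) ≤ m (j + 2) + m j)
    (h0 : 1 ≤ J → m 0 ≤ m 1) : (2 : ℝ) ^ J ≤ 2 * m J := by
  have key : ∀ j, j + 1 ≤ J → m j ≤ m (j + 1) ∧ (2 : ℝ) ^ (j + 1) ≤ 2 * m (j + 1) := by
    intro j
    induction j with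
    | zero =>
      intro hj
      refine ⟨h0 hj, ?_⟩
      have := h1 1 hj
      simp only [zero_add, pow_one]
      linarith
    | succ j ih =>
      intro hj
      obtain ⟨ha, hb⟩ := ih (by omega)
      have hc := h2 j (by omega)
      have h1' := h1 (j + 1) (by omega)
      refine ⟨by show m (j + 1) ≤ m (j + 2); linarith, ?_⟩
      show (2 : ℝ) ^ (j + 1 + 1) ≤ 2 * m (j + 2)
      rw [pow_succ]
      linarith
  rcases Nat.eq_zero_or_pos J with hJ | hJ
  · subst hJ
    have := h1 0 le_rfl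
    simp only [pow_zero]
    linarith
  · have := (key (J - 1) (by omega)).2
    rwa [Nat.sub_add_cancel hJ] at this

/-- A sequence of reals `≥ 1` with `m (j+1) + m (j-1) ≥ 3 m j` grows on one side of its
minimum. -/
theorem growth (m : ℕ → ℝ) (J : ℕ) (h1 : ∀ j ≤ J, 1 ≤ m j)
    (h2 : ∀ j, j + 2 ≤ J → 3 * m (j + 1) ≤ m (j + 2) + m j) :
    (2 : ℝ) ^ J ≤ 4 * (m 0 * m J) := by
  obtain ⟨k, hk, hmin⟩ := Finset.exists_min_image (Finset.range (J + 1)) m ⟨0, by simp⟩
  have hkJ : k ≤ J := by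
    have := Finset.mem_range.mp hk
    omega
  have hmin' : ∀ j ≤ J, m k ≤ m j := fun j hj => hmin j (Finset.mem_range.mpr (by omega))
  have hU := Ari_up (fun i => m (k + i)) (J - k)
    (fun j hj => h1 _ (by omega))
    (fun j hj => by
      have := h2 (k + j) (by omega)
      exact this)
    (fun h => hmin' _ (by omega))
  have hD := Ari_up (fun i => m (k - i)) k
    (fun j hj => h1 _ (by omega))
    (fun j hj => by
      have := h2 (k - (j + 2)) (by omega)
      have e1 : k - (j + 2) + 1 = k - (j + 1) := by omega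
      have e2 : k - (j + 2) + 2 = k - j := by omega
      rw [e1, e2] at this
      show 3 * m (k - (j + 1)) ≤ m (k - (j + 2)) + m (k - j)
      linarith)
    (fun h => hmin' _ (by omega))
  simp only [Nat.sub_self] at hD
  have e : k + (J - k) = J := by omega
  simp only [e] at hU
  have hm0 := h1 0 (Nat.zero_le _)
  have hmJ := h1 J le_rfl
  calc (2 : ℝ) ^ J = 2 ^ k * 2 ^ (J - k) := by rw [← pow_add]; congr 1; omega
    _ ≤ (2 * m 0) * (2 * m J) := by
        apply mul_le_mul hD hU (by positivity) (by linarith)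
    _ = 4 * (m 0 * m J) := by ring

theorem Pv_rec (k : ℕ) : Pv (k + 4) + Pv k = 3 • Pv (k + 2) := by
  have h4 : Pv (k + 4) = Pv (k + 2) - Pv (k + 3) := rfl
  have h3 : Pv (k + 3) = Pv (k + 1) - Pv (k + 2) := rfl
  have h2 : Pv (k + 2) = Pv k - Pv (k + 1) := rfl
  rw [h4, h3, h2]
  abel

theorem Pv_det (k : ℕ) : det (Pv (k + 1)) (Pv k) = 1 ∨ det (Pv (k + 1)) (Pv k) = -1 := by
  induction k with
  | zero => left; rfl
  | succ k ih =>
    have h2 : Pv (k + 1 + 1) = Pv k - Pv (k + 1) := rfl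
    have e : det (Pv (k + 1 + 1)) (Pv (k + 1)) = - det (Pv (k + 1)) (Pv k) := by
      rw [h2]
      simp only [det, Prod.fst_sub, Prod.snd_sub]
      ring
    rw [e]
    rcases ih with h | h
    · right; rw [h]
    · left; rw [h]; rfl

/-- The vectors `Pv k` are nonzero. -/
theorem Pv_ne (k : ℕ) : Pv k ≠ 0 := by
  intro h
  have := Pv_det k
  rw [h] at this
  simp [det] at this

private theorem Ari_one_le (z : Fin 3 → ℤ) (hz : z ≠ 0) : 1 ≤ ‖toR z‖ := by
  obtain ⟨i, hi⟩ : ∃ i, z i ≠ 0 := by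
    by_contra h
    push Not at h
    exact hz (funext h)
  have h1 : ‖toR z i‖ ≤ ‖toR z‖ := norm_le_pi_norm _ i
  refine le_trans ?_ h1
  simp only [toR, Real.norm_eq_abs]
  have : (1 : ℤ) ≤ |z i| := Int.one_le_abs hi
  exact_mod_cast this

/-- The final inequality: an injective homomorphism of `ℤ³` cannot map all the vectors `Pv k`,
`k ≤ n + 1`, to short vectors. -/
theorem short_vectors (P : (Fin 3 → ℤ) →+ (Fin 3 → ℤ)) (hP : Function.Injective P) (n : ℕ)
    (E : ℝ) (hE : ∀ k ≤ n + 1, ‖toR (P ![(Pv k).1, (Pv k).2, 0])‖ ≤ E) :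
    (2 : ℝ) ^ n ≤ (2 * E) ^ 4 := by
  set z : ℕ → (Fin 3 → ℤ) := fun k => P ![(Pv k).1, (Pv k).2, 0] with hz
  have hzne : ∀ k, z k ≠ 0 := by
    intro k h
    have h0 : (![(Pv k).1, (Pv k).2, 0] : Fin 3 → ℤ) = 0 := by
      apply hP
      rw [map_zero]
      exact h
    apply Pv_ne k
    have h1 := congrFun h0 0
    have h2 := congrFun h0 1
    simp at h1 h2
    exact Prod.ext h1 h2
  have hrec : ∀ k, z (k + 4) + z k = 3 • z (k + 2) := by
    intro k
    simp only [hz]
    rw [← map_add, ← map_nsmul]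
    congr 1
    have h := Pv_rec k
    have h1 := congrArg Prod.fst h
    have h2 := congrArg Prod.snd h
    simp only [Prod.fst_add, Prod.snd_add, Prod.smul_fst, Prod.smul_snd] at h1 h2
    funext i
    fin_cases i
    · simpa using h1
    · simpa using h2
    · simp
  have hrecR : ∀ k, 3 * ‖toR (z (k + 2))‖ ≤ ‖toR (z (k + 4))‖ + ‖toR (z k)‖ := by
    intro k
    have e : toR (z (k + 4)) + toR (z k) = (3 : ℝ) • toR (z (k + 2)) := by
      funext i
      have := congrFun (hrec k) i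
      simp only [Pi.add_apply, Pi.smul_apply, nsmul_eq_mul] at this
      simp only [toR, Pi.add_apply, Pi.smul_apply, smul_eq_mul]
      exact_mod_cast this
    calc 3 * ‖toR (z (k + 2))‖ = ‖(3 : ℝ) • toR (z (k + 2))‖ := by
          rw [norm_smul]; norm_num
      _ = ‖toR (z (k + 4)) + toR (z k)‖ := by rw [e]
      _ ≤ _ := norm_add_le _ _
  have hg := growth (fun j => ‖toR (z (2 * j))‖) ((n + 1) / 2)
    (fun j _ => Ari_one_le _ (hzne _))
    (fun j _ => hrecR (2 * j))
  have hE0 : ‖toR (z 0)‖ ≤ E := hE 0 (by omega)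
  have hEJ : ‖toR (z (2 * ((n + 1) / 2)))‖ ≤ E := hE _ (by omega)
  have hE1 : 1 ≤ E := le_trans (Ari_one_le _ (hzne 0)) hE0
  simp only [Nat.mul_zero] at hg
  have hb : (2 : ℝ) ^ ((n + 1) / 2) ≤ 4 * (E * E) := by
    refine le_trans hg ?_
    have : ‖toR (z 0)‖ * ‖toR (z (2 * ((n + 1) / 2)))‖ ≤ E * E :=
      mul_le_mul hE0 hEJ (norm_nonneg _) (by linarith)
    linarith
  calc (2 : ℝ) ^ n ≤ 2 ^ (2 * ((n + 1) / 2)) := by
        apply pow_le_pow_right₀ (by norm_num)
        omega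
    _ = (2 ^ ((n + 1) / 2)) ^ 2 := by rw [mul_comm, pow_mul]
    _ ≤ (4 * (E * E)) ^ 2 := by
        apply pow_le_pow_left₀ (by positivity) hb
    _ = (2 * E) ^ 4 := by ring

end MRX
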