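import Pool.Agent.MRX.Defs

set_option autoImplicit false

open scoped Classical

noncomputable section

namespace MRX

/-!
# Module Chain (1)

If an interval is covered by finitely many closed sets, on each of which the displacement of `c`
is at most `D`, then the total displacement is at most (number of sets) times `D`.

Route: induction on `S`; `a ∈ C i` for some `i`; let `τ = sSup (C i ∩ Icc a b) ∈ C i`; then
`dist (c a) (c τ) ≤ D` and `Ioc τ b` (and so, by closedness, `Icc τ b` if `τ < b`) is covered by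
the other sets. No continuity of `c` is needed.
-/

theorem chain {X ι : Type*} [PseudoMetricSpace X] (S : Finset ι) (C : ι → Set ℝ)
    (hC : ∀ i ∈ S, IsClosed (C i)) (c : ℝ → X) (D : ℝ) (hD0 : 0 ≤ D) (a b : ℝ) (hab : a ≤ b)
    (hcov : ∀ t, a ≤ t → t ≤ b → ∃ i ∈ S, t ∈ C i)
    (hD : ∀ i ∈ S, ∀ t ∈ C i, ∀ t' ∈ C i, a ≤ t → t ≤ b → a ≤ t' → t' ≤ b →
      dist (c t) (c t') ≤ D) :
    dist (c a) (c b) ≤ S.card * D := by
  induction S using Finset.strongInduction generalizing a with
  | H S ih =>
    obtain ⟨i, hi, hai⟩ := hcov a le_rfl hab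
    have hKc : IsCompact (C i ∩ Set.Icc a b) := isCompact_Icc.inter_left (hC i hi)
    have hKne : (C i ∩ Set.Icc a b).Nonempty := ⟨a, hai, le_rfl, hab⟩
    have hτ : sSup (C i ∩ Set.Icc a b) ∈ C i ∩ Set.Icc a b := hKc.sSup_mem hKne
    have hub : ∀ t ∈ C i ∩ Set.Icc a b, t ≤ sSup (C i ∩ Set.Icc a b) :=
      fun t ht => le_csSup hKc.bddAbove ht
    generalize sSup (C i ∩ Set.Icc a b) = τ at hτ hub
    have h1 : dist (c a) (c τ) ≤ D := hD i hi a hai τ hτ.1 le_rfl hab hτ.2.1 hτ.2.2
    have hcard : (S.erase i).card + 1 = S.card := Finset.card_erase_add_one hi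
    have hcard' : ((S.erase i).card : ℝ) + 1 = S.card := by exact_mod_cast hcard
    rcases eq_or_lt_of_le hτ.2.2 with h | h
    · rw [h] at h1
      have : (0 : ℝ) ≤ (S.erase i).card * D := by positivity
      nlinarith
    · have hU : IsClosed (⋃ j ∈ S.erase i, C j) :=
        isClosed_biUnion_finset (fun j hj => hC j (Finset.mem_of_mem_erase hj))
      have hsub : Set.Ioc τ b ⊆ ⋃ j ∈ S.erase i, C j := by
        intro t ht
        obtain ⟨j, hj, htj⟩ := hcov t (hτ.2.1.trans ht.1.le) ht.2
        have hne : j ≠ i := by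
          rintro rfl
          exact absurd (hub t ⟨htj, hτ.2.1.trans ht.1.le, ht.2⟩) (not_le.2 ht.1)
        simp only [Set.mem_iUnion]
        exact ⟨j, Finset.mem_erase.2 ⟨hne, hj⟩, htj⟩
      have hsub' : Set.Icc τ b ⊆ ⋃ j ∈ S.erase i, C j := by
        rw [← closure_Ioc h.ne]
        exact hU.closure_subset_iff.2 hsub
      have h2 := ih (S.erase i) (Finset.erase_ssubset hi)
        (fun j hj => hC j (Finset.mem_of_mem_erase hj)) τ hτ.2.2
        (fun t h3 h4 => by
          have := hsub' ⟨h3, h4⟩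
          simp only [Set.mem_iUnion] at this
          obtain ⟨j, hj, htj⟩ := this
          exact ⟨j, hj, htj⟩)
        (fun j hj t ht t' ht' h3 h4 h5 h6 =>
          hD j (Finset.mem_of_mem_erase hj) t ht t' ht' (hτ.2.1.trans h3) h4
            (hτ.2.1.trans h5) h6)
      have h3 := dist_triangle (c a) (c τ) (c b)
      nlinarith

end MRX
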