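import Pool.Agent.MRX.Lift

set_option autoImplicit false

open scoped Classical

noncomputable section

namespace MRX

/-!
# Module Disp (3)

For a triangulation `β : |L| → T³` there is `D` such that every lift to `ℝ³` of `β` along a
straight segment in a simplex of `L` has displacement at most `D`.

Route: `L.space` is compact and `β` is uniformly continuous, so there is `δ > 0` with
`dist (β u) (β v) < 1/4` for `dist u v < δ`.  Cut the segment (length at most the diameter of
`L.space`, which is bounded) into `N` pieces of length `< δ` (`N` depends only on `L, β`); on each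
piece every coordinate of the lift moves by less than `1/4` (it stays within `1/4` of the integers
translates of its start; continuity).  So `D = N`.
-/

private theorem Disp_step (g : ℝ → ℝ) (a b : ℝ) (hab : a ≤ b) (hg : ContinuousOn g (Set.Icc a b))
    (h : ∀ t ∈ Set.Icc a b, ‖((g t - g a : ℝ) : UnitAddCircle)‖ < 1 / 4) : |g b - g a| < 1 / 4 := by
  by_contra hc
  push Not at hc
  have hcont : ContinuousOn (fun t => |g t - g a|) (Set.Icc a b) :=
    continuous_abs.comp_continuousOn (hg.sub continuousOn_const)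
  have h1 := intermediate_value_Icc hab hcont
  have h2 : (1 / 4 : ℝ) ∈ Set.Icc (|g a - g a|) (|g b - g a|) := by
    refine ⟨?_, hc⟩
    rw [sub_self, abs_zero]
    norm_num
  obtain ⟨t, ht, ht1⟩ := h1 h2
  have h3 := h t ht
  have ht2 : |g t - g a| = 1 / 4 := ht1
  have h4 : ‖((g t - g a : ℝ) : UnitAddCircle)‖ = |g t - g a| := by
    rw [AddCircle.norm_coe_eq_abs_iff (1 : ℝ) one_ne_zero, ht2]
    norm_num
  rw [h4, ht2] at h3
  exact lt_irrefl _ h3

private theorem Disp_compact {ι : Type*} [Fintype ι] (L : Geometry.SimplicialComplex ℝ (ι → ℝ))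
    (hL : L.faces.Finite) : IsCompact L.space := by
  rw [Geometry.SimplicialComplex.space]
  exact hL.isCompact_biUnion fun s _ => (Finset.finite_toSet s).isCompact_convexHull (𝕜 := ℝ)

/-- Displacement of lifts along straight segments. -/
theorem disp {ι : Type*} [Fintype ι] (L : Geometry.SimplicialComplex ℝ (ι → ℝ))
    (hL : L.faces.Finite) (β : L.space ≃ₜ T3) :
    ∃ D : ℝ, 0 ≤ D ∧ ∀ s ∈ L.faces, ∀ x ∈ convexHull ℝ (s : Set (ι → ℝ)),
      ∀ y ∈ convexHull ℝ (s : Set (ι → ℝ)), ∀ η : ℝ → (Fin 3 → ℝ),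
      ContinuousOn η (Set.Icc 0 1) →
      (∀ t : ℝ, 0 ≤ t → t ≤ 1 → ∀ z : L.space, z.1 = (1 - t) • x + t • y → pr (η t) = β z) →
      ‖η 1 - η 0‖ ≤ D := by
  have hK := Disp_compact L hL
  have : CompactSpace L.space := isCompact_iff_compactSpace.1 hK
  have hU : UniformContinuous β := CompactSpace.uniformContinuous_of_continuous β.continuous
  obtain ⟨δ, hδ, hδ1⟩ := Metric.uniformContinuous_iff.1 hU (1 / 4) (by norm_num)
  obtain ⟨R, hR⟩ := Metric.isBounded_iff.1 hK.isBounded
  obtain ⟨N, hN⟩ := exists_nat_gt (max R 0 / δ)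
  have hN0 : (0 : ℝ) < N := lt_of_le_of_lt (div_nonneg (le_max_right _ _) hδ.le) hN
  refine ⟨N, hN0.le, ?_⟩
  intro s hs x hx y hy η hη hz
  have hsub := L.convexHull_subset_space hs
  have hmem : ∀ t : ℝ, 0 ≤ t → t ≤ 1 → (1 - t) • x + t • y ∈ L.space := fun t h0 h1 =>
    hsub ((convex_convexHull ℝ _) hx hy (by linarith) h0 (by ring))
  have hxy : ‖x - y‖ ≤ max R 0 := by
    rw [← dist_eq_norm]
    exact (hR (hsub hx) (hsub hy)).trans (le_max_left _ _)
  -- one piece
  have hpiece : ∀ k : ℕ, k < N → ‖η ((k + 1 : ℝ) / N) - η (k / N)‖ ≤ 1 / 4 := by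
    intro k hk
    have hk' : (k : ℝ) + 1 ≤ N := by exact_mod_cast hk
    have ha0 : 0 ≤ (k : ℝ) / N := by positivity
    have hb1 : ((k : ℝ) + 1) / N ≤ 1 := by rw [div_le_one hN0]; exact hk'
    have hab : (k : ℝ) / N ≤ ((k : ℝ) + 1) / N := by
      apply div_le_div_of_nonneg_right _ hN0.le
      linarith
    have hss : Set.Icc ((k : ℝ) / N) (((k : ℝ) + 1) / N) ⊆ Set.Icc 0 1 := Set.Icc_subset_Icc ha0 hb1
    rw [pi_norm_le_iff_of_nonneg (by norm_num)]
    intro i
    rw [Pi.sub_apply, Real.norm_eq_abs]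
    refine (Disp_step (fun t => η t i) _ _ hab ?_ ?_).le
    · exact (continuous_apply i).comp_continuousOn (hη.mono hss)
    · intro t ht
      have ht01 := hss ht
      have ha01 : (0 : ℝ) ≤ (k : ℝ) / N ∧ (k : ℝ) / N ≤ 1 := ⟨ha0, hab.trans hb1⟩
      have e1 := hz t ht01.1 ht01.2 ⟨_, hmem t ht01.1 ht01.2⟩ rfl
      have e2 := hz _ ha01.1 ha01.2 ⟨_, hmem _ ha01.1 ha01.2⟩ rfl
      have hd : dist (⟨(1 - t) • x + t • y, hmem t ht01.1 ht01.2⟩ : L.space)
          ⟨(1 - (k : ℝ) / N) • x + ((k : ℝ) / N) • y, hmem _ ha01.1 ha01.2⟩ < δ := by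
        rw [Subtype.dist_eq, dist_eq_norm]
        have e3 : (1 - t) • x + t • y - ((1 - (k : ℝ) / N) • x + ((k : ℝ) / N) • y) =
            ((k : ℝ) / N - t) • (x - y) := by
          funext j
          simp only [Pi.sub_apply, Pi.add_apply, Pi.smul_apply, smul_eq_mul]
          ring
        rw [e3, norm_smul, Real.norm_eq_abs]
        have e4 : |(k : ℝ) / N - t| ≤ 1 / N := by
          rw [abs_le]
          have h1 := ht.1
          have h2 := ht.2
          have h3 : ((k : ℝ) + 1) / N = k / N + 1 / N := by ring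
          rw [h3] at h2
          constructor
          · linarith
          · have : (0 : ℝ) ≤ 1 / N := by positivity
            linarith
        calc |(k : ℝ) / N - t| * ‖x - y‖ ≤ (1 / N) * max R 0 :=
              mul_le_mul e4 hxy (norm_nonneg _) (by positivity)
          _ < δ := by
              rw [one_div, inv_mul_eq_div, div_lt_iff₀ hN0]
              rw [div_lt_iff₀ hδ] at hN
              linarith
      have h5 := hδ1 hd
      rw [← e1, ← e2] at h5
      have h6 := (dist_le_pi_dist (pr (η t)) (pr (η ((k : ℝ) / N))) i).trans_lt h5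
      rw [dist_eq_norm] at h6
      have h7 : pr (η t) i - pr (η ((k : ℝ) / N)) i = ((η t i - η ((k : ℝ) / N) i : ℝ) : UnitAddCircle) := by
        rw [AddCircle.coe_sub]
        rfl
      rw [h7] at h6
      exact h6
  have hind : ∀ k : ℕ, k ≤ N → ‖η ((k : ℝ) / N) - η 0‖ ≤ k * (1 / 4) := by
    intro k
    induction k with
    | zero =>
      intro _
      simp
    | succ k ih =>
      intro hk
      have h1 := ih (by omega)
      have h2 := hpiece k (by omega)
      have h3 : η (((k + 1 : ℕ) : ℝ) / N) - η 0 =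
          (η (((k : ℝ) + 1) / N) - η (k / N)) + (η ((k : ℝ) / N) - η 0) := by
        push_cast
        abel
      rw [h3]
      refine (norm_add_le _ _).trans ?_
      push_cast
      linarith
  have h8 := hind N le_rfl
  rw [div_self hN0.ne'] at h8
  linarith

end MRX
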