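import Pool.Agent.MRX.Defs

set_option autoImplicit false

open scoped Classical

noncomputable section

namespace MRX

/-!
# Module Lift (4)

A homeomorphism of the 3-torus lifts to `ℝ³`, and the lift is equivariant over an injective
homomorphism of `ℤ³`.

Hints: covering space theory is in `Mathlib/Topology/Homotopy/Lifting.lean`
(`IsCoveringMap.existsUnique_continuousMap_lifts` or similar, for simply connected locally path
connected domains) and `AddCircle.isCoveringMap_coe`; one can lift the three coordinates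
`Fin 3 → ℝ → UnitAddCircle` separately.
Equivariance: for fixed `z`, `x ↦ F (x + toR z) - F x` is continuous with values in the lattice
`{toR z'}`, so constant (connectedness of `ℝ³`).  Injectivity of `P`: a lift `G` of the inverse
homeomorphism satisfies `G (F x) - x` = constant integer vector, and `G (y + toR z) = G y + toR (Q z)`,
so `Q (P z) = z`.
-/

/-- `pr` is continuous. -/
theorem continuous_pr : Continuous pr :=
  continuous_pi fun i => (AddCircle.continuous_mk' (1 : ℝ)).comp (continuous_apply i)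

private theorem Lift_coe_eq (a b : ℝ) : (a : UnitAddCircle) = (b : UnitAddCircle) ↔ ∃ n : ℤ, b = a + n := by
  constructor
  · intro h
    have h1 : -a + b ∈ AddSubgroup.zmultiples (1 : ℝ) := QuotientAddGroup.eq.1 h
    obtain ⟨n, hn⟩ := AddSubgroup.mem_zmultiples_iff.1 h1
    refine ⟨n, ?_⟩
    rw [zsmul_eq_mul, mul_one] at hn
    linarith
  · rintro ⟨n, rfl⟩
    apply QuotientAddGroup.eq.2
    apply AddSubgroup.mem_zmultiples_iff.2
    refine ⟨n, ?_⟩
    rw [zsmul_eq_mul, mul_one]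
    ring

/-- The fibres of `pr`. -/
theorem pr_eq_iff (x y : Fin 3 → ℝ) : pr x = pr y ↔ ∃ z : Fin 3 → ℤ, y = x + toR z := by
  constructor
  · intro h
    have h1 : ∀ i, ∃ n : ℤ, y i = x i + n := fun i => (Lift_coe_eq (x i) (y i)).1 (congrFun h i)
    choose z hz using h1
    exact ⟨z, funext fun i => hz i⟩
  · rintro ⟨z, rfl⟩
    funext i
    exact (Lift_coe_eq (x i) _).2 ⟨z i, rfl⟩

theorem pr_surjective : Function.Surjective pr := by
  intro y
  have h : ∀ i, ∃ a : ℝ, (a : UnitAddCircle) = y i := fun i => QuotientAddGroup.mk_surjective (y i)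
  choose x hx using h
  exact ⟨x, funext fun i => hx i⟩

private theorem Lift_toR_injective : Function.Injective toR := by
  intro a b h
  funext i
  have := congrFun h i
  simpa [toR] using this

private theorem Lift_toR_add (a b : Fin 3 → ℤ) : toR (a + b) = toR a + toR b := by
  funext i
  simp [toR]

private theorem Lift_toR_neg (a : Fin 3 → ℤ) : toR (-a) = -toR a := by
  funext i
  simp [toR]

private theorem Lift_discrete : IsDiscrete (Set.range toR) := by
  rw [isDiscrete_iff_discreteTopology]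
  have emb : Topology.IsEmbedding toR := by
    have := Topology.IsEmbedding.piMap (fun _ : Fin 3 => Int.isClosedEmbedding_coe_real.isEmbedding)
    exact this
  exact emb.toHomeomorph.symm.isEmbedding.discreteTopology

/-- Two continuous lifts along an interval differ by a constant. -/
theorem lift_unique (η ζ : ℝ → (Fin 3 → ℝ)) (hη : ContinuousOn η (Set.Icc 0 1))
    (hζ : ContinuousOn ζ (Set.Icc 0 1)) (h : ∀ t ∈ Set.Icc (0 : ℝ) 1, pr (η t) = pr (ζ t)) :
    η 1 - η 0 = ζ 1 - ζ 0 := by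
  have h1 : (fun t => η t - ζ t) 1 = (fun t => η t - ζ t) 0 := by
    apply (isPreconnected_Icc (a := (0 : ℝ)) (b := 1)).constant_of_mapsTo Lift_discrete (hη.sub hζ)
    · intro t ht
      obtain ⟨z, hz⟩ := (pr_eq_iff _ _).1 (h t ht)
      refine ⟨-z, ?_⟩
      rw [Lift_toR_neg]
      show -toR z = η t - ζ t
      rw [hz]
      abel
    · exact ⟨zero_le_one, le_rfl⟩
    · exact ⟨le_rfl, zero_le_one⟩
  have h2 : η 1 - ζ 1 = η 0 - ζ 0 := h1
  have h3 : η 1 = η 0 - ζ 0 + ζ 1 := by
    rw [← h2]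
    abel
  rw [h3]
  abel

private theorem Lift_const (g : (Fin 3 → ℝ) → (Fin 3 → ℝ)) (hg : Continuous g)
    (h : ∀ x, ∃ z, toR z = g x) (x y : Fin 3 → ℝ) : g x = g y :=
  (isPreconnected_univ (α := Fin 3 → ℝ)).constant_of_mapsTo Lift_discrete hg.continuousOn
    (fun x _ => h x) (Set.mem_univ x) (Set.mem_univ y)

private theorem Lift_coord (f : C(Fin 3 → ℝ, UnitAddCircle)) :
    ∃ F : C(Fin 3 → ℝ, ℝ), ∀ x, ((F x : ℝ) : UnitAddCircle) = f x := by
  obtain ⟨e, he⟩ := QuotientAddGroup.mk_surjective (f 0)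
  obtain ⟨F, ⟨_, h⟩, _⟩ :=
    (AddCircle.isCoveringMap_coe (1 : ℝ)).existsUnique_continuousMap_lifts f 0 e he
  exact ⟨F, fun x => congrFun h x⟩

private theorem Lift_map (Θ : T3 → T3) (hΘ : Continuous Θ) :
    ∃ F : (Fin 3 → ℝ) → (Fin 3 → ℝ), Continuous F ∧ ∀ x, pr (F x) = Θ (pr x) := by
  have h : ∀ i : Fin 3, ∃ F : C(Fin 3 → ℝ, ℝ), ∀ x, ((F x : ℝ) : UnitAddCircle) = Θ (pr x) i :=
    fun i => Lift_coord ⟨fun x => Θ (pr x) i, (continuous_apply i).comp (hΘ.comp continuous_pr)⟩
  choose F hF using h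
  exact ⟨fun x i => F i x, continuous_pi fun i => (F i).continuous, fun x => funext fun i => hF i x⟩

private theorem Lift_equiv (Θ : T3 → T3) (F : (Fin 3 → ℝ) → (Fin 3 → ℝ)) (hF : Continuous F)
    (h : ∀ x, pr (F x) = Θ (pr x)) :
    ∃ P : (Fin 3 → ℤ) →+ (Fin 3 → ℤ), ∀ x z, F (x + toR z) = F x + toR (P z) := by
  have h1 : ∀ z : Fin 3 → ℤ, ∃ z' : Fin 3 → ℤ, ∀ x, F (x + toR z) = F x + toR z' := by
    intro z
    have h2 : ∀ x, ∃ w, toR w = F (x + toR z) - F x := by
      intro x
      have h3 : pr (F x) = pr (F (x + toR z)) := by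
        rw [h, h, (pr_eq_iff x (x + toR z)).2 ⟨z, rfl⟩]
      obtain ⟨w, hw⟩ := (pr_eq_iff _ _).1 h3
      exact ⟨w, by rw [hw]; abel⟩
    obtain ⟨w, hw⟩ := h2 0
    refine ⟨w, fun x => ?_⟩
    have h4 := Lift_const (fun x => F (x + toR z) - F x)
      ((hF.comp (continuous_id.add continuous_const)).sub hF) h2 x 0
    have h5 : F (x + toR z) - F x = toR w := by
      rw [hw]
      exact h4
    rw [← h5]
    abel
  choose P hP using h1
  refine ⟨AddMonoidHom.mk' P ?_, fun x z => hP z x⟩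
  intro a b
  apply Lift_toR_injective
  have h6 := hP (a + b) 0
  have h7 := hP b (0 + toR a)
  have h8 := hP a 0
  rw [Lift_toR_add, ← add_assoc, h7, h8, add_assoc] at h6
  rw [Lift_toR_add]
  exact (add_left_cancel h6).symm

/-- Lifting of homeomorphisms. -/
theorem lift_homeo (Θ : T3 ≃ₜ T3) :
    ∃ (F : (Fin 3 → ℝ) → (Fin 3 → ℝ)) (P : (Fin 3 → ℤ) →+ (Fin 3 → ℤ)),
      Continuous F ∧ (∀ x, pr (F x) = Θ (pr x)) ∧
      (∀ x z, F (x + toR z) = F x + toR (P z)) ∧ Function.Injective P := by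
  obtain ⟨F, hF, hF1⟩ := Lift_map Θ Θ.continuous
  obtain ⟨G, hG, hG1⟩ := Lift_map Θ.symm Θ.symm.continuous
  obtain ⟨P, hP⟩ := Lift_equiv Θ F hF hF1
  obtain ⟨Q, hQ⟩ := Lift_equiv Θ.symm G hG hG1
  refine ⟨F, P, hF, hF1, hP, ?_⟩
  have h1 : ∀ x, ∃ z, toR z = G (F x) - x := by
    intro x
    have h2 : pr x = pr (G (F x)) := by
      rw [hG1, hF1, Homeomorph.symm_apply_apply]
    obtain ⟨z, hz⟩ := (pr_eq_iff _ _).1 h2
    exact ⟨z, by rw [hz]; abel⟩
  have h3 : ∀ z, Q (P z) = z := by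
    intro z
    have h4 := Lift_const (fun x => G (F x) - x) ((hG.comp hF).sub continuous_id) h1 (0 + toR z) 0
    have h5 : G (F (0 + toR z)) - (0 + toR z) = G (F 0) - 0 := h4
    rw [hP, hQ] at h5
    apply Lift_toR_injective
    have h6 : G (F 0) + toR (Q (P z)) = G (F 0) + toR z := by
      have h7 := sub_eq_iff_eq_add.1 h5
      rw [h7]
      abel
    exact add_left_cancel h6
  intro a b hab
  rw [← h3 a, hab, h3 b]

end MRX
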