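import Pool.Agent.MRX.Defs

set_option autoImplicit false

open scoped Classical

noncomputable section

namespace MRX

/-!
# Module Pure (4)

If every face of the finite complex `K` lies in a face with four vertices, then the underlying
space of a subdivision `R` of `K` is covered by the tetrahedra of `R`.

Route: let `C` be the union of the convex hulls of the 4-vertex faces of `R` (closed).  If
`x ∈ R.space \ C`, then `x ∈ convexHull s` with `s ∈ K.faces`, `s.card = 4`.  Let
`A : (Fin 3 → ℝ) → (κ → ℝ)` be the (injective, continuous) affine parametrisation of the affine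
span of `s`, and `Δ = A⁻¹(convexHull s)` the standard simplex, which is the closure of its
interior.  Some nonempty open subset of `Δ` is mapped by `A` away from `C`, so it is covered by the
finitely many sets `A⁻¹(affineSpan τ)`, `τ ∈ R.faces`, `τ.card ≤ 3` (all faces of `R` have at most
4 vertices, as they are affinely independent and lie in the convex hull of a 4-vertex face of `K`);
each of these is a proper affine subspace of `Fin 3 → ℝ` (dimension at most 2) and so has measure
zero (`MeasureTheory.Measure.addHaar_affineSubspace`), contradiction.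
(Alternative to measures: Baire or `Set.Finite` unions of proper affine subspaces.)
-/

section PureAux

variable {κ : Type*}

/-- The affine parametrisation of the span of four points. -/
private def pureA (v : Fin 4 → (κ → ℝ)) : (Fin 3 → ℝ) →ᵃ[ℝ] (κ → ℝ) :=
  (Fintype.linearCombination ℝ (fun i : Fin 3 => v i.succ - v 0)).toAffineMap +
    AffineMap.const ℝ _ (v 0)

private theorem pureA_apply (v : Fin 4 → (κ → ℝ)) (y : Fin 3 → ℝ) :
    pureA v y = (1 - ∑ i, y i) • v 0 + ∑ i : Fin 3, y i • v i.succ := by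
  simp only [pureA, AffineMap.coe_add, Pi.add_apply, LinearMap.coe_toAffineMap,
    AffineMap.const_apply, Fintype.linearCombination_apply, smul_sub, Finset.sum_sub_distrib,
    sub_smul, one_smul, Finset.sum_smul]
  abel

private theorem pureA_mem (v : Fin 4 → (κ → ℝ)) (s : Set (κ → ℝ)) (hv : ∀ i, v i ∈ s)
    (y : Fin 3 → ℝ) (h0 : ∀ i, 0 ≤ y i)
    (h1 : ∑ i, y i ≤ 1) : pureA v y ∈ convexHull ℝ s := by
  rw [pureA_apply]
  have hc := convex_convexHull ℝ s
  have := hc.sum_mem (t := (Finset.univ : Finset (Fin 4)))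
    (w := Fin.cons (1 - ∑ i, y i) y) (z := v)
    (by
      intro i _
      refine Fin.cases ?_ (fun j => ?_) i
      · simpa using h1
      · simpa using h0 j)
    (by rw [Fin.sum_univ_succ]; simp)
    (fun i _ => subset_convexHull ℝ _ (hv i))
  rw [Fin.sum_univ_succ] at this
  simpa using this

private theorem pureA_exists (s : Finset (κ → ℝ)) (e : Fin 4 ≃ s) (x : κ → ℝ)
    (hx : x ∈ convexHull ℝ (s : Set (κ → ℝ))) :
    ∃ y : Fin 3 → ℝ, (∀ i, 0 ≤ y i) ∧ ∑ i, y i ≤ 1 ∧
      pureA (fun i => (e i : κ → ℝ)) y = x := by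
  rw [Finset.mem_convexHull'] at hx
  obtain ⟨w, h0, h1, h2⟩ := hx
  have key1 : ∑ i : Fin 4, w (e i : κ → ℝ) = 1 := by
    rw [← h1, ← Finset.sum_coe_sort s, ← Equiv.sum_comp e]
  have key2 : ∑ i : Fin 4, w (e i : κ → ℝ) • (e i : κ → ℝ) = x := by
    rw [← h2, ← Finset.sum_coe_sort s (fun y => w y • y), ← Equiv.sum_comp e]
  rw [Fin.sum_univ_succ] at key1 key2
  refine ⟨fun i => w (e i.succ : κ → ℝ), fun i => h0 _ (e i.succ).2, ?_, ?_⟩
  · have := h0 _ (e 0).2
    linarith
  · rw [pureA_apply, ← key2]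
    congr 2
    linarith

end PureAux

/-- The space of a subdivision of a pure 3-dimensional complex is the union of its
tetrahedra. -/
theorem pure_cover {κ : Type*} [Fintype κ]
    (K R : Geometry.SimplicialComplex ℝ (κ → ℝ)) (hK : K.faces.Finite)
    (hpure : ∀ s ∈ K.faces, ∃ t ∈ K.faces, s ⊆ t ∧ t.card = 4)
    (hR : IsSubdivision R K) :
    ∀ x ∈ R.space, ∃ s ∈ R.faces, s.card = 4 ∧ x ∈ convexHull ℝ (s : Set (κ → ℝ)) := by
  intro x hx
  by_contra hcon
  push Not at hcon
  obtain ⟨hRf, hsp, hsub⟩ := hR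
  -- all faces of `R` have at most four vertices
  have hcard : ∀ τ ∈ R.faces, τ.card ≤ 4 := by
    intro τ hτ
    obtain ⟨t, ht, hτt⟩ := hsub τ hτ
    obtain ⟨t', ht', htt', hc⟩ := hpure t ht
    rw [← hc]
    apply (R.indep hτ).card_le_card_of_subset_affineSpan
    calc (τ : Set (κ → ℝ)) ⊆ convexHull ℝ (τ : Set (κ → ℝ)) := subset_convexHull ℝ _
      _ ⊆ convexHull ℝ (t : Set (κ → ℝ)) := hτt
      _ ⊆ convexHull ℝ (t' : Set (κ → ℝ)) := convexHull_mono (by exact_mod_cast htt')
      _ ⊆ affineSpan ℝ (t' : Set (κ → ℝ)) := convexHull_subset_affineSpan _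
  -- the closed union of the tetrahedra of `R`
  have hCfin : {s ∈ R.faces | s.card = 4}.Finite := hRf.subset (fun s hs => hs.1)
  have hC : IsClosed (⋃ s ∈ {s ∈ R.faces | s.card = 4}, convexHull ℝ (s : Set (κ → ℝ))) :=
    hCfin.isClosed_biUnion fun s _ => s.finite_toSet.isClosed_convexHull ℝ
  have hxC : x ∉ ⋃ s ∈ {s ∈ R.faces | s.card = 4}, convexHull ℝ (s : Set (κ → ℝ)) := by
    simp only [Set.mem_iUnion, not_exists]
    intro s hs
    exact hcon s hs.1 hs.2
  have hCmem : ∀ z ∉ ⋃ s ∈ {s ∈ R.faces | s.card = 4}, convexHull ℝ (s : Set (κ → ℝ)),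
      ∀ s ∈ R.faces, s.card = 4 → z ∉ convexHull ℝ (s : Set (κ → ℝ)) := by
    intro z hz s hs hs4 hzs
    apply hz
    simp only [Set.mem_iUnion]
    exact ⟨s, ⟨hs, hs4⟩, hzs⟩
  generalize (⋃ s ∈ {s ∈ R.faces | s.card = 4}, convexHull ℝ (s : Set (κ → ℝ))) = C
    at hC hxC hCmem
  -- a tetrahedron of `K` containing `x`
  obtain ⟨s0, hs0, hxs0⟩ := (Geometry.SimplicialComplex.mem_space_iff).1 (hsp ▸ hx)
  obtain ⟨s, hs, hs0s, hs4⟩ := hpure s0 hs0
  have hxs : x ∈ convexHull ℝ (s : Set (κ → ℝ)) :=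
    convexHull_mono (by exact_mod_cast hs0s) hxs0
  let e : Fin 4 ≃ s := (s.equivFinOfCardEq hs4).symm
  obtain ⟨y0, hy0, hy1, hyx⟩ := pureA_exists s e x hxs
  set A := pureA (fun i => (e i : κ → ℝ)) with hA
  have hAc : Continuous A := A.continuous_of_finiteDimensional
  have hAmem : ∀ y : Fin 3 → ℝ, (∀ i, 0 ≤ y i) → ∑ i, y i ≤ 1 →
      A y ∈ convexHull ℝ (s : Set (κ → ℝ)) := fun y h0 h1 =>
    pureA_mem _ _ (fun i => (e i).2) y h0 h1
  -- the open simplex
  let U : Set (Fin 3 → ℝ) := {y | (∀ i, 0 < y i) ∧ ∑ i, y i < 1}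
  have hUo : IsOpen U := by
    have h1 : IsOpen {y : Fin 3 → ℝ | ∀ i, 0 < y i} := by
      simp only [Set.ofPred_forall]
      exact isOpen_iInter_of_finite fun i => isOpen_lt continuous_const (continuous_apply i)
    have h2 : IsOpen {y : Fin 3 → ℝ | ∑ i, y i < 1} :=
      isOpen_lt (continuous_finsetSum _ fun i _ => continuous_apply i) continuous_const
    exact h1.inter h2
  have hVo : IsOpen (A ⁻¹' Cᶜ) := hC.isOpen_compl.preimage hAc
  have hne : (A ⁻¹' Cᶜ ∩ U).Nonempty := by
    have hy0V : y0 ∈ A ⁻¹' Cᶜ := by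
      show A y0 ∉ C
      rw [hyx]
      exact hxC
    have hcl : y0 ∈ closure U := by
      let g : ℝ → (Fin 3 → ℝ) := fun t => (1 - t) • y0 + t • (fun _ => (1 / 4 : ℝ))
      have hg : Continuous g := by fun_prop
      have hg0 : g 0 = y0 := by simp [g]
      rw [← hg0]
      apply closure_mono (s := g '' Set.Ioo 0 1)
      · rintro _ ⟨t, ht, rfl⟩
        refine ⟨fun i => ?_, ?_⟩
        · have := hy0 i
          simp only [g, Pi.add_apply, Pi.smul_apply, smul_eq_mul]
          nlinarith [ht.1, ht.2, mul_nonneg (sub_nonneg.2 ht.2.le) this]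
        · simp only [g, Pi.add_apply, Pi.smul_apply, smul_eq_mul, Finset.sum_add_distrib,
            ← Finset.mul_sum]
          simp only [Finset.sum_const, Finset.card_univ, Fintype.card_fin, nsmul_eq_mul]
          have := mul_le_mul_of_nonneg_left hy1 (sub_nonneg.2 ht.2.le)
          push_cast
          nlinarith [ht.1, ht.2]
      · apply image_closure_subset_closure_image hg
        refine ⟨0, ?_, rfl⟩
        rw [closure_Ioo (by norm_num)]
        exact ⟨le_rfl, by norm_num⟩
    exact mem_closure_iff.1 hcl _ hVo hy0V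
  -- the open set is covered by proper affine subspaces
  have hcov : A ⁻¹' Cᶜ ∩ U ⊆ ⋃ τ ∈ {τ ∈ R.faces | τ.card ≤ 3},
      (((affineSpan ℝ (τ : Set (κ → ℝ))).comap A : AffineSubspace ℝ (Fin 3 → ℝ)) :
        Set (Fin 3 → ℝ)) := by
    rintro y ⟨hyV, hyU⟩
    have hAy := hAmem y (fun i => (hyU.1 i).le) hyU.2.le
    have : A y ∈ R.space := by
      rw [hsp]
      exact Geometry.SimplicialComplex.convexHull_subset_space hs hAy
    obtain ⟨τ, hτ, hyτ⟩ := (Geometry.SimplicialComplex.mem_space_iff).1 this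
    have h4 : τ.card ≠ 4 := fun h => hCmem _ hyV τ hτ h hyτ
    have h3 : τ.card ≤ 3 := by
      have := hcard τ hτ
      omega
    simp only [Set.mem_iUnion]
    refine ⟨τ, ⟨hτ, h3⟩, ?_⟩
    exact convexHull_subset_affineSpan _ hyτ
  have hnull : MeasureTheory.volume (⋃ τ ∈ {τ ∈ R.faces | τ.card ≤ 3},
      (((affineSpan ℝ (τ : Set (κ → ℝ))).comap A : AffineSubspace ℝ (Fin 3 → ℝ)) :
        Set (Fin 3 → ℝ))) = 0 := by
    have hfin : {τ ∈ R.faces | τ.card ≤ 3}.Finite := hRf.subset (fun s hs => hs.1)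
    rw [MeasureTheory.measure_biUnion_null_iff hfin.countable]
    rintro τ ⟨hτ, hτ3⟩
    apply MeasureTheory.Measure.addHaar_affineSubspace
    intro htop
    have hle : s.card ≤ τ.card := by
      apply (K.indep hs).card_le_card_of_subset_affineSpan
      intro z hz
      obtain ⟨y, -, -, hy⟩ := pureA_exists s e z (subset_convexHull ℝ _ hz)
      have : y ∈ (affineSpan ℝ (τ : Set (κ → ℝ))).comap A := by rw [htop]; trivial
      rw [AffineSubspace.mem_comap] at this
      rw [← hy]
      exact this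
    omega
  have hpos := (hVo.inter hUo).measure_pos MeasureTheory.volume hne
  exact absurd (MeasureTheory.measure_mono_null hcov hnull) hpos.ne'

end MRX
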