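import Pool.Agent.MRX.Iso
import Pool.Agent.MRX.Pure
import Pool.Agent.MRX.Chain
import Pool.Agent.MRX.Lift
import Pool.Agent.MRX.Disp

set_option autoImplicit false

open scoped Classical

noncomputable section

namespace MRX

/-!
# Module Bnd (3)

The main estimate.

Route: `Ψ` from `iso_homeo R R'`, `Θ = β ∘ Ψ ∘ α⁻¹ : T3 ≃ₜ T3` (`R.space = K.space`,
`R'.space = L.space`), `F, P` from `lift_homeo Θ`.  Let `γ t = (1-t)•x + t•y`; the set
`[0,1]` is covered by the closed sets `C τ = {t | γ t ∈ convexHull τ}`, `τ ∈ R.faces`,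
`τ.card = 4` (`pure_cover`), and there are `numTet R` of them.  For `t, t' ∈ C τ`, the segment
from `γ t` to `γ t'` lies in `convexHull τ`, `Ψ` maps it affinely to a segment in
`convexHull τ'`, which lies in a simplex of `L`; `u ↦ F (ξ ((1-u) t + u t'))` is a lift of `β`
along that segment, so `hD` gives `dist (F (ξ t)) (F (ξ t')) ≤ D`.  Then `chain`.
-/

theorem bnd {κ ι : Type*} [Fintype κ] [Fintype ι]
    (K : Geometry.SimplicialComplex ℝ (κ → ℝ)) (hK : K.faces.Finite)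
    (hpure : ∀ s ∈ K.faces, ∃ t ∈ K.faces, s ⊆ t ∧ t.card = 4) (α : K.space ≃ₜ T3)
    (L : Geometry.SimplicialComplex ℝ (ι → ℝ)) (hL : L.faces.Finite) (β : L.space ≃ₜ T3)
    (D : ℝ) (hD0 : 0 ≤ D)
    (hD : ∀ s ∈ L.faces, ∀ x ∈ convexHull ℝ (s : Set (ι → ℝ)),
      ∀ y ∈ convexHull ℝ (s : Set (ι → ℝ)), ∀ η : ℝ → (Fin 3 → ℝ),
      ContinuousOn η (Set.Icc 0 1) →
      (∀ t : ℝ, 0 ≤ t → t ≤ 1 → ∀ z : L.space, z.1 = (1 - t) • x + t • y → pr (η t) = β z) →
      ‖η 1 - η 0‖ ≤ D)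
    (R : Geometry.SimplicialComplex ℝ (κ → ℝ)) (R' : Geometry.SimplicialComplex ℝ (ι → ℝ))
    (hR : IsSubdivision R K) (hR' : IsSubdivision R' L) (hiso : SimplicialIso R R') :
    ∃ (F : (Fin 3 → ℝ) → (Fin 3 → ℝ)) (P : (Fin 3 → ℤ) →+ (Fin 3 → ℤ)),
      (∀ x z, F (x + toR z) = F x + toR (P z)) ∧ Function.Injective P ∧
      ∀ s ∈ K.faces, ∀ x ∈ convexHull ℝ (s : Set (κ → ℝ)),
        ∀ y ∈ convexHull ℝ (s : Set (κ → ℝ)), ∀ ξ : ℝ → (Fin 3 → ℝ),
        ContinuousOn ξ (Set.Icc 0 1) →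
        (∀ t : ℝ, 0 ≤ t → t ≤ 1 → ∀ z : K.space, z.1 = (1 - t) • x + t • y → pr (ξ t) = α z) →
        ‖F (ξ 1) - F (ξ 0)‖ ≤ numTet R * D := by
  obtain ⟨Ψ, hΨ⟩ := iso_homeo R R' hR.1 hR'.1 hiso
  have eK : R.space = K.space := hR.2.1
  have eL : R'.space = L.space := hR'.2.1
  let Θ : T3 ≃ₜ T3 := α.symm.trans ((Homeomorph.setCongr eK.symm).trans
    (Ψ.trans ((Homeomorph.setCongr eL).trans β)))
  obtain ⟨F, P, hF, hFΘ, hFP, hP⟩ := lift_homeo Θ
  refine ⟨F, P, hFP, hP, ?_⟩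
  intro s hs x hx y hy ξ hξ hξα
  have hγmem : ∀ t : ℝ, 0 ≤ t → t ≤ 1 →
      (1 - t) • x + t • y ∈ convexHull ℝ (s : Set (κ → ℝ)) := by
    intro t h0 h1
    exact (convex_convexHull ℝ _) hx hy (by linarith) h0 (by ring)
  have hγK : ∀ t : ℝ, 0 ≤ t → t ≤ 1 → (1 - t) • x + t • y ∈ K.space := by
    intro t h0 h1
    exact K.convexHull_subset_space hs (hγmem t h0 h1)
  have hγR : ∀ t : ℝ, 0 ≤ t → t ≤ 1 → (1 - t) • x + t • y ∈ R.space := by
    intro t h0 h1
    rw [eK]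
    exact hγK t h0 h1
  -- the value of the lift
  have hval : ∀ t : ℝ, ∀ (h0 : 0 ≤ t) (h1 : t ≤ 1), ∀ z : L.space,
      z.1 = (Ψ ⟨(1 - t) • x + t • y, hγR t h0 h1⟩).1 → pr (F (ξ t)) = β z := by
    intro t h0 h1 z hz
    rw [hFΘ, hξα t h0 h1 ⟨(1 - t) • x + t • y, hγK t h0 h1⟩ rfl]
    change β ((Homeomorph.setCongr eL) (Ψ ((Homeomorph.setCongr eK.symm) (α.symm (α _))))) = β z
    rw [Homeomorph.symm_apply_apply]
    congr 1
    apply Subtype.ext
    rw [hz]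
    rfl
  have hfin : {s ∈ R.faces | s.card = 4}.Finite := hR.1.subset (Set.sep_subset _ _)
  have hcard : hfin.toFinset.card = numTet R := by
    unfold numTet
    rw [Set.ncard_eq_toFinset_card _ hfin]
  have hγc : Continuous fun t : ℝ => (1 - t) • x + t • y := by fun_prop
  have key := chain hfin.toFinset (fun τ => {t : ℝ | (1 - t) • x + t • y ∈ convexHull ℝ (τ : Set (κ → ℝ))})
    (fun τ _ => by
      have hc : IsClosed (convexHull ℝ (τ : Set (κ → ℝ))) :=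
        (Set.Finite.isCompact_convexHull ℝ τ.finite_toSet).isClosed
      exact hc.preimage hγc) (fun t => F (ξ t)) D hD0 0 1 zero_le_one
    (fun t h0 h1 => by
      obtain ⟨τ, hτ, hτ4, hτx⟩ := pure_cover K R hK hpure hR _ (hγR t h0 h1)
      exact ⟨τ, by simp [hτ, hτ4], hτx⟩)
    (fun τ hτ t ht t' ht' h0 h1 h0' h1' => by
      have hτR : τ ∈ R.faces := by
        have h := hfin.mem_toFinset.mp hτ
        exact h.1
      obtain ⟨s', hs', hm, ha⟩ := hΨ τ hτR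
      obtain ⟨σ, hσ, hσs⟩ := hR'.2.2 s' hs'
      have hu : ∀ u : ℝ, 0 ≤ u → u ≤ 1 → 0 ≤ (1 - u) * t + u * t' ∧ (1 - u) * t + u * t' ≤ 1 := by
        intro u hu0 hu1
        constructor
        · have := mul_nonneg (sub_nonneg.mpr hu1) h0
          have := mul_nonneg hu0 h0'
          linarith
        · nlinarith [mul_nonneg (sub_nonneg.mpr hu1) (sub_nonneg.mpr h1), mul_nonneg hu0 (sub_nonneg.mpr h1')]
      have hd := hD σ hσ (Ψ ⟨(1 - t) • x + t • y, hγR t h0 h1⟩).1 (hσs (hm _ ht))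
        (Ψ ⟨(1 - t') • x + t' • y, hγR t' h0' h1'⟩).1 (hσs (hm _ ht'))
        (fun u => F (ξ ((1 - u) * t + u * t')))
        (by
          apply hF.comp_continuousOn
          refine hξ.comp (by fun_prop) ?_
          intro u hu'
          exact hu u hu'.1 hu'.2)
        (by
          intro u hu0 hu1 z hz
          obtain ⟨hu2, hu3⟩ := hu u hu0 hu1
          apply hval _ hu2 hu3
          rw [hz]
          symm
          apply ha ⟨(1 - t) • x + t • y, hγR t h0 h1⟩ ⟨(1 - t') • x + t' • y, hγR t' h0' h1'⟩ _ ht ht' u hu0 hu1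
          simp only
          module)
      simp only [sub_self, zero_mul, zero_add, one_mul, sub_zero, add_zero] at hd
      rw [dist_comm, dist_eq_norm]
      exact hd)
  rw [hcard] at key
  rw [← dist_eq_norm, dist_comm]
  exact key

end MRX
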