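import Pool.Agent.MRX.Stm

/-!
# Mutual refinements of triangulations of the 3-torus: definitions (MP_ddc35d_gt, squad MRX)
-/

set_option autoImplicit false

open scoped Classical

noncomputable section

namespace MRX

/-- The covering map `ℝ³ → T³`. -/
def pr (x : Fin 3 → ℝ) : T3 := fun i => (x i : UnitAddCircle)

/-- An integer vector as a real vector. -/
def toR (z : Fin 3 → ℤ) : Fin 3 → ℝ := fun i => (z i : ℝ)

/-! ## Hat functions of one layer -/

/-- Hat function of a bottom vertex (coordinates relative to the vertex, height `s ∈ [0,1]`). -/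
def hat0 (u v s : ℝ) : ℝ := max 0 (1 - max (max 0 u) (max v s) + min 0 (min u v))

/-- Hat function of a top vertex. -/
def hat1 (u v s : ℝ) : ℝ :=
  max 0 (min (min (min s (s - u)) (min (s - v) (s - u - v)))
    (min (min (1 + u) (1 + v)) (2 + u + v - s)))

/-- The six tetrahedra of the cube `[0,1]³`; the entries are `(a, b, s)`. -/
def T (t : Fin 6) (i : Fin 4) : ℤ × ℤ × ℤ :=
  (![![(0,0,0), (0,0,1), (1,0,1), (0,1,1)],
     ![(0,0,0), (1,1,1), (1,0,1), (0,1,1)],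
     ![(0,0,0), (1,0,0), (1,0,1), (1,1,1)],
     ![(0,0,0), (1,0,0), (1,1,0), (1,1,1)],
     ![(0,0,0), (0,1,0), (0,1,1), (1,1,1)],
     ![(0,0,0), (0,1,0), (1,1,0), (1,1,1)]] : Fin 6 → Fin 4 → ℤ × ℤ × ℤ) t i

/-! ## Sequences of bases -/

/-- The basis `(p', r')` of the next layer: the bottom triangulation of `(p', r')`
(edge directions `p', r', p' + r'`) is the top triangulation of `(p, r)` (directions
`p, r, r - p`). -/
def Adj (p r p' r' : ℤ × ℤ) : Prop :=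
  (p' = r - p ∧ r' = p) ∨ (p' = -p ∧ r' = r) ∨ (p' = -r ∧ r' = r - p)

/-- Determinant of two integer vectors. -/
def det (p r : ℤ × ℤ) : ℤ := p.1 * r.2 - p.2 * r.1

/-- A periodic sequence of bases of `ℤ²`. -/
structure Bases where
  /-- the number of layers -/
  N : ℕ
  hN : 3 ≤ N
  /-- first basis vector of layer `j` -/
  p : ℤ → ℤ × ℤ
  /-- second basis vector of layer `j` -/
  r : ℤ → ℤ × ℤ
  hp : ∀ j, p (j + N) = p j
  hr : ∀ j, r (j + N) = r j
  hdet : ∀ j, det (p j) (r j) = 1 ∨ det (p j) (r j) = -1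
  hadj : ∀ j, Adj (p j) (r j) (p (j + 1)) (r (j + 1))

variable (B : Bases)

/-- The vertex number `i` of the lifted tetrahedron `t` in the cube with corner `o` in layer `j`. -/
def vert (o : ℤ × ℤ) (j : ℤ) (t : Fin 6) (i : Fin 4) : ℤ × ℤ × ℤ :=
  (o.1 + (T t i).1 * (B.p j).1 + (T t i).2.1 * (B.r j).1,
   o.2 + (T t i).1 * (B.p j).2 + (T t i).2.1 * (B.r j).2,
   j + (T t i).2.2)

/-- The position of a lifted vertex in `ℝ³`. -/
def raw (v : ℤ × ℤ × ℤ) : Fin 3 → ℝ := ![(v.1 : ℝ), (v.2.1 : ℝ), (v.2.2 : ℝ)]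

/-- Barycentric weights. -/
def IsWt (w : Fin 4 → ℝ) : Prop := (∀ i, 0 ≤ w i) ∧ ∑ i, w i = 1

/-- The point of a lifted tetrahedron with weights `w`. -/
def pt (o : ℤ × ℤ) (j : ℤ) (t : Fin 6) (w : Fin 4 → ℝ) : Fin 3 → ℝ :=
  ∑ i, w i • raw (vert B o j t i)

/-- The weights as a function on all lifted vertices. -/
def wtf (o : ℤ × ℤ) (j : ℤ) (t : Fin 6) (w : Fin 4 → ℝ) : (ℤ × ℤ × ℤ) →₀ ℝ :=
  ∑ i, Finsupp.single (vert B o j t i) (w i)

/-- The vertex set of the triangulation of the torus. -/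
abbrev V : Type := ZMod 3 × ZMod 3 × ZMod B.N

/-- Reduction of a lifted vertex. -/
def red (v : ℤ × ℤ × ℤ) : V B := ((v.1 : ZMod 3), (v.2.1 : ZMod 3), (v.2.2 : ZMod B.N))

/-- Two lifted vertices are equivalent. -/
def Eqv (v v' : ℤ × ℤ × ℤ) : Prop :=
  (3 : ℤ) ∣ v'.1 - v.1 ∧ (3 : ℤ) ∣ v'.2.1 - v.2.1 ∧ (B.N : ℤ) ∣ v'.2.2 - v.2.2

/-- The projection of `ℝ³` with the lifted triangulation to the torus. -/
def prB (x : Fin 3 → ℝ) : T3 := pr ![x 0 / 3, x 1 / 3, x 2 / B.N]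

/-- The vertex set of the tetrahedron `(o, j, t)` of the torus. -/
def tetV (o : ℤ × ℤ) (j : ℤ) (t : Fin 6) : Finset (V B) :=
  Finset.univ.image fun i => red B (vert B o j t i)

/-- The abstract faces. -/
def absFaces : Set (Finset (V B)) := {s | s.Nonempty ∧ ∃ o j t, s ⊆ tetV B o j t}

/-- First coordinate in the basis `(p_j, r_j)`. -/
def cu (j : ℤ) (x y : ℝ) : ℝ :=
  (det (B.p j) (B.r j) : ℝ) * (x * ((B.r j).2 : ℝ) - y * ((B.r j).1 : ℝ))

/-- Second coordinate in the basis `(p_j, r_j)`. -/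
def cv (j : ℤ) (x y : ℝ) : ℝ :=
  (det (B.p j) (B.r j) : ℝ) * (((B.p j).1 : ℝ) * y - ((B.p j).2 : ℝ) * x)

instance : NeZero B.N := ⟨by have := B.hN; omega⟩

/-- The reduced weights: barycentric coordinates in the triangulation of the torus. -/
def rwt (o : ℤ × ℤ) (j : ℤ) (t : Fin 6) (w : Fin 4 → ℝ) : V B → ℝ :=
  ∑ i, Pi.single (red B (vert B o j t i)) (w i)

/-- The period lattice of the lifted triangulation. -/
def IsPer (z : ℤ × ℤ × ℤ) : Prop := (3 : ℤ) ∣ z.1 ∧ (3 : ℤ) ∣ z.2.1 ∧ (B.N : ℤ) ∣ z.2.2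

/-- The Fibonacci type sequence of vectors. -/
def Pv : ℕ → ℤ × ℤ
  | 0 => (0, 1)
  | 1 => (1, 0)
  | (k + 2) => Pv k - Pv (k + 1)

end MRX
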