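import Pool.Agent.MRX.Per

set_option autoImplicit false

open scoped Classical

noncomputable section

namespace MRX

/-!
# Module Dsp (3)

Two lifted tetrahedra whose reductions share two vertices have the same displacement between them.

Route: `d = vert i' - vert i`, `d' = vert' k' - vert' k`, `d ≡ d'` modulo the period lattice.  The
last coordinates lie in `{-1, 0, 1}` and are congruent modulo `N ≥ 3`, so they are equal.
Case `±1`: the two layers are congruent modulo `N` (same bases), and the displacement from the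
bottom to the top vertex is `α p + β r` with `α, β ∈ {0, 1}` (decide over `t, i, i'`);
`α p + β r ≡ α' p + β' r (mod 3)`, `det = ±1` give `α ≡ α'`, `β ≡ β' (mod 3)`, so equality.
Case `0`: the levels of the two edges are congruent modulo `N`; the displacement of an edge at the
bottom level of layer `ℓ` is `α p_ℓ + β r_ℓ` with `|α|, |β|, |α - β| ≤ 1`; for an edge at the top
level of layer `ℓ - 1` it is `α p_{ℓ-1} + β r_{ℓ-1}` with `|α|, |β|, |α + β| ≤ 1`, which, by `Adj`,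
is again `α' p_ℓ + β' r_ℓ` with `|α'|, |β'|, |α' - β'| ≤ 1`.  So in both cases we can compare the
coefficients in the basis of layer `ℓ` modulo `3`: integers in `[-1, 1]` congruent modulo 3 are
equal.
-/

/-- Facts about the differences of the vertices of the six tetrahedra. -/
theorem dsp_T_fact : ∀ (t : Fin 6) (i i' : Fin 4),
    (0 ≤ (T t i).2.2 ∧ (T t i).2.2 ≤ 1) ∧
    (-1 ≤ (T t i').1 - (T t i).1 ∧ (T t i').1 - (T t i).1 ≤ 1) ∧
    (-1 ≤ (T t i').2.1 - (T t i).2.1 ∧ (T t i').2.1 - (T t i).2.1 ≤ 1) ∧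
    ((T t i).2.2 = 1 → (T t i').2.2 = 1 →
      -1 ≤ ((T t i').1 - (T t i).1) + ((T t i').2.1 - (T t i).2.1) ∧
      ((T t i').1 - (T t i).1) + ((T t i').2.1 - (T t i).2.1) ≤ 1) := by
  decide

theorem dsp_T_inj : ∀ (t : Fin 6) (i i' : Fin 4), (T t i').1 - (T t i).1 = 0 →
    (T t i').2.1 - (T t i).2.1 = 0 → (T t i').2.2 - (T t i).2.2 = 0 → i = i' := by
  decide

/-- Comparison of coefficients modulo 3. -/
theorem dsp_coef {p r : ℤ × ℤ} (hd : det p r = 1 ∨ det p r = -1) {x y : ℤ}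
    (hx : -2 ≤ x ∧ x ≤ 2) (hy : -2 ≤ y ∧ y ≤ 2) (h1 : (3 : ℤ) ∣ x * p.1 + y * r.1)
    (h2 : (3 : ℤ) ∣ x * p.2 + y * r.2) : x = 0 ∧ y = 0 := by
  obtain ⟨m, hm⟩ := h1
  obtain ⟨l, hl⟩ := h2
  have e1 : det p r * x = 3 * (r.2 * m - r.1 * l) := by
    unfold det
    linear_combination r.2 * hm - r.1 * hl
  have e2 : det p r * y = 3 * (p.1 * l - p.2 * m) := by
    unfold det
    linear_combination p.1 * hl - p.2 * hm
  rcases hd with hd | hd
  · rw [hd] at e1 e2
    omega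
  · rw [hd] at e1 e2
    omega

/-- The displacement of an edge in the basis of a layer with index `ℓ`. -/
theorem dsp_edge (B : Bases) (o : ℤ × ℤ) (j : ℤ) (t : Fin 6) (i i' : Fin 4) :
    ∃ α β ℓ : ℤ, (-1 ≤ α ∧ α ≤ 1) ∧ (-1 ≤ β ∧ β ≤ 1) ∧
      vert B o j t i' - vert B o j t i =
        (α * (B.p ℓ).1 + β * (B.r ℓ).1, α * (B.p ℓ).2 + β * (B.r ℓ).2,
          (T t i').2.2 - (T t i).2.2) ∧
      (((T t i').2.2 - (T t i).2.2 = 0 ∧ ℓ = j + (T t i).2.2) ∨
        ((T t i').2.2 - (T t i).2.2 = 1 ∧ ℓ = j ∧ (T t i).2.2 = 0) ∨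
        ((T t i').2.2 - (T t i).2.2 = -1 ∧ ℓ = j ∧ (T t i).2.2 = 1)) := by
  obtain ⟨hs, ha, hb, hab⟩ := dsp_T_fact t i i'
  obtain ⟨hs', -, -, -⟩ := dsp_T_fact t i' i
  have hv : vert B o j t i' - vert B o j t i =
      (((T t i').1 - (T t i).1) * (B.p j).1 + ((T t i').2.1 - (T t i).2.1) * (B.r j).1,
        ((T t i').1 - (T t i).1) * (B.p j).2 + ((T t i').2.1 - (T t i).2.1) * (B.r j).2,
        (T t i').2.2 - (T t i).2.2) := by
    unfold vert
    ext
    · simp only [Prod.fst_sub]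
      ring
    · simp only [Prod.snd_sub, Prod.fst_sub]
      ring
    · simp only [Prod.snd_sub]
      ring
  generalize (T t i').1 - (T t i).1 = a at *
  generalize (T t i').2.1 - (T t i).2.1 = b at *
  by_cases h0 : (T t i').2.2 - (T t i).2.2 = 0
  · by_cases h1 : (T t i).2.2 = 1
    · -- top level: change to the basis of the next layer
      have h1' : (T t i').2.2 = 1 := by omega
      have hab' := hab h1 h1'
      rcases B.hadj j with ⟨e1, e2⟩ | ⟨e1, e2⟩ | ⟨e1, e2⟩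
      · refine ⟨b, a + b, j + 1, hb, hab', ?_, Or.inl ⟨h0, by rw [h1]⟩⟩
        rw [hv, e1, e2]
        ext
        · simp only [Prod.fst_sub]; ring
        · simp only [Prod.snd_sub]; ring
        · rfl
      · refine ⟨-a, b, j + 1, by omega, hb, ?_, Or.inl ⟨h0, by rw [h1]⟩⟩
        rw [hv, e1, e2]
        ext
        · simp only [Prod.fst_neg]; ring
        · simp only [Prod.snd_neg]; ring
        · rfl
      · refine ⟨-(a + b), -a, j + 1, by omega, by omega, ?_, Or.inl ⟨h0, by rw [h1]⟩⟩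
        rw [hv, e1, e2]
        ext
        · simp only [Prod.fst_sub, Prod.fst_neg]; ring
        · simp only [Prod.snd_sub, Prod.snd_neg]; ring
        · rfl
    · have h1' : (T t i).2.2 = 0 := by omega
      exact ⟨a, b, j, ha, hb, hv, Or.inl ⟨h0, by rw [h1', add_zero]⟩⟩
  · refine ⟨a, b, j, ha, hb, hv, ?_⟩
    omega

theorem dsp_bases (B : Bases) {j j' : ℤ} (h : (B.N : ℤ) ∣ j' - j) :
    B.p j' = B.p j ∧ B.r j' = B.r j := by
  have h1 := p_per B j (j' - j) h
  have h2 := r_per B j (j' - j) h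
  rw [add_sub_cancel] at h1 h2
  exact ⟨h1, h2⟩

theorem displacement (B : Bases) (o : ℤ × ℤ) (j : ℤ) (t : Fin 6) (i i' : Fin 4)
    (o' : ℤ × ℤ) (j' : ℤ) (t' : Fin 6) (k k' : Fin 4)
    (h : Eqv B (vert B o j t i) (vert B o' j' t' k))
    (h' : Eqv B (vert B o j t i') (vert B o' j' t' k')) :
    vert B o j t i' - vert B o j t i = vert B o' j' t' k' - vert B o' j' t' k := by
  obtain ⟨α, β, ℓ, hα, hβ, hd, hℓ⟩ := dsp_edge B o j t i i'
  obtain ⟨α', β', ℓ', hα', hβ', hd', hℓ'⟩ := dsp_edge B o' j' t' k k'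
  have hN := B.hN
  have hN' : (3 : ℤ) ≤ B.N := by exact_mod_cast hN
  obtain ⟨g1, g2, g3⟩ := h
  obtain ⟨g1', g2', g3'⟩ := h'
  set v := vert B o j t i with hv
  set v' := vert B o j t i' with hv'
  set u := vert B o' j' t' k with hu
  set u' := vert B o' j' t' k' with hu'
  have f1 : v'.1 - v.1 = α * (B.p ℓ).1 + β * (B.r ℓ).1 := congrArg Prod.fst hd
  have f2 : v'.2.1 - v.2.1 = α * (B.p ℓ).2 + β * (B.r ℓ).2 :=
    congrArg (fun z : ℤ × ℤ × ℤ => z.2.1) hd
  have f3 : v'.2.2 - v.2.2 = (T t i').2.2 - (T t i).2.2 :=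
    congrArg (fun z : ℤ × ℤ × ℤ => z.2.2) hd
  have f1' : u'.1 - u.1 = α' * (B.p ℓ').1 + β' * (B.r ℓ').1 := congrArg Prod.fst hd'
  have f2' : u'.2.1 - u.2.1 = α' * (B.p ℓ').2 + β' * (B.r ℓ').2 :=
    congrArg (fun z : ℤ × ℤ × ℤ => z.2.1) hd'
  have f3' : u'.2.2 - u.2.2 = (T t' k').2.2 - (T t' k).2.2 :=
    congrArg (fun z : ℤ × ℤ × ℤ => z.2.2) hd'
  -- last coordinates
  have k3 : (B.N : ℤ) ∣ ((T t' k').2.2 - (T t' k).2.2) - ((T t i').2.2 - (T t i).2.2) := by
    have := dvd_sub g3' g3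
    have e : (u'.2.2 - v'.2.2) - (u.2.2 - v.2.2) =
        ((T t' k').2.2 - (T t' k).2.2) - ((T t i').2.2 - (T t i).2.2) := by
      rw [← f3, ← f3']; ring
    rwa [e] at this
  have hs : (T t' k').2.2 - (T t' k).2.2 = (T t i').2.2 - (T t i).2.2 := by
    obtain ⟨m, hm⟩ := k3
    have hb1 : -1 ≤ (T t i').2.2 - (T t i).2.2 ∧ (T t i').2.2 - (T t i).2.2 ≤ 1 := by omega
    have hb2 : -1 ≤ (T t' k').2.2 - (T t' k).2.2 ∧ (T t' k').2.2 - (T t' k).2.2 ≤ 1 := by omega
    have hm0 : m = 0 := by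
      by_contra hne
      rcases lt_or_gt_of_ne hne with hlt | hgt
      · have : (B.N : ℤ) * m ≤ 3 * (-1) := by nlinarith
        omega
      · have : 3 * 1 ≤ (B.N : ℤ) * m := by nlinarith
        omega
    rw [hm0, mul_zero] at hm
    omega
  -- the bases agree
  have hl : (B.N : ℤ) ∣ ℓ' - ℓ := by
    have e1 : v.2.2 = j + (T t i).2.2 := rfl
    have e2 : u.2.2 = j' + (T t' k).2.2 := rfl
    rw [e1, e2] at g3
    rcases hℓ with ⟨s0, hℓ⟩ | ⟨s0, hℓ, q⟩ | ⟨s0, hℓ, q⟩ <;>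
      rcases hℓ' with ⟨s0', hℓ'⟩ | ⟨s0', hℓ', q'⟩ | ⟨s0', hℓ', q'⟩ <;>
      first
        | (exfalso; omega)
        | (rw [hℓ, hℓ']; exact g3)
        | (rw [q, q'] at g3
           rw [hℓ, hℓ']
           have e : j' - j = (j' + 0) - (j + 0) := by ring
           rw [e]; exact g3)
        | (rw [q, q'] at g3
           rw [hℓ, hℓ']
           have e : j' - j = (j' + 1) - (j + 1) := by ring
           rw [e]; exact g3)
  obtain ⟨hp, hr⟩ := dsp_bases B hl
  rw [hp, hr] at f1' f2' hd'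
  have k1 : (3 : ℤ) ∣ (α' - α) * (B.p ℓ).1 + (β' - β) * (B.r ℓ).1 := by
    have := dvd_sub g1' g1
    have e : (u'.1 - v'.1) - (u.1 - v.1) = (α' - α) * (B.p ℓ).1 + (β' - β) * (B.r ℓ).1 := by
      linear_combination f1' - f1
    rwa [e] at this
  have k2 : (3 : ℤ) ∣ (α' - α) * (B.p ℓ).2 + (β' - β) * (B.r ℓ).2 := by
    have := dvd_sub g2' g2
    have e : (u'.2.1 - v'.2.1) - (u.2.1 - v.2.1) =
        (α' - α) * (B.p ℓ).2 + (β' - β) * (B.r ℓ).2 := by
      linear_combination f2' - f2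
    rwa [e] at this
  obtain ⟨z1, z2⟩ := dsp_coef (B.hdet ℓ) (x := α' - α) (y := β' - β) (by omega) (by omega) k1 k2
  have hα2 : α' = α := by omega
  have hβ2 : β' = β := by omega
  rw [hd, hd', hα2, hβ2, hs]

theorem dsp_red_inj (B : Bases) (o : ℤ × ℤ) (j : ℤ) (t : Fin 6) (i i' : Fin 4)
    (h : red B (vert B o j t i) = red B (vert B o j t i')) : i = i' := by
  rw [red_eq_iff] at h
  obtain ⟨g1, g2, g3⟩ := h
  obtain ⟨hs, ha, hb, -⟩ := dsp_T_fact t i i'
  obtain ⟨hs', -, -, -⟩ := dsp_T_fact t i' i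
  have hN := B.hN
  have hN' : (3 : ℤ) ≤ B.N := by exact_mod_cast hN
  have e3 : (vert B o j t i').2.2 - (vert B o j t i).2.2 = (T t i').2.2 - (T t i).2.2 := by
    unfold vert; ring
  have e1 : (vert B o j t i').1 - (vert B o j t i).1 =
      ((T t i').1 - (T t i).1) * (B.p j).1 + ((T t i').2.1 - (T t i).2.1) * (B.r j).1 := by
    unfold vert; ring
  have e2 : (vert B o j t i').2.1 - (vert B o j t i).2.1 =
      ((T t i').1 - (T t i).1) * (B.p j).2 + ((T t i').2.1 - (T t i).2.1) * (B.r j).2 := by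
    unfold vert; ring
  rw [e1] at g1
  rw [e2] at g2
  rw [e3] at g3
  obtain ⟨z1, z2⟩ := dsp_coef (B.hdet j) (by omega) (by omega) g1 g2
  have z3 : (T t i').2.2 - (T t i).2.2 = 0 := by
    obtain ⟨m, hm⟩ := g3
    have hm0 : m = 0 := by
      by_contra hne
      rcases lt_or_gt_of_ne hne with hlt | hgt
      · have : (B.N : ℤ) * m ≤ 3 * (-1) := by nlinarith
        omega
      · have : 3 * 1 ≤ (B.N : ℤ) * m := by nlinarith
        omega
    rw [hm, hm0, mul_zero]
  exact dsp_T_inj t i i' z1 z2 z3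

/-- `vert` is injective on a tetrahedron. -/
theorem vert_injective (B : Bases) (o : ℤ × ℤ) (j : ℤ) (t : Fin 6) :
    Function.Injective (vert B o j t) := by
  intro i i' h
  exact dsp_red_inj B o j t i i' (by rw [h])

/-- Reduction is injective on a tetrahedron. -/
theorem red_vert_injective (B : Bases) (o : ℤ × ℤ) (j : ℤ) (t : Fin 6) :
    Function.Injective (fun i => red B (vert B o j t i)) :=
  fun i i' h => dsp_red_inj B o j t i i' h

theorem card_tetV (B : Bases) (o : ℤ × ℤ) (j : ℤ) (t : Fin 6) : (tetV B o j t).card = 4 := by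
  unfold tetV
  rw [Finset.card_image_of_injective _ (red_vert_injective B o j t), Finset.card_univ,
    Fintype.card_fin]

end MRX
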