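import Pool.Agent.MRX.Defs

set_option autoImplicit false

open scoped Classical

noncomputable section

namespace MRX

/-!
# Module Ex (2)

The six tetrahedra cover the unit cube, and the lifted tetrahedra cover `ℝ³`.

Regions of the cube and weights (vertex `abs` : weight):
* t = 0 (`a + b ≤ s`): `000: 1-s, 001: s-a-b, 101: a, 011: b`
* t = 1 (`a ≤ s, b ≤ s, s ≤ a + b`): `000: 1-s, 111: a+b-s, 101: s-b, 011: s-a`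
* t = 2 (`b ≤ s ≤ a`): `000: 1-a, 100: a-s, 101: s-b, 111: b`
* t = 3 (`s ≤ b ≤ a`): `000: 1-a, 100: a-b, 110: b-s, 111: s`
* t = 4 (`a ≤ s ≤ b`): `000: 1-b, 010: b-s, 011: s-a, 111: a`
* t = 5 (`s ≤ a ≤ b`): `000: 1-b, 010: b-a, 110: a-s, 111: s`

For `exists_pt`: `j = ⌊x 2⌋`, coordinates `cu B j (x 0) (x 1)`, `cv B j (x 0) (x 1)` in the basis
of layer `j`, and their floors.
-/

theorem exists_local (a b s : ℝ) (ha : 0 ≤ a) (ha1 : a ≤ 1) (hb : 0 ≤ b) (hb1 : b ≤ 1)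
    (hs : 0 ≤ s) (hs1 : s ≤ 1) :
    ∃ (t : Fin 6) (w : Fin 4 → ℝ), IsWt w ∧ ∑ i, w i * ((T t i).1 : ℝ) = a ∧
      ∑ i, w i * ((T t i).2.1 : ℝ) = b ∧ ∑ i, w i * ((T t i).2.2 : ℝ) = s := by
  by_cases h0 : a + b ≤ s
  · refine ⟨0, ![1 - s, s - a - b, a, b], ⟨?_, ?_⟩, ?_, ?_, ?_⟩
    · intro i
      fin_cases i <;> simp <;> linarith
    all_goals
      simp [Fin.sum_univ_four, T]
    all_goals ring
  by_cases h1 : a ≤ s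
  · by_cases h2 : b ≤ s
    · refine ⟨1, ![1 - s, a + b - s, s - b, s - a], ⟨?_, ?_⟩, ?_, ?_, ?_⟩
      · intro i
        fin_cases i <;> simp <;> linarith
      all_goals
        simp [Fin.sum_univ_four, T]
      all_goals ring
    · refine ⟨4, ![1 - b, b - s, s - a, a], ⟨?_, ?_⟩, ?_, ?_, ?_⟩
      · intro i
        fin_cases i <;> simp <;> linarith
      all_goals
        simp [Fin.sum_univ_four, T]
      all_goals ring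
  · by_cases h2 : b ≤ s
    · refine ⟨2, ![1 - a, a - s, s - b, b], ⟨?_, ?_⟩, ?_, ?_, ?_⟩
      · intro i
        fin_cases i <;> simp <;> linarith
      all_goals
        simp [Fin.sum_univ_four, T]
      all_goals ring
    · by_cases h3 : b ≤ a
      · refine ⟨3, ![1 - a, a - b, b - s, s], ⟨?_, ?_⟩, ?_, ?_, ?_⟩
        · intro i
          fin_cases i <;> simp <;> linarith
        all_goals
          simp [Fin.sum_univ_four, T]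
        all_goals ring
      · refine ⟨5, ![1 - b, b - a, a - s, s], ⟨?_, ?_⟩, ?_, ?_, ?_⟩
        · intro i
          fin_cases i <;> simp <;> linarith
        all_goals
          simp [Fin.sum_univ_four, T]
        all_goals ring

theorem exists_pt (B : Bases) (x : Fin 3 → ℝ) :
    ∃ (o : ℤ × ℤ) (j : ℤ) (t : Fin 6) (w : Fin 4 → ℝ), IsWt w ∧ pt B o j t w = x := by
  obtain ⟨t, w, hw, h1, h2, h3⟩ := exists_local (Int.fract (cu B ⌊x 2⌋ (x 0) (x 1)))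
    (Int.fract (cv B ⌊x 2⌋ (x 0) (x 1))) (Int.fract (x 2)) (Int.fract_nonneg _)
    (Int.fract_lt_one _).le (Int.fract_nonneg _) (Int.fract_lt_one _).le (Int.fract_nonneg _)
    (Int.fract_lt_one _).le
  refine ⟨(⌊cu B ⌊x 2⌋ (x 0) (x 1)⌋ * (B.p ⌊x 2⌋).1 + ⌊cv B ⌊x 2⌋ (x 0) (x 1)⌋ * (B.r ⌊x 2⌋).1,
    ⌊cu B ⌊x 2⌋ (x 0) (x 1)⌋ * (B.p ⌊x 2⌋).2 + ⌊cv B ⌊x 2⌋ (x 0) (x 1)⌋ * (B.r ⌊x 2⌋).2),
    ⌊x 2⌋, t, w, hw, ?_⟩
  have hd : (det (B.p ⌊x 2⌋) (B.r ⌊x 2⌋) : ℝ) * (det (B.p ⌊x 2⌋) (B.r ⌊x 2⌋) : ℝ) = 1 := by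
    rcases B.hdet ⌊x 2⌋ with h | h <;> rw [h] <;> norm_num
  have hd' : (det (B.p ⌊x 2⌋) (B.r ⌊x 2⌋) : ℝ) =
      ((B.p ⌊x 2⌋).1 : ℝ) * ((B.r ⌊x 2⌋).2 : ℝ) - ((B.p ⌊x 2⌋).2 : ℝ) * ((B.r ⌊x 2⌋).1 : ℝ) := by
    unfold det
    push_cast
    ring
  have e0 : cu B ⌊x 2⌋ (x 0) (x 1) * ((B.p ⌊x 2⌋).1 : ℝ) +
      cv B ⌊x 2⌋ (x 0) (x 1) * ((B.r ⌊x 2⌋).1 : ℝ) = x 0 := by
    unfold cu cv
    linear_combination (x 0) * hd - (x 0) * (det (B.p ⌊x 2⌋) (B.r ⌊x 2⌋) : ℝ) * hd'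
  have e1 : cu B ⌊x 2⌋ (x 0) (x 1) * ((B.p ⌊x 2⌋).2 : ℝ) +
      cv B ⌊x 2⌋ (x 0) (x 1) * ((B.r ⌊x 2⌋).2 : ℝ) = x 1 := by
    unfold cu cv
    linear_combination (x 1) * hd - (x 1) * (det (B.p ⌊x 2⌋) (B.r ⌊x 2⌋) : ℝ) * hd'
  have fu := Int.floor_add_fract (cu B ⌊x 2⌋ (x 0) (x 1))
  have fv := Int.floor_add_fract (cv B ⌊x 2⌋ (x 0) (x 1))
  have fs := Int.floor_add_fract (x 2)
  have hs := hw.2
  generalize cu B ⌊x 2⌋ (x 0) (x 1) = U at *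
  generalize cv B ⌊x 2⌋ (x 0) (x 1) = W at *
  simp only [Fin.sum_univ_four] at h1 h2 h3 hs
  ext k
  unfold pt
  rw [Finset.sum_apply, Fin.sum_univ_four]
  fin_cases k
  · simp only [Pi.smul_apply, smul_eq_mul, raw, vert, Fin.zero_eta, Matrix.cons_val_zero]
    push_cast
    linear_combination ((⌊U⌋ : ℝ) * ((B.p ⌊x 2⌋).1 : ℝ) + (⌊W⌋ : ℝ) * ((B.r ⌊x 2⌋).1 : ℝ)) * hs +
      ((B.p ⌊x 2⌋).1 : ℝ) * h1 + ((B.r ⌊x 2⌋).1 : ℝ) * h2 + ((B.p ⌊x 2⌋).1 : ℝ) * fu + ((B.r ⌊x 2⌋).1 : ℝ) * fv + e0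
  · simp only [Pi.smul_apply, smul_eq_mul, raw, vert, Fin.mk_one, Matrix.cons_val_one]
    push_cast
    linear_combination ((⌊U⌋ : ℝ) * ((B.p ⌊x 2⌋).2 : ℝ) + (⌊W⌋ : ℝ) * ((B.r ⌊x 2⌋).2 : ℝ)) * hs +
      ((B.p ⌊x 2⌋).2 : ℝ) * h1 + ((B.r ⌊x 2⌋).2 : ℝ) * h2 + ((B.p ⌊x 2⌋).2 : ℝ) * fu + ((B.r ⌊x 2⌋).2 : ℝ) * fv + e1
  · simp only [Pi.smul_apply, smul_eq_mul, raw, vert, Fin.reduceFinMk, Matrix.cons_val]
    push_cast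
    linear_combination (⌊x 2⌋ : ℝ) * hs + h3 + fs

end MRX
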