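import Pool.Agent.MRX.Simp
import Pool.Agent.MRX.Ex

set_option autoImplicit false

open scoped Classical

noncomputable section

namespace MRX

/-!
# Module Hom (3)

The homeomorphism between the set of reduced weights and the torus.

Route: `f : RS B → T3`, `f x = prB (pt ...)` for a chosen representation; well defined by
`rwt_eq_imp` and `prB_eq_iff`, injective by `rwt_eq_of_pt`, surjective by `exists_pt` and
`prB_surjective`.  `RS B` is the union of the images of the compact set `{w | IsWt w}` under the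
continuous maps `rwt B o j t` for the finitely many representatives `(o, j, t)` (`exists_rep`,
`rwt_per`); `f` is continuous on each of these closed sets: `f ∘ rwt B o j t = prB ∘ pt B o j t`
is continuous and `rwt B o j t : {w | IsWt w} → image` is a quotient map (closed, compact to
Hausdorff; or use the explicit inverse `w i = x (red (vert i))`, by `red_vert_injective`).  Then
`RS B` is compact and `Continuous.homeoOfEquivCompactToT2`.
-/

/-- The set of reduced weights. -/
def RS (B : Bases) : Set (V B → ℝ) :=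
  {x | ∃ (o : ℤ × ℤ) (j : ℤ) (t : Fin 6) (w : Fin 4 → ℝ), IsWt w ∧ x = rwt B o j t w}

private theorem Hom_cont_rwt (B : Bases) (o : ℤ × ℤ) (j : ℤ) (t : Fin 6) :
    Continuous (fun w : Fin 4 → ℝ => rwt B o j t w) := by
  refine continuous_pi fun x => ?_
  simp only [rwt, Finset.sum_apply, Pi.single_apply]
  refine continuous_finsetSum _ fun i _ => ?_
  split_ifs
  · exact continuous_apply i
  · exact continuous_const

private theorem Hom_cont_pt (B : Bases) (o : ℤ × ℤ) (j : ℤ) (t : Fin 6) :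
    Continuous (fun w : Fin 4 → ℝ => pt B o j t w) := by
  unfold pt
  exact continuous_finsetSum _ fun i _ => (continuous_apply i).smul continuous_const

theorem exists_homeo (B : Bases) :
    ∃ α : RS B ≃ₜ T3, ∀ (o : ℤ × ℤ) (j : ℤ) (t : Fin 6) (w : Fin 4 → ℝ), IsWt w →
      ∀ z : RS B, z.1 = rwt B o j t w → α z = prB B (pt B o j t w) := by
  choose co cj ct cw hcw hc using fun z : RS B => z.2
  obtain ⟨f, hf⟩ : ∃ f : RS B → T3, f = fun z => prB B (pt B (co z) (cj z) (ct z) (cw z)) :=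
    ⟨_, rfl⟩
  have hfr : ∀ (o : ℤ × ℤ) (j : ℤ) (t : Fin 6) (w : Fin 4 → ℝ), IsWt w →
      ∀ z : RS B, z.1 = rwt B o j t w → f z = prB B (pt B o j t w) := by
    intro o j t w hw z hz
    obtain ⟨y, hy, hy'⟩ := rwt_eq_imp B (co z) (cj z) (ct z) (cw z) (hcw z) o j t w hw
      ((hc z).symm.trans hz)
    rw [hf]
    exact (prB_eq_iff B _ _).2 ⟨y, hy, hy'⟩
  have hinj : Function.Injective f := by
    intro z z' h
    rw [hf] at h
    obtain ⟨y, hy, hy'⟩ := (prB_eq_iff B _ _).1 h
    apply Subtype.ext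
    rw [hc z, hc z']
    exact rwt_eq_of_pt B _ _ _ _ (hcw z) _ _ _ _ (hcw z') y hy hy'
  have hsurj : Function.Surjective f := by
    intro y
    obtain ⟨x, rfl⟩ := prB_surjective B y
    obtain ⟨o, j, t, w, hw, rfl⟩ := exists_pt B x
    exact ⟨⟨rwt B o j t w, o, j, t, w, hw, rfl⟩, hfr o j t w hw _ rfl⟩
  -- the compact cover
  have hK : CompactSpace {w : Fin 4 → ℝ // IsWt w} :=
    isCompact_iff_compactSpace.1 (isCompact_stdSimplex ℝ (Fin 4))
  obtain ⟨q, hq⟩ : ∃ q : (Fin 3 × Fin 3 × Fin B.N × Fin 6) × {w : Fin 4 → ℝ // IsWt w} → RS B,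
      q = fun x => ⟨rwt B (((x.1.1 : ℕ) : ℤ), ((x.1.2.1 : ℕ) : ℤ)) ((x.1.2.2.1 : ℕ) : ℤ) x.1.2.2.2
        x.2.1, _, _, _, _, x.2.2, rfl⟩ := ⟨_, rfl⟩
  have hqc : Continuous q := by
    rw [hq]
    refine Continuous.subtype_mk ?_ _
    rw [continuous_prod_of_discrete_left]
    intro a
    have h := (Hom_cont_rwt B (((a.1 : ℕ) : ℤ), ((a.2.1 : ℕ) : ℤ)) ((a.2.2.1 : ℕ) : ℤ) a.2.2.2).comp
      (continuous_subtype_val (p := fun w : Fin 4 → ℝ => IsWt w))
    exact h
  have hqs : Function.Surjective q := by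
    intro z
    obtain ⟨o, j, t, w, hw, hz⟩ := z.2
    obtain ⟨a, b, c, y, ha, hb, hcN, hy, ho, hj⟩ := exists_rep B o j
    refine ⟨((⟨a, ha⟩, ⟨b, hb⟩, ⟨c, hcN⟩, t), ⟨w, hw⟩), ?_⟩
    apply Subtype.ext
    rw [hz, hq, ho, hj]
    exact (rwt_per B y hy ((a : ℤ), (b : ℤ)) (c : ℤ) t w).symm
  have hcomp : CompactSpace (RS B) := ⟨by
    rw [← hqs.range_eq]
    exact isCompact_range hqc⟩
  have hfc : Continuous f := by
    have hquot : Topology.IsQuotientMap q := hqc.isClosedMap.isQuotientMap hqc hqs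
    rw [hquot.continuous_iff]
    have e : f ∘ q = fun x => prB B (pt B (((x.1.1 : ℕ) : ℤ), ((x.1.2.1 : ℕ) : ℤ))
        ((x.1.2.2.1 : ℕ) : ℤ) x.1.2.2.2 x.2.1) := by
      funext x
      exact hfr _ _ _ _ x.2.2 (q x) (by rw [hq])
    rw [e, continuous_prod_of_discrete_left]
    intro a
    have h := (continuous_prB B).comp ((Hom_cont_pt B (((a.1 : ℕ) : ℤ), ((a.2.1 : ℕ) : ℤ))
      ((a.2.2.1 : ℕ) : ℤ) a.2.2.2).comp (continuous_subtype_val (p := fun w : Fin 4 → ℝ => IsWt w)))
    exact h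
  refine ⟨Continuous.homeoOfEquivCompactToT2 (f := Equiv.ofBijective f ⟨hinj, hsurj⟩) hfc, ?_⟩
  intro o j t w hw z hz
  exact hfr o j t w hw z hz

end MRX
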