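import Pool.Agent.MRX.Std
import Pool.Agent.MRX.Hom

set_option autoImplicit false

open scoped Classical

noncomputable section

namespace MRX

/-!
# Module Geo (3)

The geometric simplicial complex of a periodic sequence of bases.

Route: `std_exists` for `A = absFaces B`.  `K.space = RS B`: a point `x ≥ 0`, `∑ x = 1`,
supported in `s ⊆ tetV B o j t` is `rwt B o j t (fun i => x (red B (vert B o j t i)))`
(`red_vert_injective`); conversely `rwt` is supported in `tetV B o j t ∈ absFaces B`.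
Count: a face in `absFaces B` with 4 elements is some `tetV B o j t` (`card_tetV`), and by
`exists_rep`, `vert_per` there are at most `3 * 3 * N * 6` of them.
`edge`: the two endpoints lie in the convex hull of the face of `tetV B o j t` (`std_hull`).
-/

private theorem Geo_ne (B : Bases) : ∀ s ∈ absFaces B, s.Nonempty := fun _ hs => hs.1

private theorem Geo_down (B : Bases) : ∀ s ∈ absFaces B, ∀ t : Finset (V B), t ⊆ s →
    t.Nonempty → t ∈ absFaces B := by
  rintro s ⟨_, o, j, t, h⟩ t' ht' hne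
  exact ⟨hne, o, j, t, ht'.trans h⟩

private theorem Geo_tet_mem (B : Bases) (o : ℤ × ℤ) (j : ℤ) (t : Fin 6) :
    tetV B o j t ∈ absFaces B := by
  refine ⟨?_, o, j, t, subset_rfl⟩
  rw [← Finset.card_pos, card_tetV]
  norm_num

private theorem Geo_rwt_apply (B : Bases) (o : ℤ × ℤ) (j : ℤ) (t : Fin 6) (w : Fin 4 → ℝ)
    (v : V B) :
    rwt B o j t w v = ∑ i, if v = red B (vert B o j t i) then w i else 0 := by
  unfold rwt
  rw [Finset.sum_apply]
  refine Finset.sum_congr rfl fun i _ => ?_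
  rw [Pi.single_apply]

private theorem Geo_rwt_nonneg (B : Bases) (o : ℤ × ℤ) (j : ℤ) (t : Fin 6) (w : Fin 4 → ℝ)
    (hw : IsWt w) (v : V B) : 0 ≤ rwt B o j t w v := by
  rw [Geo_rwt_apply]
  refine Finset.sum_nonneg fun i _ => ?_
  split_ifs
  · exact hw.1 i
  · exact le_rfl

private theorem Geo_rwt_sum (B : Bases) (o : ℤ × ℤ) (j : ℤ) (t : Fin 6) (w : Fin 4 → ℝ)
    (hw : IsWt w) : ∑ v, rwt B o j t w v = 1 := by
  simp_rw [Geo_rwt_apply]
  rw [Finset.sum_comm]
  simp only [Finset.sum_ite_eq', Finset.mem_univ, if_true]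
  exact hw.2

private theorem Geo_rwt_supp (B : Bases) (o : ℤ × ℤ) (j : ℤ) (t : Fin 6) (w : Fin 4 → ℝ)
    (v : V B) (hv : v ∉ tetV B o j t) : rwt B o j t w v = 0 := by
  rw [Geo_rwt_apply]
  refine Finset.sum_eq_zero fun i _ => ?_
  rw [if_neg]
  rintro rfl
  exact hv (Finset.mem_image_of_mem _ (Finset.mem_univ i))

private theorem Geo_repr (B : Bases) (o : ℤ × ℤ) (j : ℤ) (t : Fin 6) (x : V B → ℝ)
    (h0 : ∀ v, 0 ≤ x v) (h1 : ∑ v, x v = 1) (hx : ∀ v, v ∉ tetV B o j t → x v = 0) :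
    IsWt (fun i => x (red B (vert B o j t i))) ∧
      x = rwt B o j t (fun i => x (red B (vert B o j t i))) := by
  have hinj := red_vert_injective B o j t
  refine ⟨⟨fun i => h0 _, ?_⟩, ?_⟩
  · rw [← h1, ← Finset.sum_subset (Finset.subset_univ (tetV B o j t)) (fun v _ hv => hx v hv)]
    unfold tetV
    rw [Finset.sum_image (fun a _ b _ hab => hinj hab)]
  · funext v
    rw [Geo_rwt_apply]
    by_cases hv : v ∈ tetV B o j t
    · obtain ⟨i, _, rfl⟩ := Finset.mem_image.mp hv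
      rw [Finset.sum_eq_single i]
      · rw [if_pos rfl]
      · intro k _ hk
        rw [if_neg]
        intro h
        exact hk (hinj h).symm
      · intro h
        exact absurd (Finset.mem_univ i) h
    · rw [hx v hv]
      symm
      refine Finset.sum_eq_zero fun i _ => ?_
      rw [if_neg]
      rintro rfl
      exact hv (Finset.mem_image_of_mem _ (Finset.mem_univ i))

private theorem Geo_space (B : Bases) :
    {x : V B → ℝ | (∀ v, 0 ≤ x v) ∧ ∑ v, x v = 1 ∧ ∃ s ∈ absFaces B, ∀ v, v ∉ s → x v = 0}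
      = RS B := by
  ext x
  constructor
  · rintro ⟨h0, h1, s, ⟨_, o, j, t, hst⟩, hs⟩
    obtain ⟨hw, hx⟩ := Geo_repr B o j t x h0 h1 (fun v hv => hs v (fun h => hv (hst h)))
    exact ⟨o, j, t, _, hw, hx⟩
  · rintro ⟨o, j, t, w, hw, rfl⟩
    exact ⟨Geo_rwt_nonneg B o j t w hw, Geo_rwt_sum B o j t w hw, _, Geo_tet_mem B o j t,
      Geo_rwt_supp B o j t w⟩

private theorem Geo_red_add (B : Bases) (v z : ℤ × ℤ × ℤ) (hz : IsPer B z) :
    red B (v + z) = red B v := by
  rw [red_eq_iff]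
  obtain ⟨h1, h2, h3⟩ := hz
  refine ⟨?_, ?_, ?_⟩
  · have : v.1 - (v + z).1 = - z.1 := by simp
    rw [this]; exact h1.neg_right
  · have : v.2.1 - (v + z).2.1 = - z.2.1 := by simp
    rw [this]; exact h2.neg_right
  · have : v.2.2 - (v + z).2.2 = - z.2.2 := by simp
    rw [this]; exact h3.neg_right

private theorem Geo_tetV_per (B : Bases) (z : ℤ × ℤ × ℤ) (hz : IsPer B z) (o : ℤ × ℤ) (j : ℤ)
    (t : Fin 6) :
    tetV B (o.1 + z.1, o.2 + z.2.1) (j + z.2.2) t = tetV B o j t := by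
  unfold tetV
  refine Finset.image_congr fun i _ => ?_
  show red B (vert B (o.1 + z.1, o.2 + z.2.1) (j + z.2.2) t i) = red B (vert B o j t i)
  rw [vert_per B z hz, Geo_red_add B _ z hz]

private theorem Geo_count (B : Bases) :
    {s ∈ absFaces B | s.card = 4}.ncard ≤ 54 * B.N := by
  have hsub : {s ∈ absFaces B | s.card = 4} ⊆
      ((((Finset.range 3 ×ˢ Finset.range 3) ×ˢ (Finset.range B.N)) ×ˢ
        (Finset.univ : Finset (Fin 6))).image
          (fun q => tetV B ((q.1.1.1 : ℤ), (q.1.1.2 : ℤ)) (q.1.2 : ℤ) q.2) : Finset (Finset (V B))) := by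
    rintro s ⟨⟨_, o, j, t, hst⟩, hs4⟩
    have hs : s = tetV B o j t := by
      refine Finset.eq_of_subset_of_card_le hst ?_
      rw [card_tetV, hs4]
    obtain ⟨a, b, c, z, ha, hb, hc, hz, ho, hj⟩ := exists_rep B o j
    rw [Finset.coe_image]
    refine ⟨(((a, b), c), t), ?_, ?_⟩
    · simp [ha, hb, hc]
    · rw [hs, ho, hj]
      exact (Geo_tetV_per B z hz ((a : ℤ), (b : ℤ)) (c : ℤ) t).symm
  refine (Set.ncard_le_ncard hsub (Finset.finite_toSet _)).trans ?_
  rw [Set.ncard_coe_finset]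
  refine Finset.card_image_le.trans ?_
  simp only [Finset.card_product, Finset.card_range, Finset.card_univ, Fintype.card_fin]
  omega

theorem geo (B : Bases) :
    ∃ (K : Geometry.SimplicialComplex ℝ (V B → ℝ)) (α : K.space ≃ₜ T3),
      K.faces.Finite ∧ (∀ s ∈ K.faces, ∃ t ∈ K.faces, s ⊆ t ∧ t.card = 4) ∧
      numTet K ≤ 54 * B.N ∧
      ∀ (o : ℤ × ℤ) (j : ℤ) (t : Fin 6), ∃ s ∈ K.faces, ∀ w : Fin 4 → ℝ, IsWt w →
        rwt B o j t w ∈ convexHull ℝ (s : Set (V B → ℝ)) ∧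
        ∀ z : K.space, z.1 = rwt B o j t w → α z = prB B (pt B o j t w) := by
  obtain ⟨K, hfin, hsp, hA, hK, hnum⟩ := std_exists (absFaces B) (Geo_ne B) (Geo_down B)
  obtain ⟨α0, hα0⟩ := exists_homeo B
  have hspace : K.space = RS B := by rw [hsp]; exact Geo_space B
  refine ⟨K, (Homeomorph.setCongr hspace).trans α0, hfin, ?_, ?_, ?_⟩
  · intro s hs
    obtain ⟨s', ⟨_, o, j, t, hst⟩, hs', _⟩ := hK s hs
    obtain ⟨f, hf, hf', hcard⟩ := hA _ (Geo_tet_mem B o j t)
    refine ⟨f, hf, ?_, ?_⟩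
    · rw [← Finset.coe_subset, hs', hf']
      exact Set.image_mono (Finset.coe_subset.mpr hst)
    · rw [hcard, card_tetV]
  · rw [hnum]
    exact Geo_count B
  · intro o j t
    obtain ⟨f, hf, hf', hcard⟩ := hA _ (Geo_tet_mem B o j t)
    refine ⟨f, hf, fun w hw => ⟨?_, ?_⟩⟩
    · rw [std_hull _ f hf']
      exact ⟨Geo_rwt_nonneg B o j t w hw, Geo_rwt_sum B o j t w hw, Geo_rwt_supp B o j t w⟩
    · intro z hz
      exact hα0 o j t w hw (Homeomorph.setCongr hspace z) hz

end MRX
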