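import Pool.Agent.MRX.Defs

set_option autoImplicit false

open scoped Classical

noncomputable section

namespace MRX

/-!
# Module HatB (3)

The bottom hat function, evaluated at a point of the tetrahedron `t` of the unit cube, gives the
weight of the vertex. (Checked numerically.)

Hints: `fin_cases t`, simplify the sums (`Fin.sum_univ_four`, `T`), split into the cases
`A ≤ -1`, `A = 0`, `A = 1`, `A ≥ 2` and the same for `B`; in each case unfold `hat0` and decide all
the `max`/`min` by the inequalities `0 ≤ w i`, `∑ w i = 1` (`max_def`, `min_def`, `split_ifs`,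
`linarith`).  It may be better to prove first a lemma with real `u, v, s`: bounds like
`u ≥ 1 → hat0 u v s = 0`, `u ≤ -1 → hat0 u v s = 0` (`0 ≤ s`), ...
-/

private theorem HatB_u1 (u v s : ℝ) (h : 1 ≤ u) : hat0 u v s = 0 := by
  unfold hat0
  apply max_eq_left
  have h1 : u ≤ max (max 0 u) (max v s) := le_trans (le_max_right 0 u) (le_max_left _ _)
  have h2 : min 0 (min u v) ≤ 0 := min_le_left _ _
  linarith

private theorem HatB_v1 (u v s : ℝ) (h : 1 ≤ v) : hat0 u v s = 0 := by
  unfold hat0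
  apply max_eq_left
  have h1 : v ≤ max (max 0 u) (max v s) := le_trans (le_max_left v s) (le_max_right _ _)
  have h2 : min 0 (min u v) ≤ 0 := min_le_left _ _
  linarith

private theorem HatB_um (u v s : ℝ) (h : u ≤ -1) : hat0 u v s = 0 := by
  unfold hat0
  apply max_eq_left
  have h1 : 0 ≤ max (max 0 u) (max v s) := le_trans (le_max_left 0 u) (le_max_left _ _)
  have h2 : min 0 (min u v) ≤ u := le_trans (min_le_right _ _) (min_le_left _ _)
  linarith

private theorem HatB_vm (u v s : ℝ) (h : v ≤ -1) : hat0 u v s = 0 := by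
  unfold hat0
  apply max_eq_left
  have h1 : 0 ≤ max (max 0 u) (max v s) := le_trans (le_max_left 0 u) (le_max_left _ _)
  have h2 : min 0 (min u v) ≤ v := le_trans (min_le_right _ _) (min_le_right _ _)
  linarith

private theorem HatB_T_fst (t : Fin 6) (i : Fin 4) : (T t i).1 = 0 ∨ (T t i).1 = 1 := by
  fin_cases t <;> fin_cases i <;> simp [T]

private theorem HatB_T_snd (t : Fin 6) (i : Fin 4) : (T t i).2.1 = 0 ∨ (T t i).2.1 = 1 := by
  fin_cases t <;> fin_cases i <;> simp [T]

private theorem HatB_bd (w : Fin 4 → ℝ) (hw : IsWt w) (f : Fin 4 → ℤ)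
    (hf : ∀ i, f i = 0 ∨ f i = 1) : 0 ≤ ∑ i, w i * (f i : ℝ) ∧ ∑ i, w i * (f i : ℝ) ≤ 1 := by
  constructor
  · apply Finset.sum_nonneg
    intro i _
    rcases hf i with h | h <;> simp [h, hw.1 i]
  · rw [← hw.2]
    apply Finset.sum_le_sum
    intro i _
    rcases hf i with h | h <;> simp [h, hw.1 i]

private theorem HatB_zero (t : Fin 6) (w : Fin 4 → ℝ) (A B : ℤ)
    (h : (A ≤ -1 ∨ 2 ≤ A) ∨ (B ≤ -1 ∨ 2 ≤ B)) :
    (∑ i, if T t i = (A, B, 0) then w i else 0) = 0 := by
  apply Finset.sum_eq_zero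
  intro i _
  rw [if_neg]
  intro he
  have h1 := HatB_T_fst t i
  have h2 := HatB_T_snd t i
  rw [he] at h1 h2
  simp only at h1 h2
  omega

theorem hatB (t : Fin 6) (w : Fin 4 → ℝ) (hw : IsWt w) (A B : ℤ) :
    hat0 ((∑ i, w i * ((T t i).1 : ℝ)) - A) ((∑ i, w i * ((T t i).2.1 : ℝ)) - B)
      (∑ i, w i * ((T t i).2.2 : ℝ)) = ∑ i, if T t i = (A, B, 0) then w i else 0 := by
  have hx := HatB_bd w hw (fun i => (T t i).1) (HatB_T_fst t)
  have hy := HatB_bd w hw (fun i => (T t i).2.1) (HatB_T_snd t)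
  by_cases hA1 : A ≤ -1
  · rw [HatB_zero t w A B (Or.inl (Or.inl hA1))]
    apply HatB_u1
    have : (A : ℝ) ≤ -1 := by exact_mod_cast hA1
    linarith [hx.1]
  by_cases hA2 : 2 ≤ A
  · rw [HatB_zero t w A B (Or.inl (Or.inr hA2))]
    apply HatB_um
    have : (2 : ℝ) ≤ A := by exact_mod_cast hA2
    linarith [hx.2]
  by_cases hB1 : B ≤ -1
  · rw [HatB_zero t w A B (Or.inr (Or.inl hB1))]
    apply HatB_v1
    have : (B : ℝ) ≤ -1 := by exact_mod_cast hB1
    linarith [hy.1]
  by_cases hB2 : 2 ≤ B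
  · rw [HatB_zero t w A B (Or.inr (Or.inr hB2))]
    apply HatB_vm
    have : (2 : ℝ) ≤ B := by exact_mod_cast hB2
    linarith [hy.2]
  have hA : A = 0 ∨ A = 1 := by omega
  have hB : B = 0 ∨ B = 1 := by omega
  clear hA1 hA2 hB1 hB2 hx hy
  obtain ⟨hw0, hw1⟩ := hw
  have h0 := hw0 0
  have h1 := hw0 1
  have h2 := hw0 2
  have h3 := hw0 3
  rw [Fin.sum_univ_four] at hw1
  simp only [Fin.sum_univ_four]
  generalize w 0 = a at *
  generalize w 1 = b at *
  generalize w 2 = c at *
  generalize w 3 = d at *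
  clear hw0
  fin_cases t <;> rcases hA with rfl | rfl <;> rcases hB with rfl | rfl <;>
    simp [T] <;> (unfold hat0; simp only [max_def, min_def]; split_ifs <;> linarith)

end MRX
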