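import Pool.Agent.MRX.Defs

set_option autoImplicit false

open scoped Classical

noncomputable section

namespace MRX

/-!
# Module HatT (3)

The top hat function, evaluated at a point of the tetrahedron `t` of the unit cube, gives the
weight of the vertex. (Checked numerically.)

Hints: `fin_cases t`, simplify the sums (`Fin.sum_univ_four`, `T`), split into the cases
`A ≤ -1`, `A = 0`, `A = 1`, `A ≥ 2` and the same for `B`; in each case unfold `hat1` and decide all
the `max`/`min` by the inequalities `0 ≤ w i`, `∑ w i = 1` (`max_def`, `min_def`, `split_ifs`,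
`linarith`).  It may be better to prove first a lemma with real `u, v, s`: bounds like
`u ≥ 1 → s ≤ 1 → hat1 u v s = 0`, `u ≤ -1 → hat1 u v s = 0`, ...
-/

theorem hatT_zero {u v s : ℝ} (h : s ≤ 0 ∨ s - u ≤ 0 ∨ s - v ≤ 0 ∨ s - u - v ≤ 0 ∨ 1 + u ≤ 0 ∨
    1 + v ≤ 0 ∨ 2 + u + v - s ≤ 0) : hat1 u v s = 0 := by
  unfold hat1
  apply max_eq_left
  rcases h with h | h | h | h | h | h | h
  · exact ((min_le_left _ _).trans ((min_le_left _ _).trans (min_le_left _ _))).trans h
  · exact ((min_le_left _ _).trans ((min_le_left _ _).trans (min_le_right _ _))).trans h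
  · exact ((min_le_left _ _).trans ((min_le_right _ _).trans (min_le_left _ _))).trans h
  · exact ((min_le_left _ _).trans ((min_le_right _ _).trans (min_le_right _ _))).trans h
  · exact ((min_le_right _ _).trans ((min_le_left _ _).trans (min_le_left _ _))).trans h
  · exact ((min_le_right _ _).trans ((min_le_left _ _).trans (min_le_right _ _))).trans h
  · exact ((min_le_right _ _).trans (min_le_right _ _)).trans h

theorem hatT_eq {u v s c : ℝ} (hc : 0 ≤ c) (h1 : c ≤ s) (h2 : c ≤ s - u) (h3 : c ≤ s - v)
    (h4 : c ≤ s - u - v) (h5 : c ≤ 1 + u) (h6 : c ≤ 1 + v) (h7 : c ≤ 2 + u + v - s)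
    (h : s ≤ c ∨ s - u ≤ c ∨ s - v ≤ c ∨ s - u - v ≤ c ∨ 1 + u ≤ c ∨
    1 + v ≤ c ∨ 2 + u + v - s ≤ c) : hat1 u v s = c := by
  unfold hat1
  apply le_antisymm
  · apply max_le hc
    rcases h with h | h | h | h | h | h | h
    · exact ((min_le_left _ _).trans ((min_le_left _ _).trans (min_le_left _ _))).trans h
    · exact ((min_le_left _ _).trans ((min_le_left _ _).trans (min_le_right _ _))).trans h
    · exact ((min_le_left _ _).trans ((min_le_right _ _).trans (min_le_left _ _))).trans h
    · exact ((min_le_left _ _).trans ((min_le_right _ _).trans (min_le_right _ _))).trans h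
    · exact ((min_le_right _ _).trans ((min_le_left _ _).trans (min_le_left _ _))).trans h
    · exact ((min_le_right _ _).trans ((min_le_left _ _).trans (min_le_right _ _))).trans h
    · exact ((min_le_right _ _).trans (min_le_right _ _)).trans h
  · exact le_max_of_le_right (le_min (le_min (le_min h1 h2) (le_min h3 h4))
      (le_min (le_min h5 h6) h7))

theorem hatT (t : Fin 6) (w : Fin 4 → ℝ) (hw : IsWt w) (A B : ℤ) :
    hat1 ((∑ i, w i * ((T t i).1 : ℝ)) - A) ((∑ i, w i * ((T t i).2.1 : ℝ)) - B)
      (∑ i, w i * ((T t i).2.2 : ℝ)) = ∑ i, if T t i = (A, B, 1) then w i else 0 := by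
  have h0 := hw.1 0
  have h1 := hw.1 1
  have h2 := hw.1 2
  have h3 := hw.1 3
  have hs := hw.2
  rw [Fin.sum_univ_four] at hs
  have hbound : ∀ (t : Fin 6) (i : Fin 4), (T t i).1 = 0 ∨ (T t i).1 = 1 := by
    intro t i
    fin_cases t <;> fin_cases i <;> simp [T]
  have hbound' : ∀ (t : Fin 6) (i : Fin 4), (T t i).2.1 = 0 ∨ (T t i).2.1 = 1 := by
    intro t i
    fin_cases t <;> fin_cases i <;> simp [T]
  by_cases hAB : (A = 0 ∨ A = 1) ∧ (B = 0 ∨ B = 1)
  · obtain ⟨hA, hB⟩ := hAB
    simp only [Fin.sum_univ_four]
    rcases hA with rfl | rfl <;> rcases hB with rfl | rfl <;> fin_cases t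
    all_goals
      simp [T]
    all_goals
      first
      | exact hatT_zero (Or.inl (by linarith))
      | exact hatT_zero (Or.inr (Or.inl (by linarith)))
      | exact hatT_zero (Or.inr (Or.inr (Or.inl (by linarith))))
      | exact hatT_zero (Or.inr (Or.inr (Or.inr (Or.inl (by linarith)))))
      | exact hatT_zero (Or.inr (Or.inr (Or.inr (Or.inr (Or.inl (by linarith))))))
      | exact hatT_zero (Or.inr (Or.inr (Or.inr (Or.inr (Or.inr (Or.inl (by linarith)))))))
      | exact hatT_zero (Or.inr (Or.inr (Or.inr (Or.inr (Or.inr (Or.inr ((by linarith))))))))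
      | exact hatT_eq (by linarith) (by linarith) (by linarith) (by linarith) (by linarith)
          (by linarith) (by linarith) (by linarith) (Or.inl (by linarith))
      | exact hatT_eq (by linarith) (by linarith) (by linarith) (by linarith) (by linarith)
          (by linarith) (by linarith) (by linarith) (Or.inr (Or.inl (by linarith)))
      | exact hatT_eq (by linarith) (by linarith) (by linarith) (by linarith) (by linarith)
          (by linarith) (by linarith) (by linarith) (Or.inr (Or.inr (Or.inl (by linarith))))
      | exact hatT_eq (by linarith) (by linarith) (by linarith) (by linarith) (by linarith)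
          (by linarith) (by linarith) (by linarith) (Or.inr (Or.inr (Or.inr (Or.inl (by linarith)))))
      | exact hatT_eq (by linarith) (by linarith) (by linarith) (by linarith) (by linarith)
          (by linarith) (by linarith) (by linarith) (Or.inr (Or.inr (Or.inr (Or.inr (Or.inl (by linarith))))))
      | exact hatT_eq (by linarith) (by linarith) (by linarith) (by linarith) (by linarith)
          (by linarith) (by linarith) (by linarith) (Or.inr (Or.inr (Or.inr (Or.inr (Or.inr (Or.inl (by linarith)))))))
      | exact hatT_eq (by linarith) (by linarith) (by linarith) (by linarith) (by linarith)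
          (by linarith) (by linarith) (by linarith) (Or.inr (Or.inr (Or.inr (Or.inr (Or.inr (Or.inr ((by linarith))))))))
  · have hR : ∑ i, (if T t i = (A, B, 1) then w i else 0) = 0 := by
      apply Finset.sum_eq_zero
      intro i _
      rw [if_neg]
      intro h
      apply hAB
      have e1 : (T t i).1 = A := by rw [h]
      have e2 : (T t i).2.1 = B := by rw [h]
      rw [← e1, ← e2]
      exact ⟨hbound t i, hbound' t i⟩
    rw [hR]
    have ha : 0 ≤ ∑ i, w i * ((T t i).1 : ℝ) ∧ ∑ i, w i * ((T t i).1 : ℝ) ≤ 1 := by
      constructor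
      · apply Finset.sum_nonneg
        intro i _
        rcases hbound t i with h | h <;> rw [h] <;> simp [hw.1 i]
      · rw [← hw.2]
        apply Finset.sum_le_sum
        intro i _
        rcases hbound t i with h | h <;> rw [h] <;> simp [hw.1 i]
    have hb : 0 ≤ ∑ i, w i * ((T t i).2.1 : ℝ) ∧ ∑ i, w i * ((T t i).2.1 : ℝ) ≤ 1 := by
      constructor
      · apply Finset.sum_nonneg
        intro i _
        rcases hbound' t i with h | h <;> rw [h] <;> simp [hw.1 i]
      · rw [← hw.2]
        apply Finset.sum_le_sum
        intro i _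
        rcases hbound' t i with h | h <;> rw [h] <;> simp [hw.1 i]
    have hbound2 : ∀ (t : Fin 6) (i : Fin 4), (T t i).2.2 = 0 ∨ (T t i).2.2 = 1 := by
      intro t i
      fin_cases t <;> fin_cases i <;> simp [T]
    have hss : ∑ i, w i * ((T t i).2.2 : ℝ) ≤ 1 := by
      rw [← hw.2]
      apply Finset.sum_le_sum
      intro i _
      rcases hbound2 t i with h | h <;> rw [h] <;> simp [hw.1 i]
    obtain ⟨ha0, ha1⟩ := ha
    obtain ⟨hb0, hb1⟩ := hb
    generalize ∑ i, w i * ((T t i).1 : ℝ) = a at *
    generalize ∑ i, w i * ((T t i).2.1 : ℝ) = b at *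
    generalize ∑ i, w i * ((T t i).2.2 : ℝ) = s at *
    apply hatT_zero
    have hc : A ≤ -1 ∨ 2 ≤ A ∨ B ≤ -1 ∨ 2 ≤ B := by omega
    rcases hc with h | h | h | h
    · have h' : (A : ℝ) ≤ -1 := by exact_mod_cast h
      right; left; linarith
    · have h' : (2 : ℝ) ≤ A := by exact_mod_cast h
      right; right; right; right; left; linarith
    · have h' : (B : ℝ) ≤ -1 := by exact_mod_cast h
      right; right; left; linarith
    · have h' : (2 : ℝ) ≤ B := by exact_mod_cast h
      right; right; right; right; right; left; linarith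

end MRX
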