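import Pool.Agent.MRX.Defs

set_option autoImplicit false

open scoped Classical

noncomputable section

namespace MRX

/-!
# Module Iso (4)

A simplicial isomorphism of finite geometric complexes induces a homeomorphism of the underlying
spaces, affine on every simplex.

Route: (1) barycentric coordinates in a complex are unique: if `x = ∑ v ∈ s, w v • v` with `s` a
face, `w ≥ 0`, `∑ v ∈ s, w v = 1`, `w = 0` off `s`, and the same for `s', w'`, then `w = w'`
(use `K.inter_subset_convexHull` and `K.indep`).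
(2) `Ψ x = ∑ v ∈ s, w v • φ v`, well defined by (1), continuous on every closed simplex (the
barycentric coordinates of an affinely independent family are continuous, finite dimension), and
the simplices form a finite closed cover.  (3) the same for the inverse of `φ` on the vertices,
or a continuous bijection from a compact space to a Hausdorff space.
-/

private theorem Iso_uniq {κ : Type*} (K : Geometry.SimplicialComplex ℝ (κ → ℝ))
    {s : Finset (κ → ℝ)} (hs : s ∈ K.faces) {w w' : (κ → ℝ) → ℝ}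
    (h1 : ∑ v ∈ s, w v = ∑ v ∈ s, w' v) (h2 : ∑ v ∈ s, w v • v = ∑ v ∈ s, w' v • v) :
    ∀ v ∈ s, w v = w' v := by
  have hi := K.indep hs
  rw [affineIndependent_iff] at hi
  have e1 : ∑ v : s, (w v.1 - w' v.1) = 0 := by
    rw [Finset.sum_coe_sort s (fun v => w v - w' v), Finset.sum_sub_distrib, h1, sub_self]
  have e2 : ∑ v : s, (w v.1 - w' v.1) • (v.1 : κ → ℝ) = 0 := by
    rw [Finset.sum_coe_sort s (fun v => (w v - w' v) • v)]
    simp only [sub_smul, Finset.sum_sub_distrib]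
    rw [h2, sub_self]
  intro v hv
  have := hi Finset.univ (fun v => w v.1 - w' v.1) e1 e2 ⟨v, hv⟩ (Finset.mem_univ _)
  simpa [sub_eq_zero] using this

/-- two representations of the same point give the same value of any affine extension -/
private theorem Iso_wd {κ ι : Type*} (K : Geometry.SimplicialComplex ℝ (κ → ℝ))
    (φ : (κ → ℝ) → (ι → ℝ)) {s s' : Finset (κ → ℝ)} (hs : s ∈ K.faces) (hs' : s' ∈ K.faces)
    {w w' : (κ → ℝ) → ℝ} (w0 : ∀ v ∈ s, 0 ≤ w v) (w1 : ∑ v ∈ s, w v = 1)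
    (w0' : ∀ v ∈ s', 0 ≤ w' v) (w1' : ∑ v ∈ s', w' v = 1)
    (h2 : ∑ v ∈ s, w v • v = ∑ v ∈ s', w' v • v) :
    ∑ v ∈ s, w v • φ v = ∑ v ∈ s', w' v • φ v := by
  have hx : (∑ v ∈ s, w v • v) ∈ convexHull ℝ (s : Set (κ → ℝ)) := by
    rw [Finset.mem_convexHull']
    exact ⟨w, w0, w1, rfl⟩
  have hx' : (∑ v ∈ s, w v • v) ∈ convexHull ℝ (s' : Set (κ → ℝ)) := by
    rw [h2, Finset.mem_convexHull']
    exact ⟨w', w0', w1', rfl⟩
  have hxx := K.inter_subset_convexHull hs hs' ⟨hx, hx'⟩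
  rw [← Finset.coe_inter, Finset.mem_convexHull'] at hxx
  obtain ⟨u, _, u1, u2⟩ := hxx
  -- extend u by zero
  have key : ∀ r : Finset (κ → ℝ), r ∈ K.faces → s ∩ s' ⊆ r → ∀ q : (κ → ℝ) → ℝ, ∑ v ∈ r, q v = 1 →
      ∑ v ∈ r, q v • v = ∑ v ∈ s, w v • v → ∑ v ∈ r, q v • φ v = ∑ v ∈ s ∩ s', u v • φ v := by
    intro r hr hsub q q1 q2
    have e1 : ∑ v ∈ r, (if v ∈ s ∩ s' then u v else 0) = 1 := by
      rw [Finset.sum_ite_mem, Finset.inter_eq_right.2 hsub, u1]
    have e3 : ∀ f : (κ → ℝ) → (κ → ℝ), ∑ v ∈ r, (if v ∈ s ∩ s' then u v else 0) • f v =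
        ∑ v ∈ s ∩ s', u v • f v := by
      intro f
      simp only [ite_smul, zero_smul]
      rw [Finset.sum_ite_mem, Finset.inter_eq_right.2 hsub]
    have e4 : ∀ f : (κ → ℝ) → (ι → ℝ), ∑ v ∈ r, (if v ∈ s ∩ s' then u v else 0) • f v =
        ∑ v ∈ s ∩ s', u v • f v := by
      intro f
      simp only [ite_smul, zero_smul]
      rw [Finset.sum_ite_mem, Finset.inter_eq_right.2 hsub]
    have := Iso_uniq K hr (w := q) (w' := fun v => if v ∈ s ∩ s' then u v else 0)
      (by rw [q1, e1]) (by rw [q2]; exact ((e3 (fun v => v)).trans u2).symm)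
    rw [← e4]
    exact Finset.sum_congr rfl fun v hv => by rw [this v hv]
  rw [key s hs Finset.inter_subset_left w w1 rfl, key s' hs' Finset.inter_subset_right w' w1' h2.symm]

/-- the piecewise affine extension of a vertex map -/
private theorem Iso_map {κ ι : Type*} [Fintype κ] [Fintype ι]
    (K : Geometry.SimplicialComplex ℝ (κ → ℝ)) (K' : Geometry.SimplicialComplex ℝ (ι → ℝ))
    (hK : K.faces.Finite) (φ : (κ → ℝ) → (ι → ℝ)) (h : ∀ s ∈ K.faces, s.image φ ∈ K'.faces) :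
    ∃ F : K.space → K'.space, Continuous F ∧ ∀ s ∈ K.faces, ∀ w : (κ → ℝ) → ℝ,
      (∀ v ∈ s, 0 ≤ w v) → ∑ v ∈ s, w v = 1 → ∀ x : K.space, x.1 = ∑ v ∈ s, w v • v →
      (F x).1 = ∑ v ∈ s, w v • φ v := by
  have hfin : Finite {s // s ∈ K.faces} := hK
  -- the disjoint union of the simplices
  let Q : Type _ := Σ s : {s // s ∈ K.faces}, stdSimplex ℝ {v // v ∈ s.1}
  have hmem : ∀ p : Q, (∑ v : {v // v ∈ p.1.1}, p.2.1 v • v.1) ∈ K.space := by
    intro p
    refine K.convexHull_subset_space p.1.2 ?_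
    have hc := convex_convexHull ℝ (p.1.1 : Set (κ → ℝ))
    exact hc.sum_mem (fun v _ => p.2.2.1 v) p.2.2.2
      (fun v _ => subset_convexHull ℝ _ v.2)
  have hmem' : ∀ p : Q, (∑ v : {v // v ∈ p.1.1}, p.2.1 v • φ v.1) ∈ K'.space := by
    intro p
    refine K'.convexHull_subset_space (h _ p.1.2) ?_
    have hc := convex_convexHull ℝ ((p.1.1.image φ : Finset (ι → ℝ)) : Set (ι → ℝ))
    exact hc.sum_mem (fun v _ => p.2.2.1 v) p.2.2.2
      (fun v _ => subset_convexHull ℝ _ (by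
        rw [Finset.mem_coe]; exact Finset.mem_image_of_mem φ v.2))
  let q : Q → K.space := fun p => ⟨_, hmem p⟩
  let f : Q → K'.space := fun p => ⟨_, hmem' p⟩
  have hq : Continuous q := by
    refine Continuous.subtype_mk ?_ _
    refine continuous_sigma fun s => ?_
    show Continuous fun a : stdSimplex ℝ {v // v ∈ s.1} => ∑ v : {v // v ∈ s.1}, a.1 v • v.1
    refine continuous_finsetSum _ fun v _ => ?_
    exact ((continuous_apply v).comp continuous_subtype_val).smul continuous_const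
  have hf : Continuous f := by
    refine Continuous.subtype_mk ?_ _
    refine continuous_sigma fun s => ?_
    show Continuous fun a : stdSimplex ℝ {v // v ∈ s.1} => ∑ v : {v // v ∈ s.1}, a.1 v • φ v.1
    refine continuous_finsetSum _ fun v _ => ?_
    exact ((continuous_apply v).comp continuous_subtype_val).smul continuous_const
  -- points of Q from weights
  have hpt : ∀ s (hs : s ∈ K.faces) (w : (κ → ℝ) → ℝ), (∀ v ∈ s, 0 ≤ w v) → ∑ v ∈ s, w v = 1 →
      ∃ p : Q, (q p).1 = ∑ v ∈ s, w v • v ∧ (f p).1 = ∑ v ∈ s, w v • φ v := by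
    intro s hs w w0 w1
    refine ⟨⟨⟨s, hs⟩, ⟨fun v => w v.1, fun v => w0 _ v.2, ?_⟩⟩, ?_, ?_⟩
    · rw [Finset.sum_coe_sort s w]; exact w1
    · exact Finset.sum_coe_sort s (fun v => w v • v)
    · exact Finset.sum_coe_sort s (fun v => w v • φ v)
  have hsurj : Function.Surjective q := by
    intro x
    obtain ⟨s, hs, hx⟩ := Geometry.SimplicialComplex.mem_space_iff.1 x.2
    rw [Finset.mem_convexHull'] at hx
    obtain ⟨w, w0, w1, w2⟩ := hx
    obtain ⟨p, hp, _⟩ := hpt s hs w w0 w1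
    exact ⟨p, Subtype.ext (hp.trans w2)⟩
  -- the fibres of q
  have hwt : ∀ p : Q, ∃ w : (κ → ℝ) → ℝ, (∀ v ∈ p.1.1, 0 ≤ w v) ∧ ∑ v ∈ p.1.1, w v = 1 ∧
      (q p).1 = ∑ v ∈ p.1.1, w v • v ∧ (f p).1 = ∑ v ∈ p.1.1, w v • φ v := by
    intro p
    have hw : ∀ v : {v // v ∈ p.1.1}, (fun v => if hv : v ∈ p.1.1 then p.2.1 ⟨v, hv⟩ else 0) v.1 =
        p.2.1 v := by
      intro v
      simp only [v.2, dif_pos]
    refine ⟨fun v => if hv : v ∈ p.1.1 then p.2.1 ⟨v, hv⟩ else 0, ?_, ?_, ?_, ?_⟩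
    · intro v hv
      simp only [hv, dif_pos]
      exact p.2.2.1 _
    · rw [← Finset.sum_coe_sort]
      rw [Finset.sum_congr rfl fun v _ => hw v]
      exact p.2.2.2
    · rw [← Finset.sum_coe_sort p.1.1 (fun v => (if hv : v ∈ p.1.1 then p.2.1 ⟨v, hv⟩ else 0) • v)]
      exact Finset.sum_congr rfl fun v _ => congrArg (· • v.1) (hw v).symm
    · rw [← Finset.sum_coe_sort p.1.1 (fun v => (if hv : v ∈ p.1.1 then p.2.1 ⟨v, hv⟩ else 0) • φ v)]
      exact Finset.sum_congr rfl fun v _ => congrArg (· • φ v.1) (hw v).symm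
  have hfib : ∀ p p' : Q, q p = q p' → f p = f p' := by
    intro p p' hpp
    obtain ⟨w, w0, w1, w2, w3⟩ := hwt p
    obtain ⟨w', w0', w1', w2', w3'⟩ := hwt p'
    apply Subtype.ext
    rw [w3, w3']
    refine Iso_wd K φ p.1.2 p'.1.2 w0 w1 w0' w1' ?_
    rw [← w2, ← w2', hpp]
  let F : K.space → K'.space := fun x => f (Classical.choose (hsurj x))
  have hF : ∀ p, F (q p) = f p := fun p => hfib _ _ (Classical.choose_spec (hsurj (q p)))
  have hFq : F ∘ q = f := funext hF
  have hcomp : ∀ s : {s // s ∈ K.faces}, CompactSpace (stdSimplex ℝ {v // v ∈ s.1}) := fun s =>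
    isCompact_iff_compactSpace.1 (isCompact_stdSimplex ℝ _)
  have hQ : CompactSpace Q := inferInstanceAs (CompactSpace (Σ s : {s // s ∈ K.faces}, stdSimplex ℝ {v // v ∈ s.1}))
  have hquot : Topology.IsQuotientMap q := hq.isClosedMap.isQuotientMap hq hsurj
  refine ⟨F, hquot.continuous_iff.2 (by rw [hFq]; exact hf), ?_⟩
  intro s hs w w0 w1 x hx
  obtain ⟨p, hp, hp'⟩ := hpt s hs w w0 w1
  have : x = q p := Subtype.ext (hx.trans hp.symm)
  rw [this, hF, hp']

/-- A simplicial isomorphism induces a piecewise affine homeomorphism. -/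
theorem iso_homeo {κ ι : Type*} [Fintype κ] [Fintype ι]
    (R : Geometry.SimplicialComplex ℝ (κ → ℝ)) (R' : Geometry.SimplicialComplex ℝ (ι → ℝ))
    (hR : R.faces.Finite) (hR' : R'.faces.Finite) (h : SimplicialIso R R') :
    ∃ Ψ : R.space ≃ₜ R'.space, ∀ s ∈ R.faces, ∃ s' ∈ R'.faces,
      (∀ x : R.space, x.1 ∈ convexHull ℝ (s : Set (κ → ℝ)) →
        (Ψ x).1 ∈ convexHull ℝ (s' : Set (ι → ℝ))) ∧
      (∀ x y z : R.space, x.1 ∈ convexHull ℝ (s : Set (κ → ℝ)) →
        y.1 ∈ convexHull ℝ (s : Set (κ → ℝ)) → ∀ t : ℝ, 0 ≤ t → t ≤ 1 →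
        z.1 = (1 - t) • x.1 + t • y.1 → (Ψ z).1 = (1 - t) • (Ψ x).1 + t • (Ψ y).1) := by
  obtain ⟨φ, hφ, hfaces0⟩ := h
  have hfaces : R'.faces = (fun s : Finset (κ → ℝ) => s.image φ) '' R.faces := by
    refine hfaces0.trans ?_
    apply congrArg (fun g : Finset (κ → ℝ) → Finset (ι → ℝ) => g '' R.faces)
    funext s
    ext x
    simp only [Finset.mem_image]
  have h1 : ∀ s ∈ R.faces, s.image φ ∈ R'.faces := fun s hs => by
    rw [hfaces]; exact ⟨s, hs, rfl⟩
  have hvert : ∀ s ∈ R.faces, (s : Set (κ → ℝ)) ⊆ R.vertices := by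
    intro s hs v hv
    exact Geometry.SimplicialComplex.mem_vertices.2 (R.down_closed hs (Finset.singleton_subset_iff.2 hv) (Finset.singleton_nonempty v))
  set ψ := Function.invFunOn φ R.vertices with hψ
  have hψφ : ∀ v ∈ R.vertices, ψ (φ v) = v := fun v hv => hφ.leftInvOn_invFunOn hv
  have h2 : ∀ s' ∈ R'.faces, s'.image ψ ∈ R.faces := by
    intro s' hs'
    rw [hfaces] at hs'
    obtain ⟨s, hs, rfl⟩ := hs'
    show (s.image φ).image ψ ∈ R.faces
    have : (s.image φ).image ψ = s := by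
      rw [Finset.image_image]
      conv_rhs => rw [← Finset.image_id (s := s)]
      exact Finset.image_congr fun v hv => hψφ v (hvert s hs hv)
    rw [this]
    exact hs
  obtain ⟨F, hF, hFw⟩ := Iso_map R R' hR φ h1
  obtain ⟨G, hG, hGw⟩ := Iso_map R' R hR' ψ h2
  have hinj : ∀ s ∈ R.faces, Set.InjOn φ (s : Set (κ → ℝ)) := fun s hs => hφ.mono (hvert s hs)
  have hGF : ∀ x, G (F x) = x := by
    intro x
    obtain ⟨s, hs, hx⟩ := Geometry.SimplicialComplex.mem_space_iff.1 x.2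
    rw [Finset.mem_convexHull'] at hx
    obtain ⟨w, w0, w1, w2⟩ := hx
    have e1 := hFw s hs w w0 w1 x w2.symm
    have e2 : ∑ v' ∈ s.image φ, w (ψ v') • v' = ∑ v ∈ s, w v • φ v := by
      rw [Finset.sum_image (hinj s hs)]
      exact Finset.sum_congr rfl fun v hv => by rw [hψφ v (hvert s hs hv)]
    have e3 : ∑ v' ∈ s.image φ, w (ψ v') = 1 := by
      rw [Finset.sum_image (hinj s hs), ← w1]
      exact Finset.sum_congr rfl fun v hv => by rw [hψφ v (hvert s hs hv)]
    have e4 := hGw (s.image φ) (h1 s hs) (fun v' => w (ψ v')) (by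
      intro v' hv'
      obtain ⟨v, hv, rfl⟩ := Finset.mem_image.1 hv'
      simp only [hψφ v (hvert s hs hv)]
      exact w0 v hv) e3 (F x) (by rw [e1, ← e2])
    apply Subtype.ext
    rw [e4, Finset.sum_image (hinj s hs), ← w2]
    exact Finset.sum_congr rfl fun v hv => by rw [hψφ v (hvert s hs hv)]
  have hFG : ∀ y, F (G y) = y := by
    intro y
    obtain ⟨s', hs', hy⟩ := Geometry.SimplicialComplex.mem_space_iff.1 y.2
    rw [Finset.mem_convexHull'] at hy
    obtain ⟨w', w0, w1, w2⟩ := hy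
    have e1 := hGw s' hs' w' w0 w1 y w2.symm
    have hs'2 := hs'
    rw [hfaces] at hs'2
    obtain ⟨s, hs, rfl⟩ := hs'2
    simp only [] at e1 w1 w2 w0
    rw [Finset.sum_image (hinj s hs)] at e1 w1 w2
    have e2 := hFw s hs (fun v => w' (φ v)) (fun v hv => w0 _ (Finset.mem_image_of_mem φ hv)) w1 (G y)
      (by rw [e1]; exact Finset.sum_congr rfl fun v hv => by rw [hψφ v (hvert s hs hv)])
    apply Subtype.ext
    rw [e2, ← w2]
  refine ⟨⟨⟨F, G, hGF, hFG⟩, hF, hG⟩, ?_⟩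
  intro s hs
  refine ⟨s.image φ, h1 s hs, ?_, ?_⟩
  · intro x hx
    rw [Finset.mem_convexHull'] at hx
    obtain ⟨w, w0, w1, w2⟩ := hx
    show (F x).1 ∈ _
    rw [hFw s hs w w0 w1 x w2.symm]
    exact (convex_convexHull ℝ _).sum_mem w0 w1 (fun v hv => subset_convexHull ℝ _ (by
      rw [Finset.mem_coe]; exact Finset.mem_image_of_mem φ hv))
  · intro x y z hx hy t t0 t1 hz
    rw [Finset.mem_convexHull'] at hx hy
    obtain ⟨w, w0, w1, w2⟩ := hx
    obtain ⟨u, u0, u1, u2⟩ := hy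
    show (F z).1 = (1 - t) • (F x).1 + t • (F y).1
    rw [hFw s hs w w0 w1 x w2.symm, hFw s hs u u0 u1 y u2.symm]
    rw [hFw s hs (fun v => (1 - t) * w v + t * u v) ?_ ?_ z ?_]
    · rw [Finset.smul_sum, Finset.smul_sum, ← Finset.sum_add_distrib]
      exact Finset.sum_congr rfl fun v _ => by rw [add_smul, mul_smul, mul_smul]
    · intro v hv
      have := w0 v hv
      have := u0 v hv
      have : 0 ≤ 1 - t := by linarith
      positivity
    · rw [Finset.sum_add_distrib, ← Finset.mul_sum, ← Finset.mul_sum, w1, u1]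
      ring
    · rw [hz, ← w2, ← u2, Finset.smul_sum, Finset.smul_sum, ← Finset.sum_add_distrib]
      exact Finset.sum_congr rfl fun v _ => by rw [add_smul, mul_smul, mul_smul]

end MRX
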