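import Pool.Agent.MRX.Defs

set_option autoImplicit false

open scoped Classical

noncomputable section

namespace MRX

/-!
# Module Lvl (2)

Hat functions at the two levels of a layer, and compatibility of consecutive layers.

`hat0 u v 0 = max 0 (1 - max(|u|,|v|,|u-v|))`, `hat1 u v 1 = max 0 (1 - max(|u|,|v|,|u+v|))`;
under `Adj` the coordinates transform by `(u,v) ↦ (v, u+v)`, `(-u, v)`, `(-u-v, -u)`, and the
determinant changes by the sign `det p' r' = ± det p r` (`-1, -1, 1`: compute).
-/

theorem hat0_one (u v : ℝ) : hat0 u v 1 = 0 := by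
  unfold hat0
  apply max_eq_left
  have h1 : (1 : ℝ) ≤ max (max 0 u) (max v 1) := le_max_of_le_right (le_max_right _ _)
  have h2 : min 0 (min u v) ≤ 0 := min_le_left _ _
  linarith

theorem hat1_zero (u v : ℝ) : hat1 u v 0 = 0 := by
  unfold hat1
  apply max_eq_left
  exact (min_le_left _ _).trans ((min_le_left _ _).trans (min_le_left _ _))

private theorem Lvl_key (u v a b : ℝ)
    (h : (a = v ∧ b = u + v) ∨ (a = -u ∧ b = v) ∨ (a = -u - v ∧ b = -u)) :
    hat1 u v 1 = hat0 a b 0 := by
  unfold hat1 hat0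
  congr 1
  have m1 : (0 : ℝ) ≤ max (max 0 a) (max b 0) := le_max_of_le_right (le_max_right _ _)
  have m2 : a ≤ max (max 0 a) (max b 0) := le_max_of_le_left (le_max_right _ _)
  have m3 : b ≤ max (max 0 a) (max b 0) := le_max_of_le_right (le_max_left _ _)
  have n1 : min 0 (min a b) ≤ 0 := min_le_left _ _
  have n2 : min 0 (min a b) ≤ a := (min_le_right _ _).trans (min_le_left _ _)
  have n3 : min 0 (min a b) ≤ b := (min_le_right _ _).trans (min_le_right _ _)
  apply le_antisymm
  · set L := min (min (min 1 (1 - u)) (min (1 - v) (1 - u - v)))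
      (min (min (1 + u) (1 + v)) (2 + u + v - 1)) with hL
    have l1 : L ≤ 1 := (min_le_left _ _).trans ((min_le_left _ _).trans (min_le_left _ _))
    have l2 : L ≤ 1 - u := (min_le_left _ _).trans ((min_le_left _ _).trans (min_le_right _ _))
    have l3 : L ≤ 1 - v := (min_le_left _ _).trans ((min_le_right _ _).trans (min_le_left _ _))
    have l4 : L ≤ 1 - u - v := (min_le_left _ _).trans ((min_le_right _ _).trans (min_le_right _ _))
    have l5 : L ≤ 1 + u := (min_le_right _ _).trans ((min_le_left _ _).trans (min_le_left _ _))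
    have l6 : L ≤ 1 + v := (min_le_right _ _).trans ((min_le_left _ _).trans (min_le_right _ _))
    have l7 : L ≤ 2 + u + v - 1 := (min_le_right _ _).trans (min_le_right _ _)
    have key : ∀ c : ℝ, (c = 0 ∨ c = a ∨ c = b) → c - 1 + L ≤ min 0 (min a b) := by
      intro c hc
      refine le_min ?_ (le_min ?_ ?_)
      · rcases h with ⟨rfl, rfl⟩ | ⟨rfl, rfl⟩ | ⟨rfl, rfl⟩ <;>
          rcases hc with rfl | rfl | rfl <;> linarith
      · rcases h with ⟨rfl, rfl⟩ | ⟨rfl, rfl⟩ | ⟨rfl, rfl⟩ <;>
          rcases hc with rfl | rfl | rfl <;> linarith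
      · rcases h with ⟨rfl, rfl⟩ | ⟨rfl, rfl⟩ | ⟨rfl, rfl⟩ <;>
          rcases hc with rfl | rfl | rfl <;> linarith
    have hM : max (max 0 a) (max b 0) ≤ 1 - L + min 0 (min a b) := by
      refine max_le (max_le ?_ ?_) (max_le ?_ ?_)
      · have := key 0 (Or.inl rfl)
        linarith
      · have := key a (Or.inr (Or.inl rfl))
        linarith
      · have := key b (Or.inr (Or.inr rfl))
        linarith
      · have := key 0 (Or.inl rfl)
        linarith
    linarith
  · refine le_min (le_min (le_min ?_ ?_) (le_min ?_ ?_)) (le_min (le_min ?_ ?_) ?_) <;>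
      rcases h with ⟨ha, hb⟩ | ⟨ha, hb⟩ | ⟨ha, hb⟩ <;> linarith

theorem hat_level (B : Bases) (j : ℤ) (x y : ℝ) :
    hat1 (cu B j x y) (cv B j x y) 1 = hat0 (cu B (j + 1) x y) (cv B (j + 1) x y) 0 := by
  apply Lvl_key
  rcases B.hadj j with ⟨h1, h2⟩ | ⟨h1, h2⟩ | ⟨h1, h2⟩
  · left
    unfold cu cv det
    rw [h1, h2]
    simp only [Prod.fst_sub, Prod.snd_sub]
    push_cast
    constructor <;> ring
  · right
    left
    unfold cu cv det
    rw [h1, h2]
    simp only [Prod.fst_neg, Prod.snd_neg]
    push_cast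
    constructor <;> ring
  · right
    right
    unfold cu cv det
    rw [h1, h2]
    simp only [Prod.fst_sub, Prod.snd_sub, Prod.fst_neg, Prod.snd_neg]
    push_cast
    constructor <;> ring

end MRX
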