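import Pool.Agent.MRX.Ari

set_option autoImplicit false

open scoped Classical

noncomputable section

namespace MRX

/-!
# Module Seq (2)

The periodic sequence of bases: `N = 2 M`, `M = n + 2`, and for `i = j mod N`:
* `i < M`: `p = Pv (i + 1)`, `r = Pv i`;
* `M ≤ i`: with `k = N - 1 - i`: `p = - Pv (k + 1)`, `r = Pv k`.

`Adj` at `i → i + 1`: for `i + 1 < M`: `p' = Pv (i + 2) = r - p`, `r' = p` (first case);
`i = M - 1`: `p' = -p`, `r' = r` (second case); `M ≤ i`, `i + 1 < N`: `k' = k - 1`,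
`p' = - Pv k = -r`, `r' = Pv (k - 1) = Pv (k + 1) + Pv k = r - p` (third case);
`i = N - 1` (`k = 0`): `p' = -p`, `r' = r` (second case).
-/

/-- first vectors, indexed by naturals -/
private def seqP (M i : ℕ) : ℤ × ℤ := if i < M then Pv (i + 1) else - Pv (2 * M - 1 - i + 1)

/-- second vectors, indexed by naturals -/
private def seqR (M i : ℕ) : ℤ × ℤ := if i < M then Pv i else Pv (2 * M - 1 - i)

private theorem seq_det (M i : ℕ) : det (seqP M i) (seqR M i) = 1 ∨ det (seqP M i) (seqR M i) = -1 := by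
  unfold seqP seqR
  split_ifs with h
  · exact Pv_det i
  · have := Pv_det (2 * M - 1 - i)
    have h2 : det (-Pv (2 * M - 1 - i + 1)) (Pv (2 * M - 1 - i))
        = - det (Pv (2 * M - 1 - i + 1)) (Pv (2 * M - 1 - i)) := by
      simp only [det, Prod.fst_neg, Prod.snd_neg]; ring
    rw [h2]
    rcases this with h | h <;> rw [h] <;> simp

private theorem seqP_lt (M i : ℕ) (h : i < M) : seqP M i = Pv (i + 1) := if_pos h
private theorem seqR_lt (M i : ℕ) (h : i < M) : seqR M i = Pv i := if_pos h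
private theorem seqP_ge (M i : ℕ) (h : ¬ i < M) : seqP M i = - Pv (2 * M - 1 - i + 1) := if_neg h
private theorem seqR_ge (M i : ℕ) (h : ¬ i < M) : seqR M i = Pv (2 * M - 1 - i) := if_neg h

private theorem seq_adj_succ (M i : ℕ) (hi : i + 1 < 2 * M) :
    Adj (seqP M i) (seqR M i) (seqP M (i + 1)) (seqR M (i + 1)) := by
  unfold Adj
  by_cases h1 : i + 1 < M
  · left
    rw [seqP_lt M i (by omega), seqR_lt M i (by omega), seqP_lt M _ h1, seqR_lt M _ h1]
    exact ⟨rfl, rfl⟩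
  · by_cases h2 : i < M
    · right; left
      rw [seqP_lt M i h2, seqR_lt M i h2, seqP_ge M _ h1, seqR_ge M _ h1]
      have : 2 * M - 1 - (i + 1) = i := by omega
      rw [this]
      exact ⟨rfl, rfl⟩
    · right; right
      rw [seqP_ge M i h2, seqR_ge M i h2, seqP_ge M _ h1, seqR_ge M _ h1]
      obtain ⟨k, hk⟩ : ∃ k, 2 * M - 1 - i = k + 1 := ⟨2 * M - 1 - i - 1, by omega⟩
      have hk' : 2 * M - 1 - (i + 1) = k := by omega
      rw [hk, hk']
      refine ⟨rfl, ?_⟩
      show Pv k = Pv (k + 1) - -(Pv (k + 2))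
      have : Pv (k + 2) = Pv k - Pv (k + 1) := rfl
      rw [this]
      abel

private theorem seq_adj_last (M : ℕ) (hM : 0 < M) :
    Adj (seqP M (2 * M - 1)) (seqR M (2 * M - 1)) (seqP M 0) (seqR M 0) := by
  unfold Adj
  right; left
  rw [seqP_ge M (2 * M - 1) (by omega), seqR_ge M (2 * M - 1) (by omega), seqP_lt M 0 hM,
    seqR_lt M 0 hM]
  have : 2 * M - 1 - (2 * M - 1) = 0 := by omega
  rw [this]
  refine ⟨by simp, rfl⟩

theorem exists_bases (n : ℕ) :
    ∃ B : Bases, B.N = 2 * (n + 2) ∧ ∀ k : ℕ, k ≤ n + 1 → B.r (k : ℤ) = Pv k := by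
  have hN0 : (0 : ℤ) < ((2 * (n + 2) : ℕ) : ℤ) := by positivity
  refine ⟨⟨2 * (n + 2), by omega, fun j => seqP (n + 2) (j % ((2 * (n + 2) : ℕ) : ℤ)).toNat,
    fun j => seqR (n + 2) (j % ((2 * (n + 2) : ℕ) : ℤ)).toNat, ?_, ?_, ?_, ?_⟩, rfl, ?_⟩
  · intro j
    simp only [Int.add_emod_right]
  · intro j
    simp only [Int.add_emod_right]
  · intro j
    exact seq_det _ _
  · intro j
    have h0 := Int.emod_nonneg j hN0.ne'
    have h1 := Int.emod_lt_of_pos j hN0
    obtain ⟨i, hi⟩ : ∃ i : ℕ, j % ((2 * (n + 2) : ℕ) : ℤ) = i := ⟨_, (Int.toNat_of_nonneg h0).symm⟩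
    have hi2 : i < 2 * (n + 2) := by rw [hi] at h1; exact_mod_cast h1
    have hadd : (j + 1) % ((2 * (n + 2) : ℕ) : ℤ) = ((i : ℤ) + 1) % ((2 * (n + 2) : ℕ) : ℤ) := by
      rw [← hi, Int.emod_add_emod]
    show Adj (seqP (n + 2) (j % ((2 * (n + 2) : ℕ) : ℤ)).toNat)
      (seqR (n + 2) (j % ((2 * (n + 2) : ℕ) : ℤ)).toNat)
      (seqP (n + 2) ((j + 1) % ((2 * (n + 2) : ℕ) : ℤ)).toNat)
      (seqR (n + 2) ((j + 1) % ((2 * (n + 2) : ℕ) : ℤ)).toNat)
    rw [hadd, hi, Int.toNat_natCast]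
    by_cases hlt : i + 1 < 2 * (n + 2)
    · have : (((i : ℤ) + 1) % ((2 * (n + 2) : ℕ) : ℤ)).toNat = i + 1 := by
        rw [Int.emod_eq_of_lt (by positivity) (by exact_mod_cast hlt)]
        omega
      rw [this]
      exact seq_adj_succ _ _ hlt
    · have hi3 : i = 2 * (n + 2) - 1 := by omega
      have hi4 : ((i : ℤ) + 1) = ((2 * (n + 2) : ℕ) : ℤ) := by
        have : i + 1 = 2 * (n + 2) := by omega
        exact_mod_cast this
      rw [hi4, Int.emod_self, Int.toNat_zero, hi3]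
      exact seq_adj_last (n + 2) (by omega)
  · intro k hk
    have : ((k : ℤ) % ((2 * (n + 2) : ℕ) : ℤ)).toNat = k := by
      rw [Int.emod_eq_of_lt (by positivity) (by exact_mod_cast (by omega : k < 2 * (n + 2)))]
      simp
    simp only [this]
    unfold seqR
    rw [if_pos (by omega)]

end MRX
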