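import Pool.Agent.MRX.Geo
import Pool.Agent.MRX.Bnd
import Pool.Agent.MRX.Seq

set_option autoImplicit false

open scoped Classical

noncomputable section

namespace MRX

/-- The step vector of a bottom edge in direction `r_j`. -/
lemma pt_edge (B : Bases) (o : ℤ × ℤ) (j : ℤ) (τ : ℝ) :
    pt B o j 4 ![1 - τ, τ, 0, 0] =
      ![(o.1 : ℝ) + τ * ((B.r j).1 : ℝ), (o.2 : ℝ) + τ * ((B.r j).2 : ℝ), (j : ℝ)] := by
  funext i
  fin_cases i <;> simp [pt, Fin.sum_univ_four, raw, vert, T] <;> ring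

lemma isWt_edge (τ : ℝ) (h0 : 0 ≤ τ) (h1 : τ ≤ 1) : IsWt ![1 - τ, τ, 0, 0] := by
  refine ⟨?_, ?_⟩
  · intro i; fin_cases i <;> simp <;> linarith
  · simp [Fin.sum_univ_four]

lemma rwt_edge (B : Bases) (o : ℤ × ℤ) (j : ℤ) (t : Fin 6) (τ : ℝ) :
    rwt B o j t ![1 - τ, τ, 0, 0] =
      (1 - τ) • rwt B o j t ![1, 0, 0, 0] + τ • rwt B o j t ![0, 1, 0, 0] := by
  funext v
  simp [rwt, Fin.sum_univ_four, Pi.single_apply]

/-- The lift of a bottom edge. -/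
def xi (B : Bases) (o : ℤ × ℤ) (j : ℤ) (τ : ℝ) : Fin 3 → ℝ :=
  ![((o.1 : ℝ) + τ * ((B.r j).1 : ℝ)) / 3, ((o.2 : ℝ) + τ * ((B.r j).2 : ℝ)) / 3, (j : ℝ) / B.N]

lemma prB_edge (B : Bases) (o : ℤ × ℤ) (j : ℤ) (τ : ℝ) :
    prB B (pt B o j 4 ![1 - τ, τ, 0, 0]) = pr (xi B o j τ) := by
  rw [pt_edge]; rfl

/-- Three consecutive edges in direction `r_j` give the displacement `P (r_j, 0)`. -/
theorem loop_bound (B : Bases) (K : Geometry.SimplicialComplex ℝ (V B → ℝ)) (α : K.space ≃ₜ T3)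
    (hα : ∀ (o : ℤ × ℤ) (j : ℤ) (t : Fin 6), ∃ s ∈ K.faces, ∀ w : Fin 4 → ℝ, IsWt w →
        rwt B o j t w ∈ convexHull ℝ (s : Set (V B → ℝ)) ∧
        ∀ z : K.space, z.1 = rwt B o j t w → α z = prB B (pt B o j t w))
    (F : (Fin 3 → ℝ) → (Fin 3 → ℝ)) (P : (Fin 3 → ℤ) →+ (Fin 3 → ℤ))
    (hF : ∀ x z, F (x + toR z) = F x + toR (P z)) (E : ℝ)
    (hE : ∀ s ∈ K.faces, ∀ x ∈ convexHull ℝ (s : Set (V B → ℝ)),
        ∀ y ∈ convexHull ℝ (s : Set (V B → ℝ)), ∀ ξ : ℝ → (Fin 3 → ℝ),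
        ContinuousOn ξ (Set.Icc 0 1) →
        (∀ t : ℝ, 0 ≤ t → t ≤ 1 → ∀ z : K.space, z.1 = (1 - t) • x + t • y → pr (ξ t) = α z) →
        ‖F (ξ 1) - F (ξ 0)‖ ≤ E) (j : ℤ) :
    ‖toR (P ![(B.r j).1, (B.r j).2, 0])‖ ≤ 3 * E := by
  -- one edge
  have key : ∀ o : ℤ × ℤ, ‖F (xi B o j 1) - F (xi B o j 0)‖ ≤ E := by
    intro o
    obtain ⟨s, hs, hs2⟩ := hα o j 4
    have h1 := hs2 ![1, 0, 0, 0] (by simpa using isWt_edge 0 le_rfl zero_le_one)
    have h2 := hs2 ![0, 1, 0, 0] (by simpa using isWt_edge 1 zero_le_one le_rfl)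
    refine hE s hs _ h1.1 _ h2.1 (xi B o j) ?_ ?_
    · apply Continuous.continuousOn
      refine continuous_pi fun i => ?_
      fin_cases i <;> simp [xi] <;> fun_prop
    · intro t ht0 ht1 z hz
      rw [← rwt_edge] at hz
      rw [(hs2 _ (isWt_edge t ht0 ht1)).2 z hz, prB_edge]
  -- consecutive edges
  have hstep : ∀ o : ℤ × ℤ, xi B o j 1 = xi B (o.1 + (B.r j).1, o.2 + (B.r j).2) j 0 := by
    intro o
    funext i
    fin_cases i <;> simp [xi]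
  have hend : xi B ((0 + (B.r j).1 + (B.r j).1), (0 + (B.r j).2 + (B.r j).2)) j 1 =
      xi B (0, 0) j 0 + toR ![(B.r j).1, (B.r j).2, 0] := by
    funext i
    fin_cases i <;> simp [xi, toR] <;> ring
  have e1 := key (0, 0)
  have e2 := key (0 + (B.r j).1, 0 + (B.r j).2)
  have e3 := key (0 + (B.r j).1 + (B.r j).1, 0 + (B.r j).2 + (B.r j).2)
  have s1 := hstep (0, 0)
  have s2 := hstep (0 + (B.r j).1, 0 + (B.r j).2)
  simp only at s1 s2
  rw [s1] at e1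
  rw [s2] at e2
  rw [hend, hF] at e3
  have : toR (P ![(B.r j).1, (B.r j).2, 0]) =
      (F (xi B (0, 0) j 0) + toR (P ![(B.r j).1, (B.r j).2, 0]) -
        F (xi B (0 + (B.r j).1 + (B.r j).1, 0 + (B.r j).2 + (B.r j).2) j 0)) +
      (F (xi B (0 + (B.r j).1 + (B.r j).1, 0 + (B.r j).2 + (B.r j).2) j 0) -
        F (xi B (0 + (B.r j).1, 0 + (B.r j).2) j 0)) +
      (F (xi B (0 + (B.r j).1, 0 + (B.r j).2) j 0) - F (xi B (0, 0) j 0)) := by abel
  rw [this]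
  refine (norm_add_le _ _).trans ?_
  have := norm_add_le (F (xi B (0, 0) j 0) + toR (P ![(B.r j).1, (B.r j).2, 0]) -
        F (xi B (0 + (B.r j).1 + (B.r j).1, 0 + (B.r j).2 + (B.r j).2) j 0))
      (F (xi B (0 + (B.r j).1 + (B.r j).1, 0 + (B.r j).2 + (B.r j).2) j 0) -
        F (xi B (0 + (B.r j).1, 0 + (B.r j).2) j 0))
  linarith

/-- The family of triangulations. -/
theorem family : ∃ (κ : ℕ → Type) (_ : ∀ n, Fintype (κ n))
    (K : ∀ n, Geometry.SimplicialComplex ℝ (κ n → ℝ)),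
    (∀ n, IsTriangulation (K n) T3 ∧ numTet (K n) ≤ 108 * (n + 2)) ∧
    ∀ {ι : Type} [Fintype ι] (L : Geometry.SimplicialComplex ℝ (ι → ℝ)), IsTriangulation L T3 →
      ∃ C : ℝ, 0 < C ∧ ∀ (n : ℕ) (R : Geometry.SimplicialComplex ℝ (κ n → ℝ))
        (R' : Geometry.SimplicialComplex ℝ (ι → ℝ)), IsSubdivision R (K n) →
        IsSubdivision R' L → SimplicialIso R R' → (2 : ℝ) ^ n ≤ (C * numTet R) ^ 4 := by
  choose B hBN hBr using exists_bases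
  choose K α hfin hpure hnum hα using fun n => geo (B n)
  refine ⟨fun n => V (B n), fun n => inferInstance, K, ?_, ?_⟩
  · intro n
    refine ⟨⟨hfin n, ⟨α n⟩⟩, (hnum n).trans ?_⟩
    rw [hBN]; omega
  · intro ι _ L hL
    obtain ⟨hLf, ⟨β⟩⟩ := hL
    obtain ⟨D, hD0, hD⟩ := disp L hLf β
    refine ⟨6 * D + 1, by positivity, ?_⟩
    intro n R R' hR hR' hiso
    obtain ⟨F, P, hF, hP, hE⟩ := bnd (K n) (hfin n) (hpure n) (α n) L hLf β D hD0 hD R R' hR hR' hiso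
    have hsv := short_vectors P hP n (3 * (numTet R * D)) (by
      intro k hk
      have := loop_bound (B n) (K n) (α n) (hα n) F P hF (numTet R * D) hE k
      rwa [hBr n k hk] at this)
    refine hsv.trans ?_
    have h0 : (0 : ℝ) ≤ numTet R := by positivity
    have h1 : 2 * (3 * ((numTet R : ℝ) * D)) ≤ (6 * D + 1) * numTet R := by nlinarith
    exact pow_le_pow_left₀ (by positivity) h1 4

end MRX
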