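import Pool.Agent.MRX.Defs

set_option autoImplicit false

open scoped Classical

noncomputable section

namespace MRX

/-!
# Module Per (2)

Periodicity and reduction.
-/

private theorem Per_aux {α : Type*} (f : ℤ → α) (N : ℤ) (hf : ∀ j, f (j + N) = f j) (j m : ℤ)
    (h : N ∣ m) : f (j + m) = f j := by
  obtain ⟨k, rfl⟩ := h
  have hnat : ∀ (k : ℕ) (j : ℤ), f (j + N * (k : ℤ)) = f j := by
    intro k
    induction k with
    | zero => intro j; simp
    | succ k ih =>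
      intro j
      have : j + N * ((k + 1 : ℕ) : ℤ) = (j + N * (k : ℤ)) + N := by push_cast; ring
      rw [this, hf, ih]
  obtain ⟨n, rfl | rfl⟩ := Int.eq_nat_or_neg k
  · exact hnat n j
  · have := hnat n (j + N * (-(n : ℤ)))
    rw [← this]
    congr 1
    ring

/-- `p` is periodic under multiples of `N`. -/
theorem p_per (B : Bases) (j m : ℤ) (h : (B.N : ℤ) ∣ m) : B.p (j + m) = B.p j :=
  Per_aux B.p B.N B.hp j m h

theorem r_per (B : Bases) (j m : ℤ) (h : (B.N : ℤ) ∣ m) : B.r (j + m) = B.r j :=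
  Per_aux B.r B.N B.hr j m h

theorem red_eq_iff (B : Bases) (v v' : ℤ × ℤ × ℤ) : red B v = red B v' ↔ Eqv B v v' := by
  obtain ⟨a, b, c⟩ := v
  obtain ⟨a', b', c'⟩ := v'
  simp only [red, Eqv, Prod.mk.injEq]
  have h3 : ∀ x y : ℤ, ((x : ZMod 3) = (y : ZMod 3)) ↔ (3 : ℤ) ∣ y - x := by
    intro x y
    exact_mod_cast ZMod.intCast_eq_intCast_iff_dvd_sub x y 3
  have hN : ∀ x y : ℤ, ((x : ZMod B.N) = (y : ZMod B.N)) ↔ (B.N : ℤ) ∣ y - x := by
    intro x y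
    exact ZMod.intCast_eq_intCast_iff_dvd_sub x y B.N
  rw [h3, h3, hN]

/-- Translating a lifted tetrahedron by a period. -/
theorem vert_per (B : Bases) (z : ℤ × ℤ × ℤ) (hz : IsPer B z) (o : ℤ × ℤ) (j : ℤ) (t : Fin 6)
    (i : Fin 4) :
    vert B (o.1 + z.1, o.2 + z.2.1) (j + z.2.2) t i = vert B o j t i + z := by
  obtain ⟨z1, z2, z3⟩ := z
  obtain ⟨h1, h2, h3⟩ := hz
  simp only [vert]
  rw [p_per B j z3 h3, r_per B j z3 h3]
  ext <;> simp <;> ring

private theorem Per_raw_add (v z : ℤ × ℤ × ℤ) : raw (v + z) = raw v + raw z := by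
  ext i
  fin_cases i <;> simp [raw]

theorem pt_per (B : Bases) (z : ℤ × ℤ × ℤ) (hz : IsPer B z) (o : ℤ × ℤ) (j : ℤ) (t : Fin 6)
    (w : Fin 4 → ℝ) (hw : IsWt w) :
    pt B (o.1 + z.1, o.2 + z.2.1) (j + z.2.2) t w = pt B o j t w + raw z := by
  unfold pt
  have : ∀ i, w i • raw (vert B (o.1 + z.1, o.2 + z.2.1) (j + z.2.2) t i)
      = w i • raw (vert B o j t i) + w i • raw z := by
    intro i
    rw [vert_per B z hz, Per_raw_add, smul_add]
  rw [Finset.sum_congr rfl (fun i _ => this i), Finset.sum_add_distrib, ← Finset.sum_smul, hw.2,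
    one_smul]

private theorem Per_red_add (B : Bases) (v z : ℤ × ℤ × ℤ) (hz : IsPer B z) :
    red B (v + z) = red B v := by
  rw [red_eq_iff]
  obtain ⟨h1, h2, h3⟩ := hz
  refine ⟨?_, ?_, ?_⟩
  · simpa using h1
  · simpa using h2
  · simpa using h3

theorem rwt_per (B : Bases) (z : ℤ × ℤ × ℤ) (hz : IsPer B z) (o : ℤ × ℤ) (j : ℤ) (t : Fin 6)
    (w : Fin 4 → ℝ) :
    rwt B (o.1 + z.1, o.2 + z.2.1) (j + z.2.2) t w = rwt B o j t w := by
  unfold rwt
  refine Finset.sum_congr rfl (fun i _ => ?_)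
  rw [vert_per B z hz, Per_red_add B _ z hz]

/-- `rwt` is the push-forward of `wtf`. -/
theorem rwt_eq_mapDomain (B : Bases) (o : ℤ × ℤ) (j : ℤ) (t : Fin 6) (w : Fin 4 → ℝ) :
    rwt B o j t w = ⇑(Finsupp.mapDomain (red B) (wtf B o j t w)) := by
  unfold rwt wtf
  rw [Finsupp.mapDomain_finsetSum]
  simp only [Finsupp.mapDomain_single]
  rw [Finsupp.coe_finsetSum]
  refine Finset.sum_congr rfl (fun i _ => ?_)
  ext v
  rw [Finsupp.single_apply, Pi.single_apply]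
  by_cases h : v = red B (vert B o j t i)
  · simp [h]
  · rw [if_neg h, if_neg (fun h' => h h'.symm)]

private theorem Per_circ (m : ℝ) (a b : ℝ) (hm : m ≠ 0) :
    (((a / m : ℝ) : UnitAddCircle) = ((b / m : ℝ) : UnitAddCircle)) ↔ ∃ k : ℤ, b = a + m * k := by
  rw [eq_comm, ← sub_eq_zero, ← AddCircle.coe_sub, AddCircle.coe_eq_zero_iff]
  constructor
  · rintro ⟨n, hn⟩
    refine ⟨n, ?_⟩
    simp only [zsmul_eq_mul, mul_one] at hn
    rw [hn]
    field_simp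
    ring
  · rintro ⟨n, rfl⟩
    refine ⟨n, ?_⟩
    simp only [zsmul_eq_mul, mul_one]
    field_simp
    ring

theorem prB_eq_iff (B : Bases) (x y : Fin 3 → ℝ) :
    prB B x = prB B y ↔ ∃ z, IsPer B z ∧ y = x + raw z := by
  have hN : (B.N : ℝ) ≠ 0 := by
    have := B.hN
    positivity
  constructor
  · intro h
    have h0 : (((x 0 / 3 : ℝ) : UnitAddCircle) = ((y 0 / 3 : ℝ) : UnitAddCircle)) := congrFun h 0
    have h1 : (((x 1 / 3 : ℝ) : UnitAddCircle) = ((y 1 / 3 : ℝ) : UnitAddCircle)) := congrFun h 1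
    have h2 : (((x 2 / B.N : ℝ) : UnitAddCircle) = ((y 2 / B.N : ℝ) : UnitAddCircle)) :=
      congrFun h 2
    obtain ⟨k0, hk0⟩ := (Per_circ 3 _ _ (by norm_num)).1 h0
    obtain ⟨k1, hk1⟩ := (Per_circ 3 _ _ (by norm_num)).1 h1
    obtain ⟨k2, hk2⟩ := (Per_circ B.N _ _ hN).1 h2
    refine ⟨(3 * k0, 3 * k1, B.N * k2), ⟨⟨k0, rfl⟩, ⟨k1, rfl⟩, ⟨k2, rfl⟩⟩, ?_⟩
    ext i
    fin_cases i
    · simp [raw, hk0]
    · simp [raw, hk1]
    · simp [raw, hk2]
  · rintro ⟨⟨z1, z2, z3⟩, ⟨⟨k0, hk0⟩, ⟨k1, hk1⟩, ⟨k2, hk2⟩⟩, rfl⟩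
    simp only at hk0 hk1 hk2
    subst hk0 hk1 hk2
    have h0 : (((x 0 / 3 : ℝ) : UnitAddCircle) =
        (((x + raw (3 * k0, 3 * k1, B.N * k2)) 0 / 3 : ℝ) : UnitAddCircle)) :=
      (Per_circ 3 _ _ (by norm_num)).2 ⟨k0, by simp [raw]⟩
    have h1 : (((x 1 / 3 : ℝ) : UnitAddCircle) =
        (((x + raw (3 * k0, 3 * k1, B.N * k2)) 1 / 3 : ℝ) : UnitAddCircle)) :=
      (Per_circ 3 _ _ (by norm_num)).2 ⟨k1, by simp [raw]⟩
    have h2 : (((x 2 / B.N : ℝ) : UnitAddCircle) =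
        (((x + raw (3 * k0, 3 * k1, B.N * k2)) 2 / B.N : ℝ) : UnitAddCircle)) :=
      (Per_circ B.N _ _ hN).2 ⟨k2, by simp [raw]⟩
    funext i
    fin_cases i
    · exact h0
    · exact h1
    · exact h2

theorem prB_surjective (B : Bases) : Function.Surjective (prB B) := by
  have hN : (B.N : ℝ) ≠ 0 := by
    have := B.hN
    positivity
  intro y
  obtain ⟨a, ha⟩ := QuotientAddGroup.mk_surjective (y 0)
  obtain ⟨b, hb⟩ := QuotientAddGroup.mk_surjective (y 1)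
  obtain ⟨c, hc⟩ := QuotientAddGroup.mk_surjective (y 2)
  refine ⟨![3 * a, 3 * b, B.N * c], ?_⟩
  have h0 : (((3 * a) / 3 : ℝ) : UnitAddCircle) = y 0 := by
    rw [← ha]; congr 1; field_simp
  have h1 : (((3 * b) / 3 : ℝ) : UnitAddCircle) = y 1 := by
    rw [← hb]; congr 1; field_simp
  have h2 : (((B.N * c) / B.N : ℝ) : UnitAddCircle) = y 2 := by
    rw [← hc]; congr 1; field_simp
  funext i
  fin_cases i
  · exact h0
  · exact h1
  · exact h2

theorem continuous_prB (B : Bases) : Continuous (prB B) := by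
  refine continuous_pi (fun i => ?_)
  have hc : Continuous (fun x : ℝ => (x : UnitAddCircle)) := AddCircle.continuous_mk' 1
  fin_cases i
  · exact hc.comp ((continuous_apply (0 : Fin 3)).div_const 3)
  · exact hc.comp ((continuous_apply (1 : Fin 3)).div_const 3)
  · have h' : Continuous (fun x : Fin 3 → ℝ => x 2) := continuous_apply 2
    have h2 : Continuous (fun x : Fin 3 → ℝ => (x 2 / (B.N : ℝ) : ℝ)) := by
      have h3 := h'.mul (continuous_const (y := ((B.N : ℝ))⁻¹) (X := Fin 3 → ℝ))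
      simp only [div_eq_mul_inv]
      exact h3
    exact hc.comp h2

/-- All tetrahedra of the torus are given by finitely many representatives. -/
theorem exists_rep (B : Bases) (o : ℤ × ℤ) (j : ℤ) :
    ∃ (a b c : ℕ) (z : ℤ × ℤ × ℤ), a < 3 ∧ b < 3 ∧ c < B.N ∧ IsPer B z ∧
      o = ((a : ℤ) + z.1, (b : ℤ) + z.2.1) ∧ j = (c : ℤ) + z.2.2 := by
  have hN : (0 : ℤ) < B.N := by have := B.hN; omega
  refine ⟨(o.1 % 3).toNat, (o.2 % 3).toNat, (j % B.N).toNat,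
    (3 * (o.1 / 3), 3 * (o.2 / 3), B.N * (j / B.N)), ?_, ?_, ?_, ⟨⟨_, rfl⟩, ⟨_, rfl⟩, ⟨_, rfl⟩⟩, ?_, ?_⟩
  · omega
  · omega
  · have h1 := Int.emod_lt_of_pos j hN
    have h2 := Int.emod_nonneg j hN.ne'
    omega
  · have h1 : (((o.1 % 3).toNat : ℕ) : ℤ) = o.1 % 3 := Int.toNat_of_nonneg (by omega)
    have h2 : (((o.2 % 3).toNat : ℕ) : ℤ) = o.2 % 3 := Int.toNat_of_nonneg (by omega)
    rw [h1, h2]
    ext
    · simp only; omega
    · simp only; omega
  · have h1 : (((j % B.N).toNat : ℕ) : ℤ) = j % B.N := Int.toNat_of_nonneg (Int.emod_nonneg j hN.ne')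
    rw [h1]
    simp only
    exact (Int.emod_add_mul_ediv j B.N).symm

end MRX
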