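import Pool.Agent.MRX.HatB
import Pool.Agent.MRX.HatT
import Pool.Agent.MRX.Lvl

set_option autoImplicit false

open scoped Classical

noncomputable section

namespace MRX

/-!
# Module Uni (4)

Two representations of the same point of `ℝ³` have the same weights.

Route: for `x = pt B o j t w`, `wtf B o j t w` at a lifted vertex `(X, Y, ℓ)` is
`hat0 (cu B j (x 0 - X) (x 1 - Y)) (cv B j (x 0 - X) (x 1 - Y)) (x 2 - j)` if `ℓ = j`, the same with
`hat1` if `ℓ = j + 1`, and `0` otherwise (this is `wtf_hat`, from `hatB`, `hatT` and the inversion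
of the basis `(p_j, r_j)`, `det = ±1`).  Moreover `j ≤ x 2 ≤ j + 1`.  So if two representations have
`j = j'` the weights agree; if `j' = j + 1` then `x 2 = j + 1` and `hat_level`, `hat0_one`,
`hat1_zero` give the claim; `|j - j'| ≥ 2` is impossible.
-/

private theorem uni_T2 : ∀ (t : Fin 6) (i : Fin 4), (T t i).2.2 = 0 ∨ (T t i).2.2 = 1 := by
  unfold T
  decide

private theorem uni_dd (B : Bases) (j : ℤ) : det (B.p j) (B.r j) * det (B.p j) (B.r j) = 1 := by
  rcases B.hdet j with h | h <;> rw [h] <;> norm_num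

private theorem uni_pt (B : Bases) (o : ℤ × ℤ) (j : ℤ) (t : Fin 6) (w : Fin 4 → ℝ) (hw : IsWt w) :
    pt B o j t w 0 = o.1 + (∑ i, w i * ((T t i).1 : ℝ)) * (B.p j).1 + (∑ i, w i * ((T t i).2.1 : ℝ)) * (B.r j).1 ∧
    pt B o j t w 1 = o.2 + (∑ i, w i * ((T t i).1 : ℝ)) * (B.p j).2 + (∑ i, w i * ((T t i).2.1 : ℝ)) * (B.r j).2 ∧
    pt B o j t w 2 = j + ∑ i, w i * ((T t i).2.2 : ℝ) := by
  have h1 := hw.2
  rw [Fin.sum_univ_four] at h1
  refine ⟨?_, ?_, ?_⟩
  · unfold pt raw vert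
    simp only [Fin.sum_univ_four, Pi.add_apply, Pi.smul_apply, smul_eq_mul, Matrix.cons_val_zero]
    push_cast
    linear_combination (o.1 : ℝ) * h1
  · unfold pt raw vert
    simp only [Fin.sum_univ_four, Pi.add_apply, Pi.smul_apply, smul_eq_mul, Matrix.cons_val_one, Matrix.cons_val_zero]
    push_cast
    linear_combination (o.2 : ℝ) * h1
  · unfold pt raw vert
    simp only [Fin.sum_univ_four, Pi.add_apply, Pi.smul_apply, smul_eq_mul, Matrix.cons_val]
    push_cast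
    linear_combination (j : ℝ) * h1

private theorem uni_vert (B : Bases) (o : ℤ × ℤ) (j : ℤ) (t : Fin 6) (i : Fin 4) (X Y s : ℤ) :
    vert B o j t i = (X, Y, j + s) ↔
      T t i = (det (B.p j) (B.r j) * ((X - o.1) * (B.r j).2 - (Y - o.2) * (B.r j).1),
        det (B.p j) (B.r j) * ((B.p j).1 * (Y - o.2) - (B.p j).2 * (X - o.1)), s) := by
  have hd := uni_dd B j
  unfold vert
  rw [Prod.ext_iff, Prod.ext_iff, Prod.ext_iff, Prod.ext_iff]
  dsimp only
  set a := (T t i).1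
  set b := (T t i).2.1
  set c := (T t i).2.2
  have hdet : det (B.p j) (B.r j) = (B.p j).1 * (B.r j).2 - (B.p j).2 * (B.r j).1 := rfl
  set d := det (B.p j) (B.r j)
  set p1 := (B.p j).1
  set p2 := (B.p j).2
  set r1 := (B.r j).1
  set r2 := (B.r j).2
  constructor
  · rintro ⟨h1, h2, h3⟩
    refine ⟨?_, ?_, ?_⟩
    · linear_combination (-a) * hd + a * d * hdet + (d * r2) * h1 - (d * r1) * h2
    · linear_combination (-b) * hd + b * d * hdet + (d * p1) * h2 - (d * p2) * h1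
    · linarith
  · rintro ⟨h1, h2, h3⟩
    refine ⟨?_, ?_, ?_⟩
    · linear_combination p1 * h1 + r1 * h2 + (X - o.1) * hd - (X - o.1) * d * hdet
    · linear_combination p2 * h1 + r2 * h2 + (Y - o.2) * hd - (Y - o.2) * d * hdet
    · rw [h3]

private theorem uni_wtf (B : Bases) (o : ℤ × ℤ) (j : ℤ) (t : Fin 6) (w : Fin 4 → ℝ) (v : ℤ × ℤ × ℤ) :
    wtf B o j t w v = ∑ i, if vert B o j t i = v then w i else 0 := by
  unfold wtf
  rw [Finsupp.finsetSum_apply]
  apply Finset.sum_congr rfl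
  intro i _
  rw [Finsupp.single_apply]

theorem wtf_hat (B : Bases) (o : ℤ × ℤ) (j : ℤ) (t : Fin 6) (w : Fin 4 → ℝ) (hw : IsWt w)
    (X Y ℓ : ℤ) :
    wtf B o j t w (X, Y, ℓ) =
      if ℓ = j then hat0 (cu B j (pt B o j t w 0 - X) (pt B o j t w 1 - Y))
        (cv B j (pt B o j t w 0 - X) (pt B o j t w 1 - Y)) (pt B o j t w 2 - j)
      else if ℓ = j + 1 then hat1 (cu B j (pt B o j t w 0 - X) (pt B o j t w 1 - Y))
        (cv B j (pt B o j t w 0 - X) (pt B o j t w 1 - Y)) (pt B o j t w 2 - j)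
      else 0 := by
  obtain ⟨hx0, hx1, hx2⟩ := uni_pt B o j t w hw
  have hd := congrArg (Int.cast : ℤ → ℝ) (uni_dd B j)
  have hdet : (det (B.p j) (B.r j) : ℝ) = (B.p j).1 * (B.r j).2 - (B.p j).2 * (B.r j).1 := by
    unfold det
    push_cast
    ring
  push_cast at hd
  have hcu : cu B j (pt B o j t w 0 - X) (pt B o j t w 1 - Y) = (∑ i, w i * ((T t i).1 : ℝ)) -
      ((det (B.p j) (B.r j) * ((X - o.1) * (B.r j).2 - (Y - o.2) * (B.r j).1) : ℤ) : ℝ) := by
    unfold cu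
    rw [hx0, hx1]
    push_cast
    linear_combination (∑ i, w i * ((T t i).1 : ℝ)) * hd - (∑ i, w i * ((T t i).1 : ℝ)) * (det (B.p j) (B.r j) : ℝ) * hdet
  have hcv : cv B j (pt B o j t w 0 - X) (pt B o j t w 1 - Y) = (∑ i, w i * ((T t i).2.1 : ℝ)) -
      ((det (B.p j) (B.r j) * ((B.p j).1 * (Y - o.2) - (B.p j).2 * (X - o.1)) : ℤ) : ℝ) := by
    unfold cv
    rw [hx0, hx1]
    push_cast
    linear_combination (∑ i, w i * ((T t i).2.1 : ℝ)) * hd - (∑ i, w i * ((T t i).2.1 : ℝ)) * (det (B.p j) (B.r j) : ℝ) * hdet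
  have hs : pt B o j t w 2 - j = ∑ i, w i * ((T t i).2.2 : ℝ) := by
    rw [hx2]
    ring
  rw [hcu, hcv, hs, uni_wtf]
  split_ifs with h1 h2
  · rw [hatB t w hw]
    apply Finset.sum_congr rfl
    intro i _
    have := uni_vert B o j t i X Y 0
    rw [add_zero] at this
    rw [h1]
    simp only [this]
  · rw [hatT t w hw]
    apply Finset.sum_congr rfl
    intro i _
    have := uni_vert B o j t i X Y 1
    rw [h2]
    simp only [this]
  · apply Finset.sum_eq_zero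
    intro i _
    rw [if_neg]
    intro hv
    have h3 : j + (T t i).2.2 = ℓ := congrArg (fun z : ℤ × ℤ × ℤ => z.2.2) hv
    rcases uni_T2 t i with h | h
    · rw [h] at h3
      omega
    · rw [h] at h3
      omega

/-- the right side of `wtf_hat` -/
private def uni_F (B : Bases) (j : ℤ) (x : Fin 3 → ℝ) (X Y ℓ : ℤ) : ℝ :=
  if ℓ = j then hat0 (cu B j (x 0 - X) (x 1 - Y)) (cv B j (x 0 - X) (x 1 - Y)) (x 2 - j)
  else if ℓ = j + 1 then hat1 (cu B j (x 0 - X) (x 1 - Y)) (cv B j (x 0 - X) (x 1 - Y)) (x 2 - j)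
  else 0

private theorem uni_step (B : Bases) (j : ℤ) (x : Fin 3 → ℝ) (hx : x 2 = j + 1) (X Y ℓ : ℤ) :
    uni_F B j x X Y ℓ = uni_F B (j + 1) x X Y ℓ := by
  unfold uni_F
  have e1 : x 2 - j = 1 := by rw [hx]; ring
  have e2 : x 2 - ((j + 1 : ℤ) : ℝ) = 0 := by rw [hx]; push_cast; ring
  rw [e1, e2]
  by_cases h1 : ℓ = j
  · rw [if_pos h1, if_neg (by omega), if_neg (by omega), hat0_one]
  · by_cases h2 : ℓ = j + 1
    · rw [if_neg h1, if_pos h2, if_pos h2, hat_level]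
    · by_cases h3 : ℓ = j + 1 + 1
      · rw [if_neg h1, if_neg h2, if_neg h2, if_pos h3, hat1_zero]
      · rw [if_neg h1, if_neg h2, if_neg h2, if_neg h3]

private theorem uni_bd (B : Bases) (o : ℤ × ℤ) (j : ℤ) (t : Fin 6) (w : Fin 4 → ℝ) (hw : IsWt w) :
    (j : ℝ) ≤ pt B o j t w 2 ∧ pt B o j t w 2 ≤ j + 1 := by
  obtain ⟨_, _, hx2⟩ := uni_pt B o j t w hw
  rw [hx2]
  have h0 : 0 ≤ ∑ i, w i * ((T t i).2.2 : ℝ) := by
    apply Finset.sum_nonneg
    intro i _
    apply mul_nonneg (hw.1 i)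
    rcases uni_T2 t i with h | h <;> rw [h] <;> norm_num
  have h1 : ∑ i, w i * ((T t i).2.2 : ℝ) ≤ ∑ i, w i := by
    apply Finset.sum_le_sum
    intro i _
    have := hw.1 i
    rcases uni_T2 t i with h | h <;> rw [h] <;> norm_num
    exact this
  rw [hw.2] at h1
  constructor <;> linarith

theorem wtf_unique (B : Bases) (o : ℤ × ℤ) (j : ℤ) (t : Fin 6) (w : Fin 4 → ℝ) (hw : IsWt w)
    (o' : ℤ × ℤ) (j' : ℤ) (t' : Fin 6) (w' : Fin 4 → ℝ) (hw' : IsWt w')
    (h : pt B o j t w = pt B o' j' t' w') : wtf B o j t w = wtf B o' j' t' w' := by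
  apply Finsupp.ext
  rintro ⟨X, Y, ℓ⟩
  have e1 : wtf B o j t w (X, Y, ℓ) = uni_F B j (pt B o j t w) X Y ℓ := wtf_hat B o j t w hw X Y ℓ
  have e2 : wtf B o' j' t' w' (X, Y, ℓ) = uni_F B j' (pt B o j t w) X Y ℓ := by
    rw [h]
    exact wtf_hat B o' j' t' w' hw' X Y ℓ
  rw [e1, e2]
  obtain ⟨a1, a2⟩ := uni_bd B o j t w hw
  obtain ⟨b1, b2⟩ := uni_bd B o' j' t' w' hw'
  rw [← h] at b1 b2
  have c1 : j ≤ j' + 1 := by
    have : (j : ℝ) ≤ ((j' + 1 : ℤ) : ℝ) := by push_cast; linarith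
    exact_mod_cast this
  have c2 : j' ≤ j + 1 := by
    have : (j' : ℝ) ≤ ((j + 1 : ℤ) : ℝ) := by push_cast; linarith
    exact_mod_cast this
  have c3 : j' = j ∨ j' = j + 1 ∨ j = j' + 1 := by omega
  rcases c3 with rfl | rfl | rfl
  · rfl
  · apply uni_step
    push_cast at b1
    linarith
  · symm
    apply uni_step
    push_cast at a1
    linarith

end MRX
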