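import Pool.Agent.MRX.Dsp
import Pool.Agent.MRX.Uni

set_option autoImplicit false

open scoped Classical

noncomputable section

namespace MRX

/-!
# Module Simp (3)

The reduced weights determine the point of `ℝ³` up to periods, and conversely.

`rwt_eq_imp`: some `w i₀ > 0`, and there is `k₀` with `red (vert i₀) = red (vert' k₀)`,
`w' k₀ = w i₀` (`red_vert_injective`); `z = vert' k₀ - vert i₀` is a period; for every `i` with
`w i > 0` there is `k` with the same reduction and `w' k = w i`, and `displacement` gives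
`vert' k = vert i + z`; so `pt' = pt + raw z`.

`rwt_eq_of_pt`: translate by `pt_per`, then `wtf_unique`, then `rwt_eq_mapDomain` and `rwt_per`.
-/

private theorem Simp_apply (B : Bases) (o : ℤ × ℤ) (j : ℤ) (t : Fin 6) (w : Fin 4 → ℝ) (i : Fin 4) :
    rwt B o j t w (red B (vert B o j t i)) = w i := by
  unfold rwt
  rw [Finset.sum_apply, Finset.sum_eq_single i]
  · rw [Pi.single_eq_same]
  · intro k _ hk
    rw [Pi.single_eq_of_ne]
    intro h
    exact hk ((red_vert_injective B o j t) h).symm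
  · intro h
    exact absurd (Finset.mem_univ i) h

private theorem Simp_exists (B : Bases) (o : ℤ × ℤ) (j : ℤ) (t : Fin 6) (w : Fin 4 → ℝ) (x : V B)
    (h : rwt B o j t w x ≠ 0) : ∃ i, red B (vert B o j t i) = x := by
  by_contra hc
  push Not at hc
  apply h
  unfold rwt
  rw [Finset.sum_apply]
  exact Finset.sum_eq_zero fun i _ => Pi.single_eq_of_ne (hc i).symm _

private theorem Simp_sum (B : Bases) (o : ℤ × ℤ) (j : ℤ) (t : Fin 6) (w : Fin 4 → ℝ)
    (F : V B → (Fin 3 → ℝ)) :
    ∑ x, rwt B o j t w x • F x = ∑ i, w i • F (red B (vert B o j t i)) := by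
  unfold rwt
  simp only [Finset.sum_apply, Finset.sum_smul]
  rw [Finset.sum_comm]
  refine Finset.sum_congr rfl fun i _ => ?_
  rw [Finset.sum_eq_single (red B (vert B o j t i))]
  · rw [Pi.single_eq_same]
  · intro x _ hx
    rw [Pi.single_eq_of_ne hx, zero_smul]
  · intro h
    exact absurd (Finset.mem_univ _) h

private theorem Simp_raw (v z : ℤ × ℤ × ℤ) : raw (v + z) = raw v + raw z := by
  unfold raw
  ext i
  fin_cases i <;> simp

theorem rwt_eq_imp (B : Bases) (o : ℤ × ℤ) (j : ℤ) (t : Fin 6) (w : Fin 4 → ℝ) (hw : IsWt w)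
    (o' : ℤ × ℤ) (j' : ℤ) (t' : Fin 6) (w' : Fin 4 → ℝ) (hw' : IsWt w')
    (h : rwt B o j t w = rwt B o' j' t' w') :
    ∃ z, IsPer B z ∧ pt B o' j' t' w' = pt B o j t w + raw z := by
  have hk : ∀ i, w i ≠ 0 → ∃ k, red B (vert B o' j' t' k) = red B (vert B o j t i) := by
    intro i hi
    apply Simp_exists B o' j' t' w'
    rw [← h, Simp_apply]
    exact hi
  obtain ⟨i₀, hi₀⟩ : ∃ i, w i ≠ 0 := by
    by_contra hc
    push Not at hc
    have := hw.2
    rw [Finset.sum_eq_zero fun i _ => hc i] at this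
    exact zero_ne_one this
  obtain ⟨k₀, hk₀⟩ := hk i₀ hi₀
  have e₀ : Eqv B (vert B o j t i₀) (vert B o' j' t' k₀) := (red_eq_iff B _ _).1 hk₀.symm
  refine ⟨vert B o' j' t' k₀ - vert B o j t i₀, e₀, ?_⟩
  obtain ⟨z, hz⟩ : ∃ z, z = vert B o' j' t' k₀ - vert B o j t i₀ := ⟨_, rfl⟩
  rw [← hz]
  obtain ⟨F, hF⟩ : ∃ F : V B → (Fin 3 → ℝ), ∀ k, F (red B (vert B o' j' t' k)) =
      raw (vert B o' j' t' k) := by
    refine ⟨fun x => if hx : ∃ k, red B (vert B o' j' t' k) = x then
      raw (vert B o' j' t' hx.choose) else 0, fun k => ?_⟩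
    have hx : ∃ k', red B (vert B o' j' t' k') = red B (vert B o' j' t' k) := ⟨k, rfl⟩
    simp only [dif_pos hx]
    congr 2
    exact red_vert_injective B o' j' t' hx.choose_spec
  have h1 := Simp_sum B o j t w F
  have h2 := Simp_sum B o' j' t' w' F
  rw [← h, h1] at h2
  have h3 : pt B o' j' t' w' = ∑ i, w' i • F (red B (vert B o' j' t' i)) := by
    unfold pt
    exact Finset.sum_congr rfl fun k _ => by rw [hF]
  rw [h3, ← h2]
  have h4 : ∀ i, w i • F (red B (vert B o j t i)) = w i • raw (vert B o j t i) + w i • raw z := by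
    intro i
    by_cases hi : w i = 0
    · rw [hi]
      simp
    · obtain ⟨k, hk⟩ := hk i hi
      have e : Eqv B (vert B o j t i) (vert B o' j' t' k) := (red_eq_iff B _ _).1 hk.symm
      have hd := displacement B o j t i₀ i o' j' t' k₀ k e₀ e
      have e1 : vert B o' j' t' k = vert B o j t i + z := by
        rw [hz]
        have : vert B o' j' t' k = (vert B o' j' t' k - vert B o' j' t' k₀) + vert B o' j' t' k₀ := by
          abel
        rw [this, ← hd]
        abel
      rw [← hk, hF, e1, Simp_raw, smul_add]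
  rw [Finset.sum_congr rfl fun i _ => h4 i, Finset.sum_add_distrib, ← Finset.sum_smul, hw.2,
    one_smul]
  rfl

theorem rwt_eq_of_pt (B : Bases) (o : ℤ × ℤ) (j : ℤ) (t : Fin 6) (w : Fin 4 → ℝ) (hw : IsWt w)
    (o' : ℤ × ℤ) (j' : ℤ) (t' : Fin 6) (w' : Fin 4 → ℝ) (hw' : IsWt w')
    (z : ℤ × ℤ × ℤ) (hz : IsPer B z) (h : pt B o' j' t' w' = pt B o j t w + raw z) :
    rwt B o j t w = rwt B o' j' t' w' := by
  rw [← pt_per B z hz o j t w hw] at h
  have h1 := wtf_unique B _ _ t w hw o' j' t' w' hw' h.symm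
  rw [← rwt_per B z hz o j t w, rwt_eq_mapDomain, rwt_eq_mapDomain, h1]

end MRX
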