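import Pool.Agent.MRX.Defs

set_option autoImplicit false

open scoped Classical

noncomputable section

namespace MRX

/-!
# Module Std (3)

The standard realisation, in `V → ℝ`, of an abstract simplicial complex on a finite vertex set.

Hints: use `Geometry.SimplicialComplex.ofAffineIndependent` (file
`Mathlib/Analysis/Convex/SimplicialComplex/AffineIndependentUnion.lean`) with the faces
`(fun s => s.image (fun v => Pi.single v 1)) '' A`; affine independence from
`Pi.basisFun`/`linearIndependent_single_one`-type lemmas.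
-/

/-- The convex hull of standard basis vectors. -/
theorem std_hull {V : Type*} [Fintype V] [DecidableEq V] (s : Finset V) (f : Finset (V → ℝ))
    (hf : (f : Set (V → ℝ)) = (fun v => Pi.single v (1 : ℝ)) '' (s : Set V)) :
    convexHull ℝ (f : Set (V → ℝ)) =
      {x | (∀ v, 0 ≤ x v) ∧ ∑ v, x v = 1 ∧ ∀ v, v ∉ s → x v = 0} := by
  rw [hf]
  apply Set.Subset.antisymm
  · apply convexHull_min
    · rintro _ ⟨v, hv, rfl⟩
      refine ⟨fun u => ?_, ?_, fun u hu => ?_⟩
      · by_cases h : u = v
        · subst h; simp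
        · simp [Pi.single_eq_of_ne h]
      · simp [Finset.sum_pi_single']
      · have h : u ≠ v := by
          rintro rfl
          exact hu hv
        simp [Pi.single_eq_of_ne h]
    · intro x hx y hy a b ha hb hab
      refine ⟨fun v => ?_, ?_, fun v hv => ?_⟩
      · have h1 := hx.1 v
        have h2 := hy.1 v
        simp only [Pi.add_apply, Pi.smul_apply, smul_eq_mul]
        positivity
      · simp only [Pi.add_apply, Pi.smul_apply, smul_eq_mul]
        rw [Finset.sum_add_distrib, ← Finset.mul_sum, ← Finset.mul_sum, hx.2.1, hy.2.1]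
        linarith
      · simp only [Pi.add_apply, Pi.smul_apply, smul_eq_mul]
        rw [hx.2.2 v hv, hy.2.2 v hv]
        ring
  · rintro x ⟨h0, h1, h2⟩
    have hx : x = ∑ v ∈ s, x v • (Pi.single v (1 : ℝ) : V → ℝ) := by
      funext u
      rw [Finset.sum_apply]
      simp only [Pi.smul_apply, smul_eq_mul]
      by_cases hu : u ∈ s
      · rw [Finset.sum_eq_single u]
        · simp
        · intro v _ hv
          simp [Pi.single_eq_of_ne (Ne.symm hv)]
        · intro h
          exact absurd hu h
      · rw [h2 u hu]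
        symm
        apply Finset.sum_eq_zero
        intro v hv
        have : u ≠ v := by
          rintro rfl
          exact hu hv
        simp [Pi.single_eq_of_ne this]
    have h3 : ∑ v ∈ s, x v = 1 := by
      rw [← h1]
      exact Finset.sum_subset (Finset.subset_univ s) fun v _ hv => h2 v hv
    rw [hx]
    exact (convex_convexHull ℝ _).sum_mem (fun v _ => h0 v) h3
      fun v hv => subset_convexHull ℝ _ ⟨v, hv, rfl⟩

private theorem std_inj {V : Type*} [DecidableEq V] :
    Function.Injective (fun v : V => (Pi.single v (1 : ℝ) : V → ℝ)) := by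
  intro u v h
  by_contra hne
  have h1 := congrFun h u
  simp only [Pi.single_eq_same] at h1
  rw [Pi.single_eq_of_ne hne] at h1
  exact one_ne_zero h1

/-- The standard realisation. -/
theorem std_exists {V : Type*} [Fintype V] [DecidableEq V] (A : Set (Finset V))
    (hne : ∀ s ∈ A, s.Nonempty) (hdown : ∀ s ∈ A, ∀ t : Finset V, t ⊆ s → t.Nonempty → t ∈ A) :
    ∃ K : Geometry.SimplicialComplex ℝ (V → ℝ),
      K.faces.Finite ∧
      K.space = {x | (∀ v, 0 ≤ x v) ∧ ∑ v, x v = 1 ∧ ∃ s ∈ A, ∀ v, v ∉ s → x v = 0} ∧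
      (∀ s ∈ A, ∃ f ∈ K.faces, (f : Set (V → ℝ)) =
        (fun v => Pi.single v (1 : ℝ)) '' (s : Set V) ∧ f.card = s.card) ∧
      (∀ f ∈ K.faces, ∃ s ∈ A, (f : Set (V → ℝ)) =
        (fun v => Pi.single v (1 : ℝ)) '' (s : Set V) ∧ f.card = s.card) ∧
      numTet K = {s ∈ A | s.card = 4}.ncard := by
  let e : V → (V → ℝ) := fun v => Pi.single v (1 : ℝ)
  have he : Function.Injective e := std_inj
  let P : PreAbstractSimplicialComplex (V → ℝ) :=
    { faces := (fun s : Finset V => s.image e) '' A
      isRelLowerSet_faces := by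
        rintro _ ⟨s, hs, rfl⟩
        refine ⟨(hne s hs).image e, ?_⟩
        intro b hb hbn
        obtain ⟨t, ht, rfl⟩ := Finset.subset_image_iff.1 hb
        exact ⟨t, hdown s hs t ht (by simpa using hbn), rfl⟩ }
  have hindep : AffineIndependent ℝ
      (Subtype.val : (⋃ s ∈ P.faces, (s : Set (V → ℝ))) → (V → ℝ)) := by
    have h1 : LinearIndependent ℝ e := by
      have := (Pi.basisFun ℝ V).linearIndependent
      have h2 : (⇑(Pi.basisFun ℝ V) : V → (V → ℝ)) = e := by
        funext v
        simp [e]
      rwa [h2] at this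
    refine h1.affineIndependent.range.mono fun x hx => ?_
    simp only [Set.mem_iUnion, Finset.mem_coe] at hx
    obtain ⟨_, ⟨s, _, rfl⟩, hx⟩ := hx
    obtain ⟨v, _, rfl⟩ := Finset.mem_image.1 hx
    exact ⟨v, rfl⟩
  let K : Geometry.SimplicialComplex ℝ (V → ℝ) :=
    Geometry.SimplicialComplex.ofAffineIndependent P hindep
  have hK : K.faces = (fun s : Finset V => s.image e) '' A := rfl
  refine ⟨K, ?_, ?_, ?_, ?_, ?_⟩
  · rw [hK]
    exact (Set.toFinite A).image _
  · ext x
    rw [Geometry.SimplicialComplex.mem_space_iff]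
    constructor
    · rintro ⟨_, ⟨s, hs, rfl⟩, hx⟩
      rw [std_hull s (s.image e) (by simp [e])] at hx
      exact ⟨hx.1, hx.2.1, s, hs, hx.2.2⟩
    · rintro ⟨h0, h1, s, hs, h2⟩
      refine ⟨s.image e, ⟨s, hs, rfl⟩, ?_⟩
      rw [std_hull s (s.image e) (by simp [e])]
      exact ⟨h0, h1, h2⟩
  · intro s hs
    exact ⟨s.image e, ⟨s, hs, rfl⟩, by simp [e], Finset.card_image_of_injective s he⟩
  · rintro _ ⟨s, hs, rfl⟩
    exact ⟨s, hs, by simp [e], Finset.card_image_of_injective s he⟩
  · rw [numTet]
    have h1 : {s ∈ K.faces | s.card = 4} = (fun s : Finset V => s.image e) '' {s ∈ A | s.card = 4} := by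
      ext f
      constructor
      · rintro ⟨⟨s, hs, rfl⟩, h4⟩
        refine ⟨s, ⟨hs, ?_⟩, rfl⟩
        rwa [Finset.card_image_of_injective s he] at h4
      · rintro ⟨s, ⟨hs, h4⟩, rfl⟩
        refine ⟨⟨s, hs, rfl⟩, ?_⟩
        rw [Finset.card_image_of_injective s he]
        exact h4
    rw [h1]
    exact Set.ncard_image_of_injective _ (Finset.image_injective he)

end MRX
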