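import Mathlib

/-!
# Triangulations, subdivisions and simplicial isomorphisms
-/

set_option autoImplicit false

open scoped Classical

noncomputable section

namespace MRX

/-- The 3-torus, a closed 3-manifold. -/
abbrev T3 : Type := Fin 3 → UnitAddCircle

/-- The number of tetrahedra (3-simplices) of a simplicial complex. -/
def numTet {E : Type*} [AddCommGroup E] [Module ℝ E] (K : Geometry.SimplicialComplex ℝ E) : ℕ :=
  {s ∈ K.faces | s.card = 4}.ncard

/-- `K` is a (finite) triangulation of the topological space `M`. -/
def IsTriangulation {E : Type*} [AddCommGroup E] [Module ℝ E] [TopologicalSpace E]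
    (K : Geometry.SimplicialComplex ℝ E) (M : Type*) [TopologicalSpace M] : Prop :=
  K.faces.Finite ∧ Nonempty (K.space ≃ₜ M)

/-- `R` is a (finite) subdivision of `K`: the same underlying space, and every simplex of `R`
lies in a simplex of `K`. -/
def IsSubdivision {E : Type*} [AddCommGroup E] [Module ℝ E]
    (R K : Geometry.SimplicialComplex ℝ E) : Prop :=
  R.faces.Finite ∧ R.space = K.space ∧
    ∀ s ∈ R.faces, ∃ t ∈ K.faces, convexHull ℝ (s : Set E) ⊆ convexHull ℝ (t : Set E)

/-- `R` and `R'` are simplicially isomorphic. -/
def SimplicialIso {E E' : Type*} [AddCommGroup E] [Module ℝ E] [AddCommGroup E'] [Module ℝ E']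
    (R : Geometry.SimplicialComplex ℝ E) (R' : Geometry.SimplicialComplex ℝ E') : Prop :=
  ∃ φ : E → E', Set.InjOn φ R.vertices ∧ R'.faces = (fun s : Finset E => s.image φ) '' R.faces

end MRX
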